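import Pool.Agent.Lib.MP_78c6b1_al.U1.Blocks

/-! An abelian fast lane violates the budget. -/

namespace Pool.Agent.P78.U1

open PowerSeries Submodule Finset

section

variable {K L : Type} [Field K] [CharZero K] [LieRing L] [LieAlgebra K L]

/-- The truncated exponential of `ad w`. -/
noncomputable def finExp (K : Type) [Field K] [LieAlgebra K L] (w : L) (n : ℕ) : Module.End K L :=
  ∑ k ∈ range n, (k.factorial : K)⁻¹ • LieAlgebra.ad K L w ^ k

omit [CharZero K] in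
lemma finExp_apply (w v : L) (n : ℕ) :
    finExp K w n v = ∑ k ∈ range n, (k.factorial : K)⁻¹ • (LieAlgebra.ad K L w ^ k) v := by
  simp [finExp, LinearMap.sum_apply]

omit [CharZero K] in
lemma fin_leib (w u v : L) (k : ℕ) : (LieAlgebra.ad K L w ^ k) ⁅u, v⁆ =
    ∑ p ∈ antidiagonal k, k.choose p.1 •
      ⁅(LieAlgebra.ad K L w ^ p.1) u, (LieAlgebra.ad K L w ^ p.2) v⁆ := by
  induction k with
  | zero => simp
  | succ k ih =>
    rw [sum_antidiagonal_choose_succ_nsmul (M := L)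
      (fun i j => ⁅(LieAlgebra.ad K L w ^ i) u, (LieAlgebra.ad K L w ^ j) v⁆) k, pow_succ',
      Module.End.mul_apply, ih, map_sum, ← sum_add_distrib]
    refine sum_congr rfl fun p hp => ?_
    rw [map_nsmul, LieAlgebra.ad_apply, leibniz_lie, smul_add, pow_succ', pow_succ',
      k.choose_symm_of_eq_add (HasAntidiagonal.mem_antidiagonal.1 hp).symm, add_comm]
    rfl

lemma finExp_lie (w u v : L) (n : ℕ) :
    ⁅finExp K w n u, finExp K w n v⁆ - finExp K w n ⁅u, v⁆ ∈ gam K L n := by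
  set f : ℕ × ℕ → L := fun p => ((p.1.factorial : K)⁻¹ * (p.2.factorial : K)⁻¹) •
    ⁅(LieAlgebra.ad K L w ^ p.1) u, (LieAlgebra.ad K L w ^ p.2) v⁆ with hf
  have h1 : ⁅finExp K w n u, finExp K w n v⁆ = ∑ p ∈ range n ×ˢ range n, f p := by
    rw [finExp_apply, finExp_apply, sum_lie, sum_product]
    refine sum_congr rfl fun i _ => ?_
    rw [lie_sum]
    refine sum_congr rfl fun j _ => ?_
    rw [smul_lie, lie_smul, smul_smul]
  have h2 : finExp K w n ⁅u, v⁆ = ∑ p ∈ (range n ×ˢ range n).filter (fun p => p.1 + p.2 < n), f p := by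
    rw [finExp_apply, ← sum_fiberwise_of_maps_to (t := range n) (g := fun p : ℕ × ℕ => p.1 + p.2)
      fun p hp => mem_range.2 (mem_filter.1 hp).2]
    refine sum_congr rfl fun k hk => ?_
    rw [mem_range] at hk
    rw [fin_leib, smul_sum]
    refine sum_congr ?_ fun p hp => ?_
    · ext p
      simp only [HasAntidiagonal.mem_antidiagonal, mem_filter, mem_product, mem_range]
      omega
    · have h3 : p.1 + p.2 = k := (mem_filter.1 hp).2
      rw [← Nat.cast_smul_eq_nsmul K, smul_smul, hf]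
      congr 1
      have h4 : ((p.1 + p.2).choose p.1 * p.1.factorial * p.2.factorial : K) =
          (p.1 + p.2).factorial := by
        rw [Nat.choose_symm_add]
        exact_mod_cast Nat.add_choose_mul_factorial_mul_factorial p.1 p.2
      have a1 : (p.1.factorial : K) ≠ 0 := Nat.cast_ne_zero.2 (Nat.factorial_ne_zero _)
      have a2 : (p.2.factorial : K) ≠ 0 := Nat.cast_ne_zero.2 (Nat.factorial_ne_zero _)
      have a3 : (k.factorial : K) ≠ 0 := Nat.cast_ne_zero.2 (Nat.factorial_ne_zero _)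
      rw [h3] at h4
      field_simp
      linear_combination h4
  rw [h1, h2, ← sum_filter_add_sum_filter_not _ (fun p : ℕ × ℕ => p.1 + p.2 < n),
    add_sub_cancel_left]
  refine sum_mem fun p hp => smul_mem _ _ (gam_anti (not_lt.1 (mem_filter.1 hp).2)
    (lie_mem_gam ?_ ?_))
  · simpa using ad_pow_mem_gam (n := 0) w p.1 (v := u) trivial
  · simpa using ad_pow_mem_gam (n := 0) w p.2 (v := v) trivial

omit [CharZero K] in
lemma finExp_sub (w y : L) (n : ℕ) {W : Submodule K L}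
    (h : ∀ k, (LieAlgebra.ad K L w ^ (k + 2)) y ∈ W) :
    finExp K w (n + 2) y - y - ⁅w, y⁆ ∈ W := by
  rw [finExp_apply, sum_range_succ', sum_range_succ']
  simp only [zero_add, Nat.factorial_one, Nat.factorial_zero, Nat.cast_one, inv_one, one_smul,
    pow_one, pow_zero, Module.End.one_apply, LieAlgebra.ad_apply, add_sub_cancel_right]
  exact sum_mem fun k _ => smul_mem _ _ (h k)

omit [CharZero K] in
lemma finExp_succ (w : L) (n : ℕ) {m : ℕ} {g : L} (hg : g ∈ gam K L m) :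
    finExp K w (n + 2) g - g ∈ gam K L (m + 1) := by
  rw [← sub_add_cancel (finExp K w (n + 2) g - g) ⁅w, g⁆]
  exact add_mem (finExp_sub w g n fun k => gam_anti (by omega) (ad_pow_mem_gam w (k + 2) hg))
    (lie_mem_gam_succ w hg)

omit [CharZero K] in
lemma finExp_surj (w : L) (n m : ℕ) (v : L) : ∃ u, v - finExp K w (n + 2) u ∈ gam K L m := by
  induction m with
  | zero => exact ⟨0, trivial⟩
  | succ m ih =>
    obtain ⟨u, hu⟩ := ih
    refine ⟨u + (v - finExp K w (n + 2) u), ?_⟩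
    rw [map_add, ← sub_sub, ← neg_mem_iff, neg_sub]
    exact finExp_succ w n hu

lemma finExp_bud (h : Lim K L) (w y : L) (n c : ℕ) (hy : cod (im K y ⊔ gam K L n) ≤ c) :
    cod (im K (finExp K w (n + 2) y) ⊔ gam K L n) ≤ c := by
  have hf := fun u : L => h.fin_opn ((opn_gam n).mono (le_sup_right (a := im K u)))
  obtain ⟨z, hz⟩ := cod_le_iff.1 hy
  refine cod_le_iff.2 ⟨finExp K w (n + 2) ∘ z, top_unique fun v _ => ?_⟩
  obtain ⟨u, hu⟩ := finExp_surj (K := K) w n n v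
  obtain ⟨_, h2, s, hs, rfl⟩ := mem_sup.1 (hz.ge (mem_top (x := u)))
  obtain ⟨_, ⟨p, rfl⟩, g, hg, rfl⟩ := mem_sup.1 h2
  rw [← sub_add_cancel v (finExp K w (n + 2) (LieAlgebra.ad K L y p + g + s))]
  refine add_mem (mem_sup_left (mem_sup_right hu)) ?_
  rw [map_add, map_add]
  refine add_mem_sup (add_mem ?_ (mem_sup_right ?_)) ?_
  · rw [LieAlgebra.ad_apply, ← sub_sub_cancel ⁅finExp K w (n + 2) y, finExp K w (n + 2) p⁆
      (finExp K w (n + 2) ⁅y, p⁆)]
    exact sub_mem (mem_sup_left ⟨_, rfl⟩)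
      (mem_sup_right (gam_anti (by omega) (finExp_lie w y p (n + 2))))
  · rw [← sub_add_cancel (finExp K w (n + 2) g) g]
    exact add_mem (gam_anti n.le_succ (finExp_succ w n hg)) hg
  · rw [Set.range_comp, ← map_span]
    exact mem_map_of_mem hs

end

section

variable {K L : Type} [Field K] [CharZero K] [LieRing L] [LieAlgebra K L] [Module K⟦X⟧ L]
  [IsScalarTower K K⟦X⟧ L] {D : Dat K L} {a R : ℕ} {b : K}

namespace Dat

lemma Odd.fin_lie (h : D.Odd a R b) {i j k : ℕ} {u v : L} (hu : u ∈ D.Box i (D.cnt (i + a)))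
    (hv : v ∈ D.Box j (D.cnt (j + a))) (hi : R + 2 * a ≤ i) (hj : R + 2 * a ≤ j)
    (hk : k ≤ i + j + a) : ⁅u, v⁆ ∈ D.Box k (D.cnt (k + a)) :=
  lie_wt (R := R) (c := a + 1) (A := 2 * a) (i := i) (p := i + a) (j := j) (q := j + a) (k := k)
    (w := k + a) (fun s t hs ht => by rw [← add_assoc]; exact h.box s t hs ht) hu hv (by omega)
    (by omega) (by omega) (by omega) (by omega) (by omega) (by omega) (by omega) (by omega)

omit [CharZero K] in
lemma Odd.fin_two (h : D.Odd a R b) (w : ℕ) (hw : R ≤ w) : D.cnt (w + 1 + 1) = D.cnt w + 1 := by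
  have s0 := h.sig w hw
  have s1 := h.sig (w + 1) (by omega)
  rcases Nat.mod_two_eq_zero_or_one w with e | e
  · have a1 : D.InS (w + 1) := s1.2 (by omega)
    have a2 : ¬ D.InS w := fun c => by have := s0.1 c; omega
    rw [a1.succ, cnt_succ a2]
  · have a1 : D.InS w := s0.2 e
    have a2 : ¬ D.InS (w + 1) := fun c => by have := s1.1 c; omega
    rw [cnt_succ a2, a1.succ]

omit [CharZero K] in
lemma Odd.fin_cnt (h : D.Odd a R b) (j : ℕ) : D.cnt (R + 2 * j) = D.cnt R + j := by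
  induction j with
  | zero => simp
  | succ j ih =>
    rw [show R + 2 * (j + 1) = R + 2 * j + 1 + 1 by ring, h.fin_two _ (by omega), ih, add_assoc]

lemma Odd.fin_step (h : D.Odd a R b) {s j n c : ℕ} (hs : (s + a) % 2 = 1) (hs' : R + 2 * a ≤ s)
    (hj : R + 2 * a + 1 ≤ j) {y : L} (h1 : y ∈ D.Box (s + a + j) (D.cnt (s + a)))
    (h2 : ¬ X ^ (D.cnt (s + a) + 1) ∣ D.pZ y) (h3 : cod (im K y ⊔ gam K L n) ≤ c) :
    ∃ y' ∈ D.Box (s + a + (j + 1)) (D.cnt (s + a)), ¬ X ^ (D.cnt (s + a) + 1) ∣ D.pZ y' ∧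
      cod (im K y' ⊔ gam K L n) ≤ c := by
  have hS : D.InS (s + a) := (h.sig _ (by omega)).2 hs
  have hS1 := hS.succ
  have hS2 : D.sg (D.cnt (s + a)) + 2 ≤ D.sg (D.cnt (s + a) + 1) := by
    have e1 : ¬ D.InS (s + a + 1) := fun c => by have := (h.sig _ (by omega)).1 c; omega
    have e2 := le_sg_cnt (D := D) (s + a + 1)
    rw [InS, hS1] at e1
    rw [hS1] at e2
    rw [InS] at hS
    omega
  have hu : D.u (D.cnt (s + a)) j ≠ 0 := by
    obtain ⟨t, ht⟩ := u_ne (D := D) (D.cnt (s + a))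
    rwa [u_const hS2, ← u_const hS2 j] at ht
  have hl : coeff (D.cnt (s + a)) (D.pZ y) ≠ 0 := fun e => h2 (dvd_succ' h1.2.2 e)
  have hN : D.pZ y • D.h ∈ D.N := ⟨h_mem _, pE_h _⟩
  have hN' : X ^ D.cnt (s + a) ∣ D.pZ (D.pZ y • D.h) := by rw [pZ_h]; exact h1.2.2
  have hf : ∀ m, D.pE y • D.e ∈ D.Box (s + a + j) m := fun m =>
    ⟨e_mem _, by rw [pE_e]; exact h1.2.1, by rw [pZ_e]; exact dvd_zero _⟩
  set κ : K := coeff (s + a + j) (D.pE y) /
    (coeff (D.cnt (s + a)) (D.pZ y) * D.u (D.cnt (s + a)) j) with hκ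
  set w : L := κ • D.E j with hw
  have hwm : w ∈ D.Box j (D.cnt (j + a)) := smul_mem _ _ (E_mem _ _)
  have hy : y ∈ D.Box s (D.cnt (s + a)) := mem_box_mono h1 (by omega) le_rfl
  have p0 : ∀ k, (LieAlgebra.ad K L w ^ k) y ∈ D.Box s (D.cnt (s + a)) := fun k => by
    induction k with
    | zero => exact hy
    | succ k ih => rw [pow_succ']; exact h.fin_lie hwm ih (by omega) hs' (by omega)
  have p1 : ∀ k, (LieAlgebra.ad K L w ^ (k + 1)) y ∈ D.Box (s + a + j) (D.cnt (s + a + j + a)) :=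
    fun k => by rw [pow_succ']; exact h.fin_lie hwm (p0 k) (by omega) hs' (by omega)
  have p2 : ∀ k, (LieAlgebra.ad K L w ^ (k + 2)) y ∈
      D.Box (s + a + (j + 1)) (D.cnt (s + a) + 1) := fun k => by
    rw [pow_succ', ← hS1]
    exact mem_box_mono (h.fin_lie (k := s + a + (j + 1)) hwm (p1 k) (by omega) (by omega)
      (by omega)) le_rfl (cnt_mono (by omega))
  have q1 := finExp_sub w y n p2
  have q2 : ⁅D.pE y • D.e, D.E j⁆ ∈ D.Box (s + a + (j + 1)) (D.cnt (s + a) + 1) := by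
    rw [← hS1]
    exact mem_box_mono (h.fin_lie (k := s + a + (j + 1)) (hf _) (E_mem j _) (by omega) (by omega)
      (by omega)) le_rfl (cnt_mono (by omega))
  have q3 : D.pE y • D.e - κ • ⁅D.pZ y • D.h, D.E j⁆ ∈
      D.Box (s + a + (j + 1)) (D.cnt (s + a) + 1) := by
    have e1 : D.pE y • D.e - κ • ⁅D.pZ y • D.h, D.E j⁆ ∈ D.Box (s + a + j) (D.cnt (s + a) + 1) := by
      refine sub_mem (hf _) (smul_mem _ _ ?_)
      rw [← hS1]
      exact mem_box_mono (NE' hN hN' j) (by omega) (cnt_mono (by omega))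
    refine ⟨e1.1, dvd_succ' e1.2.1 ?_, e1.2.2⟩
    have e2 := dg_N hN hN' (d := s + a) (by rw [InS] at hS; omega) j
    rw [dg, pZ_h, add_comm j] at e2
    have e3 : D.dg (D.H (D.cnt (s + a))) (s + a) j = D.u (D.cnt (s + a)) j := by
      rw [u, show D.sg (D.cnt (s + a)) = s + a from hS]
    show coeff (s + a + j) (D.pE (D.pE y • D.e - κ • ⁅D.pZ y • D.h, D.E j⁆)) = 0
    rw [map_sub, pE_e, map_smul, map_sub, map_smul, e2, e3, smul_eq_mul, hκ,
      div_mul_cancel₀ _ (mul_ne_zero hl hu), sub_self]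
  have q4 : finExp K w (n + 2) y - D.pZ y • D.h ∈
      D.Box (s + a + (j + 1)) (D.cnt (s + a) + 1) := by
    have e1 : ⁅w, y⁆ = -(κ • ⁅D.pE y • D.e, D.E j⁆) - κ • ⁅D.pZ y • D.h, D.E j⁆ := by
      conv_lhs => rw [rec_eq h1.1, hw, smul_lie, ← lie_skew, add_lie]
      rw [smul_neg, smul_add]
      abel
    have e2 : finExp K w (n + 2) y - D.pZ y • D.h = (finExp K w (n + 2) y - y - ⁅w, y⁆) +
        (D.pE y • D.e - κ • ⁅D.pZ y • D.h, D.E j⁆) - κ • ⁅D.pE y • D.e, D.E j⁆ := by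
      have e3 := rec_eq h1.1
      rw [e1]
      generalize finExp K w (n + 2) y = θ
      generalize D.pE y • D.e = p at *
      generalize D.pZ y • D.h = q at *
      rw [e3]
      abel
    rw [e2]
    exact sub_mem (add_mem q1 q3) (smul_mem _ _ q2)
  refine ⟨finExp K w (n + 2) y, ?_, fun e => h2 ?_, finExp_bud D.lim w y n c h3⟩
  · rw [← sub_add_cancel (finExp K w (n + 2) y) (D.pZ y • D.h)]
    exact add_mem (mem_box_mono q4 le_rfl (Nat.le_succ _)) (N_box hN hN' _)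
  · have := dvd_sub e q4.2.2
    rwa [map_sub, pZ_h, sub_sub_cancel] at this

end Dat

end

open Dat in
theorem finStmt : FinStmt := by
  intro K L _ _ _ _ _ _ _ D a R b h hA
  obtain ⟨e, he⟩ : ∃ e, e = cod (D.Box 0 0) + 4 + (R + 2 * a + 1) + D.cnt R := ⟨_, rfl⟩
  obtain ⟨i, hi⟩ : ∃ i, i = 2 * e + 2 + (R + 2 * a + 1) := ⟨_, rfl⟩
  obtain ⟨Q, hQ⟩ := hA (i + a)
  obtain ⟨s, hs, hs', hs''⟩ : ∃ s, (s + a) % 2 = 1 ∧ R + 2 * a ≤ s ∧ D.sg Q ≤ s :=
    ⟨2 * (D.sg Q + R + a) + a + 1, by omega, by omega, by omega⟩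
  have hQ' : Q ≤ D.cnt (s + a) := by
    rw [← cnt_sg (D := D) Q]; exact cnt_mono (by omega)
  obtain ⟨n, hn⟩ := opn_box (D := D) (2 * (s + a) + i) (D.cnt (2 * (s + a) + i + a))
  have key : ∀ j, R + 2 * a + 1 ≤ j → ∃ y ∈ D.Box (s + a + j) (D.cnt (s + a)),
      ¬ X ^ (D.cnt (s + a) + 1) ∣ D.pZ y ∧ cod (im K y ⊔ gam K L n) ≤
        cod (D.Box (s + a + (R + 2 * a + 1)) (D.cnt (s + a))) + 3 := by
    intro j hj
    induction j, hj using Nat.le_induction with
    | base =>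
      obtain ⟨y, h1, h2, h3⟩ := D.lim.generic_notMem
        (opn_box (D := D) (s + a + (R + 2 * a + 1)) (D.cnt (s + a))) (ι := Unit)
        (fun _ => D.Box 0 (D.cnt (s + a) + 1)) (fun _ => opn_box _ _) fun _ c => by
          simpa using coeff_eq_zero (c (H_mem _ _)).2.2 (Nat.lt_succ_self _)
      exact ⟨y, h1, fun c => h2 () ⟨h1.1, by simp, c⟩, h3 _ (opn_gam n)⟩
    | succ j hj ih =>
      obtain ⟨y, h1, h2, h3⟩ := ih
      exact h.fin_step hs hs' hj h1 h2 h3
  obtain ⟨y, h1, -, h3⟩ := key i (by omega)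
  have hy : y ∈ D.Box s (D.cnt (s + a)) := mem_box_mono h1 (by omega) le_rfl
  have hl : ∀ v ∈ D.Box (s + a + i) (D.cnt (s + a)),
      ⁅y, v⁆ ∈ D.Box (2 * (s + a) + i) (D.cnt (2 * (s + a) + i + a)) := fun v hv => by
    refine lie_box (opn_box _ _) y (fun t ht => ?_) (fun r hr => ?_) hv
    · exact h.fin_lie hy (E_mem t _) hs' (by omega) (by omega)
    · rw [rec_eq h1.1, add_lie]
      refine add_mem (h.fin_lie (i := s + a + i) (j := s) ⟨e_mem _, by rw [pE_e]; exact h1.2.1,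
        by rw [pZ_e]; exact dvd_zero _⟩ (mem_box_mono (H_mem r s) le_rfl hr) (by omega) hs'
        (by omega)) ?_
      rw [← lie_skew, neg_mem_iff]
      refine D.lie_smul_mem (opn_box _ _) _ _ (fun k hk => N_box (HH' r k) ?_ _) h1.2.2
      have a1 := cnt_le.1 hr
      have a2 := cnt_le.1 hk
      exact (pow_dvd_pow _ (cnt_mono (by omega))).trans (hQ r k (by omega) (by omega))
  have f1 := D.lim.fin_opn (opn_box (D := D) (s + a + i) (D.cnt (s + a)))
  have f2 := D.lim.fin_opn (opn_box (D := D) (2 * (s + a) + i) (D.cnt (2 * (s + a) + i + a)))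
  have f3 := D.lim.fin_opn ((opn_gam n).mono (le_sup_right (a := im K y)))
  have c1 := cod_le_of_lie hl
  have c2 := (cod_anti (sup_le_sup_left hn (im K y))).trans h3
  rw [cod_box (s + a + i), cod_box (2 * (s + a) + i)] at c1
  rw [cod_box (s + a + (R + 2 * a + 1))] at c2
  obtain ⟨j, j1, j2⟩ : ∃ j, s + a ≤ R + 2 * j ∧ R + 2 * j ≤ s + a + 1 :=
    ⟨(s + a + 1 - R) / 2, by omega, by omega⟩
  have c3 := (cnt_mono (D := D) j1).trans_eq (h.fin_cnt j)
  have c4 := (h.fin_cnt (2 * j + e)).symm.trans_le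
    (cnt_mono (D := D) (show R + 2 * (2 * j + e) ≤ 2 * (s + a) + i + a by omega))
  omega

end Pool.Agent.P78.U1
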