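import Mathlib

/-! The numerical part of the case without exact component. -/

namespace Pool.Agent.P78.U1

variable {K : Type} [Field K] [CharZero K]

lemma numB (β U : ℕ → ℕ → K) (S : ℕ → Prop) (R : ℕ)
    (run : ∀ n, S n → S (n + 1) → ¬ S (n + 2)) (supp : ∀ r s, β r s ≠ 0 → S (r + s))
    (anti : ∀ r s, β s r = - β r s)
    (rule : ∀ r s, R ≤ r → R ≤ s → S (r + s + 1) → β r s = β (r + 1) s + β r (s + 1))
    (aff : ∀ n t, U n t = U n 0 + t * (U n 1 - U n 0)) (ne : ∀ n, S n → ∃ t, U n t ≠ 0)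
    (cst : ∀ n, S n → ¬ S (n + 1) → ∀ t, U n t = U n 0)
    (jac : ∀ r s t, R ≤ r → R ≤ s → R ≤ t →
      β r s * U (r + s) t + β s t * U (s + t) r + β t r * U (t + r) s = 0)
    (freq : ∀ N, ∃ r s, N ≤ r ∧ N ≤ s ∧ β r s ≠ 0) :
    ∃ R' b, b ≠ 0 ∧ (∀ n, R' ≤ n → (S n ↔ n % 2 = 1)) ∧
      ∀ r s, R' ≤ r → R' ≤ s → (r + s) % 2 = 1 → β r s * U (r + s) 0 = (-1) ^ r * b := by
  have z : ∀ r s, ¬ S (r + s) → β r s = 0 := fun r s h => by_contra fun e => h (supp r s e)
  have two : ∀ r s, R ≤ r → R ≤ s → β (r + 2) s + 2 * β (r + 1) (s + 1) + β r (s + 2) = 0 := by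
    intro r s hr hs
    by_cases h2 : S (r + s + 2)
    · have e1 := rule (r + 1) s (by omega) hs (by convert h2 using 1; ring)
      have e2 := rule r (s + 1) hr (by omega) h2
      by_cases h1 : S (r + s + 1)
      · have e3 := rule r s hr hs h1
        rw [z r s fun h => run _ h h1 h2] at e3
        linear_combination -e1 - e2 - e3
      · rw [z _ _ (by convert h1 using 2; ring)] at e1
        rw [z r (s + 1) h1] at e2
        linear_combination -e1 - e2
    · rw [z (r + 2) s (by convert h2 using 2; ring), z (r + 1) (s + 1) (by convert h2 using 2; ring),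
        z r (s + 2) h2]
      ring
  obtain ⟨q, hq⟩ : ∃ q : ℕ → K, ∀ r s, R ≤ r → R ≤ s →
      β (r + 1) s + β r (s + 1) = (-1) ^ r * q (r + s + 1) := by
    refine ⟨fun n => (-1) ^ R * (β (R + 1) (n - R - 1) + β R (n - R)), fun r s hr => ?_⟩
    induction r, hr using Nat.le_induction generalizing s with
    | base =>
      intro hs
      simp only [show R + s + 1 - R - 1 = s by omega, show R + s + 1 - R = s + 1 by omega]
      rw [← mul_assoc, ← mul_pow]; simp
    | succ r hr ih =>
      intro hs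
      rw [show r + 1 + s + 1 = r + (s + 1) + 1 by ring, pow_succ]
      linear_combination two r s hr hs - ih (s + 1) (by omega)
  have lin : ∀ k r s, R ≤ r → R ≤ s →
      β (r + k) s = (-1) ^ k * (β r (s + k) - k * (-1) ^ r * q (r + s + k)) := fun k => by
    induction k with
    | zero => simp
    | succ k ih =>
      intro r s hr hs
      have e1 := hq (r + k) s (by omega) hs
      have e2 := ih r (s + 1) hr (by omega)
      rw [show r + k + s + 1 = r + s + (k + 1) by ring, pow_add] at e1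
      rw [show r + (s + 1) + k = r + s + (k + 1) by ring, show s + 1 + k = s + (k + 1) by ring] at e2
      rw [← add_assoc, pow_succ]
      push_cast
      linear_combination e1 - e2
  have ev : ∀ r s, R ≤ r → R ≤ s → (r + s) % 2 = 0 →
      2 * β r s = (-1) ^ r * (s - r) * q (r + s) := by
    have h : ∀ r k, R ≤ r → 2 * β r (r + 2 * k) = (-1) ^ r * (2 * k) * q (r + (r + 2 * k)) := by
      intro r k hr
      have e := lin (2 * k) r r hr hr
      rw [anti, pow_mul, add_assoc r r] at e
      push_cast at e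
      linear_combination -e
    intro r s hr hs hp
    rcases le_total r s with e | e
    · obtain ⟨k, rfl⟩ : ∃ k, s = r + 2 * k := ⟨(s - r) / 2, by omega⟩
      rw [h r k hr]; push_cast; ring
    · obtain ⟨k, rfl⟩ : ∃ k, r = s + 2 * k := ⟨(r - s) / 2, by omega⟩
      rw [anti, mul_neg, h s k hs, add_comm s (s + 2 * k), pow_add, pow_mul]; push_cast; ring
  have qS : ∀ n, 2 * R + 4 ≤ n → n % 2 = 0 → q n ≠ 0 → S (n - 1) ∧ S n := fun n hn hp h => by
    obtain ⟨s, rfl⟩ : ∃ s, n = R + s + 1 := ⟨n - R - 1, by omega⟩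
    have e := ev R (s + 1) le_rfl (by omega) hp
    have h1 : S (R + s + 1) := supp R (s + 1) fun e' => by
      rw [e', mul_zero, eq_comm, mul_eq_zero, mul_eq_zero, sub_eq_zero, Nat.cast_inj] at e
      rcases e with (e | e) | e
      · simp at e
      · omega
      · exact h e
    refine ⟨supp R s fun e' => h ?_, h1⟩
    have := rule R s le_rfl (by omega) h1
    rw [e', hq R s le_rfl (by omega)] at this
    simpa using this.symm
  have q0 : ∀ n, 2 * R + 10 ≤ n → n % 2 = 0 → q n = 0 := fun n hn hp => by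
    by_contra h
    obtain ⟨a1, a2⟩ := qS n (by omega) hp h
    have a3 : ¬ S (n + 1) := by
      have := run (n - 1) a1 (by rwa [show n - 1 + 1 = n by omega])
      rwa [show n - 1 + 2 = n + 1 by omega] at this
    have a4 : q (n + 2) = 0 := by_contra fun e => a3 (qS (n + 2) (by omega) (by omega) e).1
    have a5 : q (n - 2) = 0 := by_contra fun e => run (n - 2) (qS (n - 2) (by omega) (by omega) e).2
      (by rwa [show n - 2 + 1 = n - 1 by omega]) (by rwa [show n - 2 + 2 = n by omega])
    obtain ⟨m, rfl⟩ : ∃ m, n = 2 * m + 4 := ⟨n / 2 - 2, by omega⟩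
    have e := jac m (m + 2) (m + 4) (by omega) (by omega) (by omega)
    have b1 := ev m (m + 2) (by omega) (by omega) (by omega)
    have b2 := ev (m + 2) (m + 4) (by omega) (by omega) (by omega)
    have b3 := ev (m + 4) m (by omega) (by omega) (by omega)
    rw [show m + (m + 2) = 2 * m + 4 - 2 by omega, a5] at b1
    rw [show m + 2 + (m + 4) = 2 * m + 4 + 2 by omega, a4] at b2
    rw [show m + 4 + m = 2 * m + 4 by omega] at b3 e
    obtain ⟨t, ht⟩ := ne _ a2
    rw [cst _ a2 a3] at ht
    rw [cst _ a2 a3 (m + 2)] at e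
    have : (-1) ^ (m + 4) * 4 * q (2 * m + 4) * U (2 * m + 4) 0 = 0 := by
      push_cast at b3
      linear_combination (-2) * e + U (m + (m + 2)) (m + 4) * b1 + U (m + 2 + (m + 4)) m * b2 +
        U (2 * m + 4) 0 * b3
    simp [h, ht] at this
  have ev0 : ∀ r s, R + 5 ≤ r → R + 5 ≤ s → (r + s) % 2 = 0 → β r s = 0 := fun r s hr hs hp => by
    have := ev r s (by omega) (by omega) hp
    rw [q0 _ (by omega) hp, mul_zero] at this
    simpa using this
  obtain ⟨p, hp⟩ : ∃ p : ℕ → K, ∀ r s, R ≤ r → R ≤ s → (r + s) % 2 = 1 →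
      β r s = (-1) ^ r * p (r + s) := by
    have q1 : ∀ n, 2 * R ≤ n → n % 2 = 1 → q n = 0 := fun n hn hp => by
      obtain ⟨m, rfl⟩ : ∃ m, n = m + m + 1 := ⟨n / 2, by omega⟩
      have := hq m m (by omega) (by omega)
      rw [anti] at this
      simpa using this.symm
    refine ⟨fun n => (-1) ^ R * β R (n - R), fun r s hr hs hp => ?_⟩
    obtain ⟨k, rfl⟩ := Nat.exists_eq_add_of_le hr
    simp only [show R + k + s - R = s + k by omega]
    rw [lin k R s le_rfl hs, q1 _ (by omega) (by omega), pow_add]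
    have : ((-1 : K) ^ R) ^ 2 = 1 := by rw [← pow_mul, mul_comm, pow_mul]; simp
    linear_combination (-((-1) ^ k * β R (s + k))) * this
  have od : ∀ n m t, n % 2 = 1 → m % 2 = 1 → R + 5 ≤ t → t + (R + 5) ≤ n → t + (R + 5) ≤ m →
      p n * U n (m - t) = p m * U m (n - t) := fun n m t hn hm ht h1 h2 => by
    obtain ⟨s, rfl⟩ : ∃ s, n = s + t := ⟨n - t, by omega⟩
    obtain ⟨r, rfl⟩ : ∃ r, m = t + r := ⟨m - t, by omega⟩
    have e := jac r s t (by omega) (by omega) (by omega)
    rw [ev0 r s (by omega) (by omega) (by omega), hp s t (by omega) (by omega) hn,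
      hp t r (by omega) (by omega) hm] at e
    have h3 : (-1 : K) ^ (s + t) = -1 := Odd.neg_one_pow (Nat.odd_iff.2 hn)
    have h4 : ((-1 : K) ^ s) ^ 2 = 1 := by rw [← pow_mul, mul_comm, pow_mul]; simp
    rw [pow_add] at h3
    rw [Nat.add_sub_cancel_left, Nat.add_sub_cancel]
    linear_combination (-1) ^ s * e - p (s + t) * U (s + t) r * h4 - p (t + r) * U (t + r) s * h3
  obtain ⟨r0, s0, c1, c2, c3⟩ := freq (R + 6)
  have c4 : (r0 + s0) % 2 = 1 := by
    by_contra h; exact c3 (ev0 _ _ (by omega) (by omega) (by omega))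
  have c5 : p (r0 + s0) ≠ 0 := fun e => c3 (by rw [hp _ _ (by omega) (by omega) c4, e, mul_zero])
  have c6 : ∀ m, 2 * R + 12 ≤ m → m % 2 = 1 → p m ≠ 0 := fun m hm h e => by
    have e1 := od _ m (R + 5) c4 h le_rfl (by omega) (by omega)
    have e2 := od _ m (R + 6) c4 h (by omega) (by omega) (by omega)
    rw [e, zero_mul, mul_eq_zero, or_iff_right c5, aff] at e1 e2
    obtain ⟨t, ht⟩ := ne _ (supp _ _ c3)
    rw [show m - (R + 5) = m - (R + 6) + 1 by omega] at e1
    push_cast at e1
    refine ht ?_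
    rw [aff]
    linear_combination e2 + (t - (m - (R + 6) : ℕ)) * (e1 - e2)
  have c7 : ∀ m, 2 * R + 12 ≤ m → m % 2 = 1 → S m := fun m hm h => by
    have := supp R (m - R) (by
      rw [hp _ _ le_rfl (by omega) (by omega), show R + (m - R) = m by omega]
      exact mul_ne_zero (by simp) (c6 m hm h))
    rwa [show R + (m - R) = m by omega] at this
  have c8 : ∀ m, 2 * R + 12 ≤ m → m % 2 = 1 → ¬ S (m + 1) := fun m hm h e =>
    run m (c7 m hm h) e (c7 _ (by omega) (by omega))
  refine ⟨2 * R + 13, p (2 * R + 13) * U (2 * R + 13) 0, mul_ne_zero (c6 _ (by omega) (by omega)) ?_,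
    fun n hn => ⟨fun h => ?_, c7 n (by omega)⟩, fun r s hr hs h => ?_⟩
  · obtain ⟨t, ht⟩ := ne _ (c7 (2 * R + 13) (by omega) (by omega))
    rwa [cst _ (c7 _ (by omega) (by omega)) (c8 _ (by omega) (by omega))] at ht
  · by_contra h'
    exact c8 (n - 1) (by omega) (by omega) (by rwa [show n - 1 + 1 = n by omega])
  · have e := od (r + s) (2 * R + 13) (R + 5) h (by omega) le_rfl (by omega) (by omega)
    rw [cst _ (c7 _ (by omega) h) (c8 _ (by omega) h),
      cst _ (c7 (2 * R + 13) (by omega) (by omega)) (c8 _ (by omega) (by omega)) (_ - _)] at e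
    rw [hp r s (by omega) (by omega) h, mul_assoc, e]

end Pool.Agent.P78.U1
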