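import Mathlib

/-! Arrays with the Pascal rule that are invariant under many shifts. -/

namespace Pool.Agent.P78.U1

open Polynomial

lemma unit_root {F : Type} [Field F] [CharZero F] {z : F} {N : ℕ} (hN : N ≠ 0) (h1 : z ^ N = 1)
    (h2 : (1 - z) ^ N = 1) : z ^ 2 - z + 1 = 0 := by
  have hi : IsIntegral ℚ z := IsIntegral.of_pow (Nat.pos_of_ne_zero hN) (h1 ▸ isIntegral_one)
  have := IntermediateField.adjoin.finiteDimensional hi
  let φ : IntermediateField.adjoin ℚ {z} →ₐ[ℚ] ℂ := IsAlgClosed.lift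
  let y : IntermediateField.adjoin ℚ {z} := IntermediateField.AdjoinSimple.gen ℚ z
  have a1 : y ^ N = 1 := Subtype.ext h1
  have a2 : (1 - y) ^ N = 1 := Subtype.ext h2
  have b1 := Complex.norm_eq_one_of_pow_eq_one (ζ := φ y) (by rw [← map_pow, a1, map_one]) hN
  have b2 := Complex.norm_eq_one_of_pow_eq_one (ζ := 1 - φ y)
    (by rw [← map_one φ, ← map_sub, ← map_pow, a2]) hN
  have c1 := Complex.sq_norm (φ y)
  have c2 := Complex.sq_norm (1 - φ y)
  rw [b1, Complex.normSq_apply] at c1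
  rw [b2, Complex.normSq_apply] at c2
  simp only [Complex.sub_re, Complex.one_re, Complex.sub_im, Complex.one_im] at c2
  have c3 : (φ y).re = 1 / 2 := by linarith
  have c4 : φ (y ^ 2 - y + 1) = 0 := by
    rw [map_add, map_sub, map_pow, map_one]
    apply Complex.ext
    · simp [sq]; nlinarith
    · simp [sq, c3]; ring
  exact congrArg Subtype.val ((map_eq_zero φ).1 c4)

lemma root_cases {F : Type} [Field F] [CharZero F] {z : F} {δ : ℕ} (hδ : δ ≠ 0) (h0 : z ≠ 0)
    (h1 : 1 - z ≠ 0) (h : ∀ N, ∃ σ, N ≤ σ ∧ z ^ σ + (1 - z) ^ σ = 1 ∧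
      z ^ (σ + δ) + (1 - z) ^ (σ + δ) = 1) : z ^ 2 - z + 1 = 0 := by
  obtain ⟨σ, -, a1, a2⟩ := h 0
  obtain ⟨τ, hτ, b1, b2⟩ := h (σ + 1)
  rw [pow_add, pow_add] at a2 b2
  by_cases e : z ^ δ = (1 - z) ^ δ
  · have : (1 - z) ^ δ = 1 := by rw [e] at a2; linear_combination a2 - (1 - z) ^ δ * a1
    exact unit_root hδ (e.trans this) this
  · obtain ⟨k, rfl⟩ := Nat.exists_eq_add_of_lt hτ
    have e1 : z ^ (σ + k + 1) = z ^ σ := mul_right_cancel₀ (sub_ne_zero.2 e) (by
      linear_combination b2 - a2 - (1 - z) ^ δ * (b1 - a1))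
    have e2 : (1 - z) ^ (σ + k + 1) = (1 - z) ^ σ := by linear_combination b1 - a1 - e1
    rw [add_assoc, pow_add] at e1 e2
    exact unit_root k.succ_ne_zero (mul_left_cancel₀ (pow_ne_zero σ h0) (by rw [e1, mul_one]))
      (mul_left_cancel₀ (pow_ne_zero σ h1) (by rw [e2, mul_one]))

lemma pow_six {F : Type} [Field F] {z : F} (h : z ^ 2 - z + 1 = 0) (σ : ℕ) :
    z ^ σ = z ^ (σ % 6) := by
  have : z ^ 6 = 1 := by linear_combination (z ^ 4 + z ^ 3 - z - 1) * h
  conv_lhs => rw [← Nat.div_add_mod σ 6, pow_add, pow_mul, this, one_pow, one_mul]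

lemma mod_six {F : Type} [Field F] [CharZero F] {z : F} (h : z ^ 2 - z + 1 = 0) {σ : ℕ}
    (hσ : z ^ σ + (1 - z) ^ σ = 1) : σ % 6 = 1 ∨ σ % 6 = 5 := by
  rw [pow_six h, pow_six (z := 1 - z) (by linear_combination h)] at hσ
  have h6 := Nat.mod_lt σ (show 0 < 6 by norm_num)
  generalize σ % 6 = r at *
  interval_cases r
  · exact absurd (by linear_combination hσ) (one_ne_zero (α := F))
  · simp
  · exact absurd (by linear_combination 2 * h - hσ) (two_ne_zero (α := F))
  · exact absurd (by linear_combination 3 * h - hσ) (three_ne_zero (α := F))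
  · exact absurd (by linear_combination (2 * z ^ 2 - 2 * z + 2) * h - hσ) (two_ne_zero (α := F))
  · simp

lemma numC1_aux {F : Type} [Field F] [CharZero F] [IsAlgClosed F] (c : ℕ → ℕ → F) (R : ℕ)
    (pas : ∀ r s, R ≤ r → R ≤ s → c r s = c (r + 1) s + c r (s + 1)) (S : Set ℕ)
    (hS : ∀ σ ∈ S, ∀ r s, R ≤ r → R ≤ s → c r s = c (r + σ) s + c r (s + σ)) {δ : ℕ} (hδ : δ ≠ 0)
    (hr : ∀ N, ∃ σ, N ≤ σ ∧ σ ∈ S ∧ σ + δ ∈ S) (hne : ∀ N, ∃ r s, N ≤ r ∧ N ≤ s ∧ c r s ≠ 0) :
    (∀ σ ∈ S, σ % 6 = 1 ∨ σ % 6 = 5) ∧ ∃ R', ∀ r s, R' ≤ r → R' ≤ s →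
      c r s - 2 * c r (s + 1) + 3 * c r (s + 2) - 2 * c r (s + 3) + c r (s + 4) = 0 := by
  classical
  let μ : F[X] →ₗ[F] F := (basisMonomials F).constr F fun t => c R (R + t)
  have h1 : ∀ i t, μ ((1 - X) ^ i * X ^ t) = c (R + i) (R + t) := fun i => by
    induction i with
    | zero => intro t; simpa [μ, ← monomial_one_right_eq_X_pow] using
        (basisMonomials F).constr_basis F (fun t => c R (R + t)) t
    | succ i ih =>
      intro t
      rw [show ((1 - X) ^ (i + 1) * X ^ t : F[X]) = (1 - X) ^ i * X ^ t - (1 - X) ^ i * X ^ (t + 1)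
        by ring, map_sub, ih, ih, pas (R + i) (R + t) (by omega) (by omega)]
      ring_nf
  let I : Ideal F[X] :=
    { carrier := {f | ∀ g, μ (f * g) = 0}
      add_mem' := fun a b g => by rw [add_mul, map_add, a g, b g, add_zero]
      zero_mem' := fun g => by simp
      smul_mem' := fun q f a g => by rw [smul_eq_mul, mul_comm q, mul_assoc]; exact a _ }
  obtain ⟨g, hg⟩ := (IsPrincipalIdealRing.principal I).principal
  have hI : ∀ f, g ∣ f ↔ ∀ q, μ (f * q) = 0 := fun f => by
    rw [← Ideal.mem_span_singleton, ← Ideal.submodule_span_eq, ← hg]; rfl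
  have hP : ∀ σ ∈ S, g ∣ X ^ σ + (1 - X) ^ σ - 1 := fun σ hσ => (hI _).2 fun q => by
    induction q using Polynomial.induction_on' with
    | add p q hp hq => rw [mul_add, map_add, hp, hq, add_zero]
    | monomial t a =>
      have e1 := h1 0 (t + σ)
      have e2 := h1 0 t
      rw [pow_zero, one_mul] at e1 e2
      rw [show (X ^ σ + (1 - X) ^ σ - 1 : F[X]) * monomial t a =
        a • (X ^ (t + σ) + (1 - X) ^ σ * X ^ t - X ^ t) by
          rw [← C_mul_X_pow_eq_monomial, smul_eq_C_mul]; ring,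
        map_smul, map_sub, map_add, e1, e2, h1, add_zero, hS σ hσ R (R + t) le_rfl (by omega),
        add_assoc R t σ, add_comm (c (R + σ) _), sub_self, smul_zero]
  have hev : ∀ r, g.IsRoot r → ∀ σ ∈ S, r ^ σ + (1 - r) ^ σ = 1 := fun r h σ hσ => by
    simpa [sub_eq_zero] using h.dvd (hP σ hσ)
  obtain ⟨σ₀, a0, a1, -⟩ := hr 2
  obtain ⟨k, rfl⟩ := Nat.exists_eq_add_of_le' a0
  have hD : ∀ r, eval r (derivative (derivative (X ^ (k + 2) + (1 - X) ^ (k + 2) - 1 : F[X]))) =
      (k + 2) * (k + 1) * (r ^ k + (1 - r) ^ k) := fun r => by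
    simp [derivative_pow]; ring
  have hk : ((k : F) + 2) * (k + 1) ≠ 0 := by
    exact_mod_cast mul_ne_zero (k + 1).succ_ne_zero k.succ_ne_zero
  have hP0 : (X ^ (k + 2) + (1 - X) ^ (k + 2) - 1 : F[X]) ≠ 0 := fun e => by
    have := congrArg (fun p => eval 0 (derivative p)) e
    simp [derivative_pow] at this
    exact left_ne_zero_of_mul hk (by linear_combination -this)
  have hg0 : g ≠ 0 := ne_zero_of_dvd_ne_zero hP0 (hP _ a1)
  have hT : ∀ j, (∀ r, g.IsRoot r → r ≠ 0 → r ≠ 1 →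
      (X - C r) ^ rootMultiplicity r g ∣ (X ^ 2 - X + 1) ^ j) →
      ∀ i t, μ ((X ^ 2 - X + 1) ^ j * ((1 - X) ^ (g.natDegree + i) * X ^ (g.natDegree + t))) = 0 := by
    intro j hj i t
    have hQ : (X ^ 2 - X + 1 : F[X]) ≠ 0 := fun e => by simpa using congrArg (eval 0) e
    have h0 : ((X - C 0) ^ g.natDegree * (X - C 1) ^ g.natDegree * (X ^ 2 - X + 1) ^ j : F[X]) ≠ 0 :=
      mul_ne_zero (mul_ne_zero (pow_ne_zero _ (X_sub_C_ne_zero 0))
        (pow_ne_zero _ (X_sub_C_ne_zero 1))) (pow_ne_zero _ hQ)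
    have h2 := (IsAlgClosed.dvd_iff_roots_le_roots hg0 h0).2 (Multiset.le_iff_count.2 fun r => by
      have hm : rootMultiplicity r g ≤ g.natDegree := by
        rw [← count_roots]; exact (Multiset.count_le_card _ _).trans (card_roots' g)
      rw [count_roots, count_roots, le_rootMultiplicity_iff h0]
      by_cases e0 : r = 0
      · subst e0; exact ((pow_dvd_pow _ hm).mul_right _).mul_right _
      by_cases e1 : r = 1
      · subst e1; exact ((pow_dvd_pow _ hm).mul_left _).mul_right _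
      by_cases e2 : g.IsRoot r
      · exact (hj r e2 e0 e1).mul_left _
      · simp [rootMultiplicity_eq_zero e2])
    have h3 := (hI _).1 h2 ((-1) ^ g.natDegree * (1 - X) ^ i * X ^ t)
    rw [← h3, C_0, C_1, sub_zero, pow_add (1 - X), show ((1 - X) ^ g.natDegree : F[X]) =
      (-1) ^ g.natDegree * (X - 1) ^ g.natDegree by rw [← mul_pow]; congr 1; ring]
    congr 1; ring
  have hroot : ∀ r, g.IsRoot r → r ≠ 0 → r ≠ 1 → r ^ 2 - r + 1 = 0 := fun r h e0 e1 =>
    root_cases hδ e0 (sub_ne_zero.2 e1.symm) fun N =>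
      (hr N).imp fun σ ⟨b1, b2, b3⟩ => ⟨b1, hev r h _ b2, hev r h _ b3⟩
  refine ⟨fun σ hσ => ?_, R + g.natDegree, fun r s hr hs => ?_⟩
  · by_contra hn
    obtain ⟨r, s, b1, b2, b3⟩ := hne (R + g.natDegree)
    obtain ⟨i, rfl⟩ := Nat.exists_eq_add_of_le b1
    obtain ⟨t, rfl⟩ := Nat.exists_eq_add_of_le b2
    have := hT 0 (fun r h e0 e1 => (hn (mod_six (hroot r h e0 e1) (hev r h σ hσ))).elim) i t
    rw [pow_zero, one_mul, h1, ← add_assoc, ← add_assoc] at this
    exact b3 this
  · obtain ⟨i, rfl⟩ := Nat.exists_eq_add_of_le hr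
    obtain ⟨t, rfl⟩ := Nat.exists_eq_add_of_le hs
    have := hT 2 (fun r h e0 e1 => ?_) i t
    · rw [show ((X ^ 2 - X + 1) ^ 2 * ((1 - X) ^ (g.natDegree + i) * X ^ (g.natDegree + t)) : F[X])
        = (1 - X) ^ (g.natDegree + i) * X ^ (g.natDegree + t)
          - (2 : F) • ((1 - X) ^ (g.natDegree + i) * X ^ (g.natDegree + t + 1))
          + (3 : F) • ((1 - X) ^ (g.natDegree + i) * X ^ (g.natDegree + t + 2))
          - (2 : F) • ((1 - X) ^ (g.natDegree + i) * X ^ (g.natDegree + t + 3))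
          + (1 - X) ^ (g.natDegree + i) * X ^ (g.natDegree + t + 4) by
          simp only [smul_eq_C_mul, map_ofNat]; ring] at this
      simpa only [map_add, map_sub, map_smul, h1, smul_eq_mul, add_assoc] using this
    · have hq := hroot r h e0 e1
      refine (pow_dvd_pow _ ?_).trans (pow_dvd_pow_of_dvd (dvd_iff_isRoot.2 (by simpa using hq)) 2)
      by_contra! hlt
      have h5 := isRoot_iterate_derivative_of_lt_rootMultiplicity
        (hlt.trans_le (rootMultiplicity_le_rootMultiplicity_of_dvd hP0 (hP _ a1) r))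
      have h6 : (k + 2) * (k + 1) * (r ^ k + (1 - r) ^ k) = 0 := (hD r).symm.trans h5
      have h7 := (mul_eq_zero.1 h6).resolve_left hk
      have h8 := mod_six hq (hev r h _ a1)
      rw [pow_six hq, pow_six (z := 1 - r) (by linear_combination hq)] at h7
      rcases h8 with h8 | h8
      · rw [show k % 6 = 5 by omega] at h7
        exact one_ne_zero (α := F) (by linear_combination h7 - (5 * r ^ 2 - 5 * r) * hq)
      · rw [show k % 6 = 3 by omega] at h7
        exact two_ne_zero (α := F) (by linear_combination 3 * hq - h7)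

variable {K : Type} [Field K] [CharZero K]

lemma numC1 (c : ℕ → ℕ → K) (R : ℕ)
    (pas : ∀ r s, R ≤ r → R ≤ s → c r s = c (r + 1) s + c r (s + 1)) (S : Set ℕ)
    (hS : ∀ σ ∈ S, ∀ r s, R ≤ r → R ≤ s → c r s = c (r + σ) s + c r (s + σ)) {δ : ℕ} (hδ : δ ≠ 0)
    (hr : ∀ N, ∃ σ, N ≤ σ ∧ σ ∈ S ∧ σ + δ ∈ S) (hne : ∀ N, ∃ r s, N ≤ r ∧ N ≤ s ∧ c r s ≠ 0) :
    (∀ σ ∈ S, σ % 6 = 1 ∨ σ % 6 = 5) ∧ ∃ R', ∀ r s, R' ≤ r → R' ≤ s →
      c r s - 2 * c r (s + 1) + 3 * c r (s + 2) - 2 * c r (s + 3) + c r (s + 4) = 0 := by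
  let φ := algebraMap K (AlgebraicClosure K)
  obtain ⟨h1, R', h2⟩ := numC1_aux (fun r s => φ (c r s)) R
    (fun r s a b => by rw [pas r s a b, map_add]) S
    (fun σ h r s a b => by rw [hS σ h r s a b, map_add]) hδ hr fun N =>
      (hne N).imp fun r => Exists.imp fun s ⟨a, b, e⟩ => ⟨a, b, (map_ne_zero φ).2 e⟩
  refine ⟨h1, R', fun r s a b => φ.injective ?_⟩
  simpa only [map_add, map_sub, map_mul, map_ofNat, map_zero] using h2 r s a b

/-- The sequence `0, 1, 1, 0, -1, -1` of period six. -/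
def chi (K : Type) [Field K] (k : ℕ) : K :=
  if k % 6 = 1 ∨ k % 6 = 2 then 1 else if k % 6 = 4 ∨ k % 6 = 5 then -1 else 0

omit [CharZero K] in
lemma chi_congr {k l : ℕ} (h : k % 6 = l % 6) : chi K k = chi K l := by rw [chi, chi, h]

lemma numC3 (c : ℕ → ℕ → K) (R : ℕ)
    (pas : ∀ r s, R ≤ r → R ≤ s → c r s = c (r + 1) s + c r (s + 1))
    (anti : ∀ r s, R ≤ r → R ≤ s → c s r = - c r s)
    (hq : ∀ r s, R ≤ r → R ≤ s → c r s - c r (s + 1) + c r (s + 2) = 0) :
    ∃ p, ∀ r s, R ≤ r → R ≤ s → c r s = p * chi K (s + 5 * r) := by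
  have h1 : ∀ r, R ≤ r → c r (r + 1) = c R (R + 1) := fun r hr => by
    induction r, hr using Nat.le_induction with
    | base => rfl
    | succ r hr ih =>
      linear_combination ih - pas r (r + 1 + 1) hr (by omega) - hq r (r + 1) hr (by omega)
  have h2 : ∀ k r, R ≤ r → c r (r + k) = c R (R + 1) * chi K k := fun k r hr => by
    induction k using Nat.twoStepInduction with
    | zero =>
      have := anti r r hr hr
      simpa [chi] using (mul_eq_zero.1 (by linear_combination this : 2 * c r r = 0)).resolve_left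
        two_ne_zero
    | one => simpa [chi] using h1 r hr
    | more k a b =>
      have e : chi K (k + 2) = chi K (k + 1) - chi K k := by
        have h6 := Nat.mod_lt k (show 0 < 6 by norm_num)
        rw [chi_congr (l := k % 6 + 2) (by omega), chi_congr (k := k + 1) (l := k % 6 + 1) (by omega),
          chi_congr (k := k) (l := k % 6) (by omega)]
        generalize k % 6 = j at *
        interval_cases j <;> simp [chi]
      rw [e]
      linear_combination hq r (r + k) hr (by omega) + b - a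
  refine ⟨c R (R + 1), fun r s hr hs => ?_⟩
  rcases le_total r s with h | h
  · obtain ⟨k, rfl⟩ := Nat.exists_eq_add_of_le h
    rw [h2 k r hr, chi_congr (l := r + k + 5 * r) (by omega)]
  · obtain ⟨k, rfl⟩ := Nat.exists_eq_add_of_le h
    have h6 := Nat.mod_lt k (show 0 < 6 by norm_num)
    rw [anti s _ hs hr, h2 k s hs, chi_congr (k := k) (l := k % 6) (by omega),
      chi_congr (k := s + _) (l := 5 * (k % 6)) (by omega)]
    generalize k % 6 = j at *
    interval_cases j <;> simp [chi]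

lemma numC2 (c : ℕ → ℕ → K) (R : ℕ)
    (pas : ∀ r s, R ≤ r → R ≤ s → c r s = c (r + 1) s + c r (s + 1))
    (anti : ∀ r s, R ≤ r → R ≤ s → c s r = - c r s)
    (hq : ∀ r s, R ≤ r → R ≤ s →
      c r s - 2 * c r (s + 1) + 3 * c r (s + 2) - 2 * c r (s + 3) + c r (s + 4) = 0)
    (jac : ∀ r s t, R ≤ r → R ≤ s → R ≤ t → r % 6 = 1 → s % 6 = 1 → t % 6 = 3 →
      c r s * c (r + s) t + c s t * c (s + t) r + c t r * c (t + r) s = 0) :
    ∃ p, ∀ r s, R ≤ r → R ≤ s → c r s = p * chi K (s + 5 * r) := by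
  obtain ⟨q, h⟩ := numC3 (fun r s => c r s - c r (s + 1) + c r (s + 2)) R
    (fun r s a b => by
      linear_combination pas r s a b - pas r (s + 1) a (by omega) + pas r (s + 2) a (by omega))
    (fun r s a b => by
      linear_combination anti r s a b - anti (r + 1) s (by omega) b + anti (r + 2) s (by omega) b
        + pas (r + 1) s (by omega) b - pas r (s + 1) a (by omega))
    (fun r s a b => by linear_combination hq r s a b)
  have h2 : ∀ r s, R ≤ r → R ≤ s → c r (s + 6) =
      c r s - 2 * q * (chi K (s + 5 * r) + chi K (s + 1 + 5 * r)) := fun r s a b => by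
    linear_combination hq r s a b + 2 * hq r (s + 1) a (by omega) + hq r (s + 2) a (by omega)
      - 2 * h r s a b - 2 * h r (s + 1) a (by omega)
  have h1 : ∀ r s, R ≤ r → R ≤ s → c (r + 6) s =
      c r s + 2 * q * (chi K (r + 5 * s) + chi K (r + 1 + 5 * s)) := fun r s a b => by
    linear_combination anti s (r + 6) b (by omega) - h2 s r b a - anti s r b a
  have hq0 : q = 0 := by
    have j0 := jac (6 * R + 1) (6 * R + 1) (6 * R + 3) (by omega) (by omega) (by omega) (by omega)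
      (by omega) (by omega)
    have j1 := jac (6 * R + 1 + 6) (6 * R + 1) (6 * R + 3) (by omega) (by omega) (by omega)
      (by omega) (by omega) (by omega)
    have j2 := jac (6 * R + 1 + 6 + 6) (6 * R + 1) (6 * R + 3) (by omega) (by omega) (by omega)
      (by omega) (by omega) (by omega)
    simp only [add_right_comm _ 6 (6 * R + 1), ← add_assoc (6 * R + 3) _ 6] at j1 j2
    repeat rw [h1 _ _ (by omega) (by omega)] at j1
    repeat rw [h2 _ _ (by omega) (by omega)] at j1
    repeat rw [h1 _ _ (by omega) (by omega)] at j2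
    repeat rw [h2 _ _ (by omega) (by omega)] at j2
    simp only [chi] at j1 j2
    simp (disch := omega) only [if_pos, if_neg] at j1 j2
    have : (24 : K) * q ^ 2 = 0 := by linear_combination 2 * j1 - j0 - j2
    simpa using this
  exact numC3 c R pas anti fun r s a b => by simpa [hq0] using h r s a b

end Pool.Agent.P78.U1
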