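import Pool.Agent.Lib.MP_78c6b1_al.U1.Lead1
import Pool.Agent.Lib.MP_78c6b1_al.U1.NumB
import Pool.Agent.Lib.MP_78c6b1_al.U1.NumC

/-! The two possible leading structures. -/

namespace Pool.Agent.P78.U1

open PowerSeries

variable {K L : Type} [Field K] [LieRing L] [LieAlgebra K L] [Module K⟦X⟧ L]
  [IsScalarTower K K⟦X⟧ L] [CharZero K]

namespace Dat

variable {D : Dat K L}

lemma run3 {w : ℕ} (h0 : D.InS w) (h1 : D.InS (w + 1)) : ¬ D.InS (w + 2) := fun h2 => by
  have := run_le (D := D) (D.cnt w)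
  rw [InS, h1.succ, h0.succ] at h2
  rw [h2, h0] at this
  omega

lemma InS.const {w : ℕ} (h0 : D.InS w) (h1 : ¬ D.InS (w + 1)) (t : ℕ) :
    D.u (D.cnt w) t = D.u (D.cnt w) 0 := by
  have := lt_of_le_of_ne (le_sg_cnt (w + 1)) (Ne.symm h1)
  rw [h0.succ] at this
  exact u_const (by rw [h0]; omega) t

lemma InS.ne {w : ℕ} (h0 : D.InS w) (h1 : ¬ D.InS (w + 1)) : D.u (D.cnt w) 0 ≠ 0 := by
  obtain ⟨t, ht⟩ := u_ne (D := D) (D.cnt w)
  rwa [h0.const h1] at ht

omit [CharZero K] in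
lemma InS.next {w : ℕ} (h0 : D.InS w) (h1 : D.InS (w + 1)) (t : ℕ) :
    D.u (D.cnt (w + 1)) t = D.u (D.cnt w) t - D.u (D.cnt w) (t + 1) := by
  rw [u, u, u, h0, h1, h0.succ, ← X_H, dg_X]

omit [CharZero K] in
lemma sym_const {v : L} (hv : v ∈ D.N) {w : ℕ} (h0 : ∀ d < w, ∀ t, D.dg v d t = 0) {κ : K}
    (hκ : κ ≠ 0) (h1 : ∀ t, D.dg v w t = κ) : D.InS w ∧ ¬ D.InS (w + 1) := by
  have h2 := dg_N hv (wt_of_dg hv h0) ((le_sg_cnt w).trans_lt (sg_strict (Nat.lt_succ_self _)))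
  have h3 : D.InS w := by
    by_contra e
    exact hκ (by rw [← h1 0, h2, dg_lt (lt_of_le_of_ne (le_sg_cnt w) (Ne.symm e)), mul_zero])
  refine ⟨h3, fun e => ?_⟩
  obtain ⟨t, ht⟩ := u_ne (D := D) (D.cnt (w + 1))
  have h4 : coeff (D.cnt w) (D.pZ v) ≠ 0 := fun e => hκ (by rw [← h1 0, h2, e, zero_mul])
  refine mul_ne_zero h4 ht ?_
  rw [h3.next e, u, u, h3, mul_sub, ← h2, ← h2, h1, h1, sub_self]

omit [CharZero K] in
lemma comp_lt {v w d : ℕ} (hd : d < v + w) (t : ℕ) :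
    D.dg ⁅D.H (D.cnt v), D.H (D.cnt w)⁆ d t = 0 :=
  dg_N_lt (HH' _ _) (lie_N_wt (s := v) (t := w) (H_N _) (H_N _) (by simp) (by simp))
    (hd.trans_le (le_sg_cnt _)) t

omit [CharZero K] in
lemma comp0 {v w : ℕ} (hv : D.InS v) (hw : D.InS w) (t : ℕ) :
    D.dg ⁅D.H (D.cnt v), D.H (D.cnt w)⁆ (v + w) t = D.u (D.cnt w) t * D.u (D.cnt v) (t + w) -
      D.u (D.cnt v) t * D.u (D.cnt w) (t + v) := by
  have := comp (H_N (D := D) (D.cnt v)) (H_N (D.cnt w)) (fun _ => dg_lt) (fun _ => dg_lt) 0 t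
  rw [u, u, u, u]
  rw [hv, hw] at this ⊢
  simpa using this

lemma recur : ∃ δ, δ ≠ 0 ∧ ∀ N, ∃ σ, N ≤ σ ∧ (D.InS σ ∧ ¬ D.InS (σ + 1)) ∧
    D.InS (σ + δ) ∧ ¬ D.InS (σ + δ + 1) := by
  obtain ⟨G, hG⟩ := gap_bdd (D := D)
  have h1 : ∀ n, ∃ σ, D.sg n ≤ σ ∧ σ ≤ D.sg n + 1 ∧ D.InS σ ∧ ¬ D.InS (σ + 1) := fun n => by
    by_cases e : D.InS (D.sg n + 1)
    · exact ⟨_, by omega, le_rfl, e, run3 (inS_sg n) e⟩
    · exact ⟨_, le_rfl, by omega, inS_sg n, e⟩
  by_contra! h
  choose! N hN using h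
  obtain ⟨n, hn⟩ : ∃ n, ∀ δ ∈ Finset.range (2 * G + 2), N δ ≤ n := ⟨_, fun δ => Finset.le_sup⟩
  obtain ⟨σ, a1, a2, a3⟩ := h1 n
  obtain ⟨τ, b1, b2, b3⟩ := h1 (n + 2)
  have c1 := run_le (D := D) n
  have c2 := hG n
  have c3 : D.sg (n + 2) ≤ _ := hG (n + 1)
  have c4 : n ≤ D.sg n := sg_strict.le_apply
  obtain ⟨δ, rfl⟩ : ∃ δ, τ = σ + δ := ⟨τ - σ, by omega⟩
  exact b3.2 (hN δ (by omega) σ ((hn δ (Finset.mem_range.2 (by omega))).trans (by omega)) a3 b3.1)

lemma res_six (h : ∀ σ, D.InS σ → ¬ D.InS (σ + 1) → σ % 6 = 1 ∨ σ % 6 = 5) {w : ℕ}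
    (hw : D.InS w) : w % 6 = 0 ∨ w % 6 = 1 ∨ w % 6 = 5 := by
  by_cases h1 : D.InS (w + 1)
  · have h2 := run3 hw h1
    have h3 := sym_const (HH' (D.cnt w) (D.cnt (w + 1))) (w := w + (w + 1)) (fun _ => comp_lt)
      (κ := -((w + 1 : ℕ) * D.u (D.cnt (w + 1)) 0 ^ 2))
      (neg_ne_zero.2 (mul_ne_zero (Nat.cast_ne_zero.2 (by omega)) (pow_ne_zero _ (h1.ne h2))))
      fun t => by
        rw [comp0 hw h1, h1.const h2, h1.const h2 (t + w), u_aff _ (t + _), u_aff _ t,
          hw.next h1 0]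
        push_cast; ring
    have := h _ h1 h2
    have := h _ h3.1 h3.2
    omega
  · exact Or.inr (h w hw h1)

variable {A R : ℕ}

lemma P.six (h : D.P A R) (hne : ∀ N, ∃ r s, N ≤ r ∧ N ≤ s ∧ D.cc A r s ≠ 0) : D.Six := by
  obtain ⟨a, rfl⟩ : ∃ a, A = 2 * a := by
    obtain ⟨r, s, hr, hs, e⟩ := hne R
    exact ⟨A / 2, by by_contra e'; exact e (h.cc_odd (by omega) hr hs)⟩
  obtain ⟨δ, hδ, hr⟩ := recur (D := D)
  obtain ⟨h1, R', h2⟩ := numC1 (D.cc (2 * a)) (R + 2 * (2 * a)) (fun r s _ _ => cc_pas r s)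
    {σ | D.InS σ ∧ ¬ D.InS (σ + 1)} (fun σ hσ r s b1 b2 => by
      have := h.invE (D.cnt σ) b1 b2
      rw [hσ.1.const hσ.2, hσ.1.const hσ.2 r, hσ.1.const hσ.2 s, hσ.1, ← mul_add] at this
      exact mul_left_cancel₀ (hσ.1.ne hσ.2) this) hδ hr hne
  have h3 := fun w => res_six (D := D) (w := w) fun σ a b => h1 σ ⟨a, b⟩
  obtain ⟨c, hc⟩ : ∃ c : ℕ → ℕ → K, ∀ r s, c r s = D.cc (2 * a) (r - a) (s - a) :=
    ⟨_, fun _ _ => rfl⟩
  have hj : ∀ r s t, R + a ≤ r → R + a ≤ s → R + a ≤ t → ¬ D.InS (r + s) → ¬ D.InS (s + t) →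
      ¬ D.InS (t + r) →
      c r s * c (r + s) t + c s t * c (s + t) r + c t r * c (t + r) s = 0 := by
    intro r s t b1 b2 b3 c1 c2 c3
    obtain ⟨r, rfl⟩ : ∃ k, r = k + a := ⟨r - a, by omega⟩
    obtain ⟨s, rfl⟩ : ∃ k, s = k + a := ⟨s - a, by omega⟩
    obtain ⟨t, rfl⟩ : ∃ k, t = k + a := ⟨t - a, by omega⟩
    have e := h.jac (r := r) (s := s) (t := t) (by omega) (by omega) (by omega)
    have z : ∀ r s, ¬ D.InS (r + a + (s + a)) → D.bb (2 * a) r s = 0 := fun r s h =>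
      by_contra fun e => h (by convert bb_supp e using 1; ring)
    have y : ∀ r s t, c (r + a + (s + a)) (t + a) =
        coeff (r + s + t + 2 * a) (D.pE ⁅D.E (r + s + 2 * a / 2), D.E t⁆) := fun r s t => by
      rw [hc, cc, Nat.add_sub_cancel, show r + a + (s + a) - a = r + s + 2 * a / 2 by omega]
      congr 2; omega
    rw [z r s c1, z s t c2, z t r c3] at e
    rw [y, y, y, hc, hc, hc]
    simpa using e
  have hs : ∀ r k, a ≤ r → r + k - a = r - a + k := by omega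
  obtain ⟨p, hp⟩ := numC2 c (R + R' + a)
    (fun r s b1 b2 => by rw [hc, hc, hc, hs r 1 (by omega), hs s 1 (by omega), cc_pas])
    (fun r s _ _ => by rw [hc, hc, cc_anti])
    (fun r s b1 b2 => by
      simp only [hc, hs s _ (show a ≤ s by omega)]
      exact h2 _ _ (by omega) (by omega))
    fun r s t b1 b2 b3 c1 c2 c3 => hj r s t (by omega) (by omega) (by omega)
      (fun e => by have := h3 _ e; omega) (fun e => by have := h3 _ e; omega)
      fun e => by have := h3 _ e; omega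
  have hp0 : p ≠ 0 := fun e => by
    obtain ⟨r, s, b1, b2, b3⟩ := hne (R + R')
    have := hp (r + a) (s + a) (by omega) (by omega)
    rw [hc, e, zero_mul, Nat.add_sub_cancel, Nat.add_sub_cancel] at this
    exact b3 this
  generalize hM : R + R' + a = M at hp
  have h4 : ∀ w, 7 * M + 3 ≤ w → w % 6 = 1 ∨ w % 6 = 5 → D.InS w := fun w hw h6 => by
    by_contra e
    rcases h6 with h6 | h6
    · obtain ⟨r, rfl⟩ : ∃ r, w = r + (6 * M + 3) := ⟨w - (6 * M + 3), by omega⟩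
      have := hj r (6 * M + 3) (6 * M) (by omega) (by omega) (by omega) e
        (fun e => by have := h3 _ e; omega) fun e => by have := h3 _ e; omega
      rw [hp _ _ (by omega) (by omega), hp _ _ (by omega) (by omega), hp _ _ (by omega) (by omega),
        hp _ _ (by omega) (by omega), hp _ _ (by omega) (by omega), hp _ _ (by omega) (by omega),
        chi_congr (k := 6 * M + 3 + _) (l := 5) (by omega),
        chi_congr (k := 6 * M + 5 * (r + _)) (l := 5) (by omega),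
        chi_congr (k := 6 * M + 5 * (6 * M + 3)) (l := 3) (by omega),
        chi_congr (k := r + 5 * (6 * M)) (l := 4) (by omega),
        chi_congr (k := 6 * M + 3 + 5 * (6 * M + r)) (l := 5) (by omega)] at this
      simp [chi, hp0, ← two_mul] at this
    · obtain ⟨r, rfl⟩ : ∃ r, w = r + (6 * M + 2) := ⟨w - (6 * M + 2), by omega⟩
      have := hj r (6 * M + 2) (6 * M + 1) (by omega) (by omega) (by omega) e
        (fun e => by have := h3 _ e; omega) fun e => by have := h3 _ e; omega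
      rw [hp _ _ (by omega) (by omega), hp _ _ (by omega) (by omega), hp _ _ (by omega) (by omega),
        hp _ _ (by omega) (by omega), hp _ _ (by omega) (by omega), hp _ _ (by omega) (by omega),
        chi_congr (k := 6 * M + 2 + _) (l := 5) (by omega),
        chi_congr (k := 6 * M + 1 + 5 * (r + _)) (l := 2) (by omega),
        chi_congr (k := r + 5 * (6 * M + 2 + _)) (l := 0) (by omega),
        chi_congr (k := r + 5 * (6 * M + 1)) (l := 2) (by omega),
        chi_congr (k := 6 * M + 2 + 5 * (6 * M + 1 + r)) (l := 4) (by omega)] at this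
      simp [chi, hp0, ← two_mul] at this
  refine ⟨7 * M + 4, fun w hw => ⟨fun e => ?_, h4 w (by omega)⟩⟩
  obtain ⟨w, rfl⟩ : ∃ k, w = k + 1 := ⟨w - 1, by omega⟩
  by_contra e'
  have := h3 _ e
  exact run3 (h4 w (by omega) (by omega)) e (h4 _ (by omega) (by omega))

lemma P.odd (h : D.P A R) (h' : ∀ R, ¬ D.P (A + 1) R) {N : ℕ}
    (h0 : ∀ r s, N ≤ r → N ≤ s → D.cc A r s = 0) : ∃ a R b, D.Odd a R b := by
  obtain ⟨R', b, hb, h1, h2⟩ := numB (D.bb A) (fun n t => D.u (D.cnt (n + A)) t)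
    (fun n => D.InS (n + A)) (R + N)
    (fun n a b => by
      rw [add_right_comm] at b ⊢
      exact run3 a b) (fun _ _ => bb_supp) bb_anti
    (fun r s a b => h.rule (by omega) (by omega)) (fun _ => u_aff _) (fun _ _ => u_ne _)
    (fun n a b => a.const (by rwa [add_right_comm] at b))
    (fun r s t a b c => by
      have := h.jac (r := r) (s := s) (t := t) (by omega) (by omega) (by omega)
      rw [h0 r s (by omega) (by omega), h0 s t (by omega) (by omega),
        h0 t r (by omega) (by omega)] at this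
      simpa using this)
    fun M => by
      obtain ⟨r, s, a, b, c⟩ := h.freq h' (M + N)
      exact ⟨r, s, by omega, by omega, c.resolve_left (not_not.2 (h0 r s (by omega) (by omega)))⟩
  have h3 : ∀ w, R' + A ≤ w → (D.InS w ↔ (w + A) % 2 = 1) := fun w hw => by
    obtain ⟨n, rfl⟩ : ∃ n, w = n + A := ⟨w - A, by omega⟩
    exact (h1 n (by omega)).trans (by omega)
  rcases Nat.mod_two_eq_zero_or_one A with hA | hA
  · obtain ⟨a, rfl⟩ : ∃ a, A = 2 * a := ⟨A / 2, by omega⟩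
    refine ⟨a, R + N + R' + 2 * a, b, fun w hw => (h3 w (by omega)).trans (by omega), hb,
      fun s t hs ht => ?_⟩
    have e := h.lead (s := s) (t := t) (by omega) (by omega)
    rw [h0 s t (by omega) (by omega), zero_smul, sub_zero, show 2 * a / 2 = a by omega] at e
    convert e using 2
    rw [Z]
    split_ifs with e'
    · rw [← h2 s t (by omega) (by omega) (by omega), smul_smul, mul_assoc, mul_inv_cancel₀
        (InS.ne ((h3 _ (by omega)).2 (by omega)) fun x => by have := (h3 _ (by omega)).1 x; omega),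
        mul_one]
    · rw [smul_zero, bb, if_neg fun x => e' (by have := (h3 _ (by omega)).1 x; omega), zero_smul]
  · exfalso
    generalize hM : R + N + R' + 2 * A = M
    have a1 : ∀ w, M ≤ w → w % 2 = 0 → D.InS w ∧ ¬ D.InS (w + 1) := fun w a b =>
      ⟨(h3 _ (by omega)).2 (by omega), fun x => by have := (h3 _ (by omega)).1 x; omega⟩
    obtain ⟨b1, b2⟩ := a1 (2 * M) (by omega) (by omega)
    obtain ⟨c1, c2⟩ := a1 (2 * M + (2 * M + 1) + A) (by omega) (by omega)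
    obtain ⟨d1, d2⟩ := a1 (2 * M + (2 * M + 1) + A + 2 * M) (by omega) (by omega)
    have e1 := (h.inv (D.cnt (2 * M)) (r := 2 * M) (s := 2 * M + 1) (by omega) (by omega)).2.2
    have e2 := (lie_wt (k := 0) (w := 2 * M + (2 * M + 1) + A + 2 * M + 1) h
      (H_mem (D.cnt (2 * M)) (R + 4 * M + 4)) (h.lead (s := 2 * M) (t := 2 * M + 1) (by omega)
      (by omega)) (by omega) (by omega) (by omega) (by omega) (by omega) (by omega) (by omega)
      (by omega) (by omega)).2.2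
    have e3 := wt_of_dg (HH' (D.cnt (2 * M)) (D.cnt (2 * M + (2 * M + 1) + A)))
      (s := 2 * M + (2 * M + 1) + A + 2 * M + 1) fun d hd t => by
        rcases (Nat.le_of_lt_succ hd).eq_or_lt with rfl | hd
        · rw [add_comm _ (2 * M), comp0 b1 c1, b1.const b2, b1.const b2 t, c1.const c2,
            c1.const c2 (t + _), mul_comm, sub_self]
        · exact comp_lt (by omega) t
    rw [b1] at e1
    rw [h0 _ _ (by omega) (by omega), zero_smul, sub_zero] at e2
    rw [d1.succ] at e1 e2 e3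
    have f1 := coeff_eq_zero e1 (Nat.lt_succ_self _)
    have f2 := coeff_eq_zero e2 (Nat.lt_succ_self _)
    have f3 := coeff_eq_zero e3 (Nat.lt_succ_self _)
    have g1 := h2 (2 * M + 2 * M) (2 * M + 1) (by omega) (by omega) (by omega)
    have g2 := h2 (2 * M) (2 * M + 1 + 2 * M) (by omega) (by omega) (by omega)
    simp only [lie_sub, lie_smul, map_sub, map_smul, smul_eq_mul, f3] at f1 f2
    rw [bb, show 2 * M + 2 * M + (2 * M + 1) + A = 2 * M + (2 * M + 1) + A + 2 * M by ring,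
      if_pos d1] at g1
    rw [bb, show 2 * M + (2 * M + 1 + 2 * M) + A = 2 * M + (2 * M + 1) + A + 2 * M by ring,
      if_pos d1] at g2
    simp only [pow_add, pow_mul, neg_one_sq, one_pow, one_mul] at g1 g2
    rw [b1.const b2, b1.const b2 (2 * M + 1)] at f1
    refine mul_ne_zero (mul_ne_zero two_ne_zero (b1.ne b2)) hb ?_
    linear_combination D.u (D.cnt (2 * M + (2 * M + 1) + A + 2 * M)) 0 * (f2 - f1) -
      D.u (D.cnt (2 * M)) 0 * (g1 + g2)

end Dat

theorem leadStmt : LeadStmt := by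
  intro K L _ _ _ _ _ _ _ D
  obtain ⟨A, R, h, h'⟩ := Dat.exists_max (D := D)
  by_cases e : ∀ N, ∃ r s, N ≤ r ∧ N ≤ s ∧ D.cc A r s ≠ 0
  · exact Or.inl (h.six e)
  · push Not at e
    obtain ⟨N, e⟩ := e
    exact Or.inr (h.odd h' e)

end Pool.Agent.P78.U1
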