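import Pool.Agent.Lib.MP_78c6b1_al.U1.NF1
import Pool.Agent.Lib.MP_78c6b1_al.U1.Lead

/-! Rigidity: the fast lane is abelian to every order. -/

namespace Pool.Agent.P78.U1

open PowerSeries

variable {K L : Type} [Field K] [LieRing L] [LieAlgebra K L] [Module K⟦X⟧ L]
  [IsScalarTower K K⟦X⟧ L] [CharZero K]

namespace Dat

variable {D : Dat K L} {a R : ℕ} {b : K}

omit [CharZero K] in
lemma Odd.cnt1 (h : D.Odd a R b) {n : ℕ} (hn : R ≤ n) (p : n % 2 = 1) :
    D.cnt (n + 1) = D.cnt n + 1 := ((h.sig n hn).2 p).succ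

omit [CharZero K] in
lemma Odd.cnt0 (h : D.Odd a R b) {n : ℕ} (hn : R ≤ n) (p : n % 2 = 0) :
    D.cnt (n + 1) = D.cnt n := cnt_succ fun e => by have := (h.sig n hn).1 e; omega

omit [CharZero K] in
lemma Odd.two (h : D.Odd a R b) {n : ℕ} (hn : R ≤ n) (p : n % 2 = 1) :
    D.InS n ∧ ¬ D.InS (n + 1) :=
  ⟨(h.sig n hn).2 p, fun e => by have := (h.sig _ (by omega)).1 e; omega⟩

/-- The weight filtration. -/
noncomputable def Odd.frame (h : D.Odd a R b) : Frame K L where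
  F n := D.Box (n - a) (D.cnt n)
  N := D.N
  E := LinearMap.ker D.pZ
  lam n := coeff (n - a) ∘ₗ D.pE
  mu n := if n % 2 = 1 then D.u (D.cnt n) 0 • (coeff (D.cnt n) ∘ₗ D.pZ) else 0
  R := R + 3 * a
  anti _ _ e := box_mono (by omega) (cnt_mono e)
  lie hu hv _ _ _ := lie_wt (c := a + 1) (A := 2 * a) h.box hu hv (by omega) (by omega) (by omega)
    (by omega) (by omega) (by omega) (by omega) (by omega) (by omega)
  lam0 _ _ hv := coeff_eq_zero hv.2.1 (by omega)
  mu0 {n} hn v hv := by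
    split_ifs with p
    · simp [coeff_eq_zero hv.2.2 (m := D.cnt n) (by rw [h.cnt1 (by omega) p]; omega)]
    · rfl
  lamN n v hv := by simp [(mem_N.1 hv).2]
  muE n v hv := by split_ifs <;> simp [LinearMap.mem_ker.1 hv]
  muev p v := by simp [p]
  step {n v} hn hv h1 h2 := by
    refine ⟨hv.1, by rw [show n + 1 - a = n - a + 1 by omega]; exact dvd_succ' hv.2.1 h1, ?_⟩
    rcases Nat.mod_two_eq_zero_or_one n with p | p
    · rw [h.cnt0 (by omega) p]; exact hv.2.2
    · rw [h.cnt1 (by omega) p]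
      obtain ⟨b1, b2⟩ := h.two (n := n) (by omega) p
      exact dvd_succ' hv.2.2 (by simpa [p, b1.ne b2] using h2)
  NN := lie_N
  negl i := ⟨R + 3 * a + 2 * i + 2, fun σ r u v hr u1 u2 v1 v2 => by
    have := (lie_wt (c := a + 1) (A := 2 * a) (k := 0) (w := r + σ + i + 1) (q := r + σ + i + 1)
      h.box (N_box u1 u2.2.2 (R + r + σ + i + 1)) ⟨v2.1, v2.2.1, by simp [LinearMap.mem_ker.1 v1]⟩
      (by omega) (by omega) (by omega) (by omega) (by omega) (by omega) (by omega) (by omega)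
      (by omega)).2.2
    split_ifs with p
    · simp [coeff_eq_zero this (m := D.cnt (r + σ + i)) (by rw [h.cnt1 (by omega) p]; omega)]
    · rfl⟩

omit [CharZero K] in
lemma Z_N (w : ℕ) : D.Z w ∈ D.N := by
  rw [Z]; split_ifs
  exacts [Submodule.smul_mem _ _ (H_N _), zero_mem _]

omit [CharZero K] in
lemma Z_mem (w i : ℕ) : D.Z w ∈ D.Box i (D.cnt w) := by
  rw [Z]; split_ifs
  exacts [Submodule.smul_mem _ _ (H_mem _ _), zero_mem _]

lemma Odd.nf (h : D.Odd a R b) :
    NF h.frame ((-1) ^ a * b) 1 (R + 3 * a) (fun r => D.E (r - a)) D.Z where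
  le := le_rfl
  eE r := pZ_E _
  eF r := E_mem _ _
  e1 r _ := by simp [frame]
  zN := Z_N
  zF s := Z_mem s _
  z1 s hs p := by
    obtain ⟨b1, b2⟩ := h.two (n := s) (le_of_add_le_left hs) p
    simp [frame, Z, p, b1.ne b2]
  z0 s p := by simp [Z, p]
  r1 σ r p a1 a2 := by
    obtain ⟨b1, b2⟩ := h.two (n := σ) (by omega) p
    have e := Submodule.smul_mem _ (D.u (D.cnt σ) 0)⁻¹
      (sub_E (NE' (D := D) (H_N (D.cnt σ)) (p := σ) (by simp) (r - a)))
    have e' := b1.const b2 (r - a)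
    rw [u, b1, dg] at e'
    rw [e', smul_sub, smul_smul, inv_mul_cancel₀ (b1.ne b2), one_smul, ← smul_lie,
      show r - a + σ = r + σ - a by omega] at e
    rw [Z, if_pos p]
    exact mem_box_mono e (by omega) (cnt_mono (by omega))
  r2 r s a1 a2 := by
    obtain ⟨r, rfl⟩ : ∃ k, r = k + a := ⟨r - a, by omega⟩
    obtain ⟨s, rfl⟩ : ∃ k, s = k + a := ⟨s - a, by omega⟩
    have e := h.br r s (by omega) (by omega)
    rw [Nat.add_sub_cancel, Nat.add_sub_cancel, ← mul_assoc, ← pow_add, add_assoc r a a, ← two_mul,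
      pow_add, pow_mul, neg_one_sq, one_pow, mul_one,
      show r + a + (s + a) = r + s + 2 * a by ring]
    exact mem_box_mono e (by omega) le_rfl
  r3 σ τ a1 a2 := by
    rcases Nat.mod_two_eq_zero_or_one σ with p | p
    · simp [Z, p]
    rcases Nat.mod_two_eq_zero_or_one τ with q | q
    · simp [Z, q]
    · refine N_box (lie_N (Z_N _) (Z_N _)) ?_ _
      rw [h.cnt0 (by omega) (by omega)]
      exact lie_N_wt (Z_N _) (Z_N _) (Z_mem _ 0).2.2 (Z_mem _ 0).2.2

end Dat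

theorem nfStmt : NFStmt := by
  intro K L _ _ _ _ _ _ D a R b h i
  obtain ⟨R', e, z, h'⟩ := h.nf.all (by simp [h.ne]) i
  have hH : ∀ n, D.H n ∈ h.frame.F (D.sg n) := fun n =>
    Dat.mem_box_mono (Dat.H_mem n _) le_rfl (Dat.cnt_sg n).le
  exact ⟨R', fun n m hn hm => (h'.ab i (Dat.H_N n) (hH n) (Dat.H_N m) (hH m)
    (hn.trans Dat.sg_strict.le_apply) (hm.trans Dat.sg_strict.le_apply) (by omega) le_rfl).2.2⟩

end Pool.Agent.P78.U1
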