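import Pool.Agent.Lib.MP_78c6b1_al.U1.Blocks

/-! Block 3: the shifts cannot be the numbers prime to six. -/

namespace Pool.Agent.P78.U1

open Finset

section

variable {K : Type} [Field K]

lemma six_aff {f : ℕ → K} {c : K} (h : ∀ t, f t - f (t + 1) = c) (t s : ℕ) :
    f (t + s) = f t - s * c := by
  induction s with
  | zero => simp
  | succ s ih => have := h (t + s); rw [← add_assoc]; push_cast; linear_combination ih - this

/-- The diagonals of a commutator. -/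
def sixC (U : ℕ → ℕ → ℕ → K) (a b j t : ℕ) : K :=
  ∑ i ∈ range (j + 1), (U b i t * U a (j - i) (t + b + i) - U a i t * U b (j - i) (t + a + i))

variable [CharZero K]

lemma six_const (g : ℕ → K) (N : ℕ) (h : ∀ i j, N ≤ i → N ≤ j →
    (6 * j + 5) * g j - (6 * i + 5) * g i = 6 * ((j : K) - i) * g (i + j + 1)) :
    ∃ M, ∀ n, M ≤ n → g n = g M := by
  have h1 : ∀ i, N ≤ i → g (2 * i + 2) + g (2 * i + 4) = 2 * g (2 * i + 3) := fun i hi => by
    have a1 := h i (i + 1) hi (by omega)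
    have a2 := h (i + 1) (i + 2) (by omega) (by omega)
    have a3 := h i (i + 2) hi (by omega)
    rw [show i + (i + 1) + 1 = 2 * i + 2 by ring] at a1
    rw [show i + 1 + (i + 2) + 1 = 2 * i + 4 by ring] at a2
    rw [show i + (i + 2) + 1 = 2 * i + 3 by ring] at a3
    push_cast at a1 a2 a3
    linear_combination (a3 - a1 - a2) / 6
  have h2 : ∀ i, N ≤ i → g (2 * i + 2) + g (2 * i + 6) = 2 * g (2 * i + 4) := fun i hi => by
    have a1 := h i (i + 1) hi (by omega)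
    have a2 := h (i + 1) (i + 2) (by omega) (by omega)
    have a3 := h (i + 2) (i + 3) (by omega) (by omega)
    have a4 := h i (i + 3) hi (by omega)
    rw [show i + (i + 1) + 1 = 2 * i + 2 by ring] at a1
    rw [show i + 1 + (i + 2) + 1 = 2 * i + 4 by ring] at a2
    rw [show i + 2 + (i + 3) + 1 = 2 * i + 6 by ring] at a3
    rw [show i + (i + 3) + 1 = 2 * i + 4 by ring] at a4
    push_cast at a1 a2 a3 a4
    linear_combination (a4 - a1 - a2 - a3) / 6
  have h3 : ∀ n, 2 * N + 2 ≤ n → g n + g (n + 2) = 2 * g (n + 1) := fun n hn => by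
    obtain ⟨i, rfl | rfl⟩ : ∃ i, n = 2 * i + 2 ∨ n = 2 * i + 3 := ⟨n / 2 - 1, by omega⟩
    · exact h1 i (by omega)
    · have a1 := h1 i (by omega)
      have a2 := h1 (i + 1) (by omega)
      have a3 := h2 i (by omega)
      rw [show 2 * (i + 1) + 2 = 2 * i + 4 by ring, show 2 * (i + 1) + 4 = 2 * i + 6 by ring,
        show 2 * (i + 1) + 3 = 2 * i + 5 by ring] at a2
      change g (2 * i + 3) + g (2 * i + 5) = 2 * g (2 * i + 4)
      linear_combination (a3 - a1 - a2) / 2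
  set M := 2 * N + 2 with hM
  have h4 : ∀ t, g (M + t) - g (M + (t + 1)) = g M - g (M + 1) := fun t => by
    induction t with
    | zero => rfl
    | succ t ih =>
      have := h3 (M + t) (by omega)
      simp only [← add_assoc] at ih ⊢
      linear_combination ih - this
  have h5 := fun s => six_aff (f := fun t => g (M + t)) h4 0 s
  simp only [zero_add, add_zero] at h5
  have h6 : g M - g (M + 1) = 0 := by
    have a1 := h M (M + 1) (by omega) (by omega)
    rw [show M + (M + 1) + 1 = M + (M + 2) by ring, h5 (M + 2)] at a1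
    push_cast at a1
    linear_combination a1
  refine ⟨M, fun n hn => ?_⟩
  obtain ⟨s, rfl⟩ := Nat.exists_eq_add_of_le hn
  rw [h5, h6, mul_zero, sub_zero]

lemma six_num (U : ℕ → ℕ → ℕ → K) (k : ℕ → K) (R : ℕ)
    (h0 : ∀ w, R ≤ w → (w % 6 = 1 ∨ w % 6 = 5) → ∀ t, U w 0 t = 1)
    (hk0 : ∀ w, R ≤ w → (w % 6 = 1 ∨ w % 6 = 5) → k w ≠ 0)
    (hk : ∀ a, R ≤ a → a % 6 = 5 → ∀ j t,
      U a (j + 1) t - U a (j + 1) (t + 1) = k a * U (a + 2) j t)
    (hc : ∀ b, R ≤ b → b % 6 = 1 → ∀ j, j ≤ 2 → ∀ t, U b j t - U b j (t + 1) = 0)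
    (hl : ∀ b, R ≤ b → b % 6 = 1 → ∀ j t,
      U b (j + 3) t - U b (j + 3) (t + 1) = k b * U (b + 4) j t)
    (h55 : ∀ a b, R ≤ a → R ≤ b → a % 6 = 5 → b % 6 = 5 → ∃ c, ∀ j, j ≤ 1 → ∀ t,
      sixC U a b (j + 1) t = c * U (a + b + 1) j t)
    (h51 : ∀ a b, R ≤ a → R ≤ b → a % 6 = 5 → b % 6 = 1 → ∃ c, ∀ j, j ≤ 3 → ∀ t,
      sixC U a b (j + 1) t = c * U (a + b + 1) j t) : False := by
  have b1 : ∀ b, R ≤ b → b % 6 = 1 → ∀ j, j ≤ 2 → ∀ t, U b j t = U b j 0 := fun b hb hb' j hj t => by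
    simpa using six_aff (hc b hb hb' j hj) 0 t
  have a1 : ∀ a, R ≤ a → a % 6 = 5 → ∀ t, U a 1 t = U a 1 0 - t * k a := fun a ha ha' t => by
    simpa using six_aff (f := U a 1) (c := k a) (fun t => by
      rw [hk a ha ha' 0 t, h0 _ (by omega) (by omega), mul_one]) 0 t
  have a2 : ∀ a, R ≤ a → a % 6 = 5 → ∀ j, j ≤ 2 → ∀ t,
      U a (j + 1) t = U a (j + 1) 0 - t * (k a * U (a + 2) j 0) := fun a ha ha' j hj t => by
    simpa using six_aff (f := U a (j + 1)) (c := k a * U (a + 2) j 0) (fun t => by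
      rw [hk a ha ha' j t, b1 _ (by omega) (by omega) j hj]) 0 t
  have b3 : ∀ b, R ≤ b → b % 6 = 1 → ∀ t, U b 3 t = U b 3 0 - t * k b := fun b hb hb' t => by
    simpa using six_aff (f := U b 3) (c := k b) (fun t => by
      rw [hl b hb hb' 0 t, h0 _ (by omega) (by omega), mul_one]) 0 t
  have K1 : ∀ a b, R ≤ a → R ≤ b → a % 6 = 5 → b % 6 = 5 →
      (k a * b - k b * a) * k (a + b + 1) = k a * k b * ((b : K) - a) := fun a b ha hb ha' hb' => by
    obtain ⟨c, hc⟩ := h55 a b ha hb ha' hb'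
    have e0 := hc 0 (by omega) 0
    have e1 := hc 1 (by omega) 0
    have e2 := hc 1 (by omega) 1
    simp only [sixC, sum_range_succ, range_zero, sum_empty, h0 a ha (Or.inr ha'),
      h0 b hb (Or.inr hb'), h0 (a + b + 1) (by omega) (by omega), Nat.reduceAdd, Nat.reduceSub,
      zero_add, add_zero] at e0 e1 e2
    rw [a1 a ha ha' b, a1 b hb hb' a] at e0
    rw [a2 a ha ha' 1 (by omega) b, a2 b hb hb' 1 (by omega) a, a1 a ha ha' (b + 1),
      a1 b hb hb' (a + 1)] at e1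
    rw [a2 a ha ha' 1 (by omega) (1 + b), a2 b hb hb' 1 (by omega) (1 + a),
      a1 a ha ha' (1 + b + 1), a1 b hb hb' (1 + a + 1), a2 a ha ha' 1 (by omega) 1,
      a2 b hb hb' 1 (by omega) 1, a1 a ha ha' 1, a1 b hb hb' 1,
      a1 (a + b + 1) (by omega) (by omega) 1] at e2
    push_cast at e1 e2
    linear_combination e1 - e2 - k (a + b + 1) * e0
  obtain ⟨M, hM⟩ := six_const (fun n => (k (6 * n + 5))⁻¹) R fun i j hi hj => by
    have := K1 (6 * i + 5) (6 * j + 5) (by omega) (by omega) (by omega) (by omega)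
    rw [show 6 * i + 5 + (6 * j + 5) + 1 = 6 * (i + j + 1) + 5 by ring] at this
    have n1 := hk0 (6 * i + 5) (by omega) (by omega)
    have n2 := hk0 (6 * j + 5) (by omega) (by omega)
    have n3 := hk0 (6 * (i + j + 1) + 5) (by omega) (by omega)
    push_cast at this
    field_simp
    linear_combination this
  have kc : ∀ a, 6 * M ≤ a → a % 6 = 5 → k a = k (6 * M + 5) := fun a ha ha' => by
    obtain ⟨n, rfl⟩ : ∃ n, a = 6 * n + 5 := ⟨a / 6, by omega⟩
    exact inv_injective (hM n (by omega))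
  have K2 : ∀ a b, R + 6 * M ≤ a → R + 6 * M ≤ b → a % 6 = 5 → b % 6 = 1 →
      b * (k (a + b + 1) - k (a + 2)) = k b * ((b : K) + 2 - 2 * a) := fun a b ha0 hb0 ha' hb' => by
    have ha : R ≤ a := by omega
    have hb : R ≤ b := by omega
    obtain ⟨c, hc⟩ := h51 a b ha hb ha' hb'
    have e0 := hc 0 (by omega) 0
    have e1 := hc 3 (by omega) 0
    have e2 := hc 3 (by omega) 1
    have d1 : ∀ t, U a 4 (1 + t) = U a 4 t - k a * (U (a + 2) 3 0 - t * k (a + 2)) := fun t => by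
      have := hk a ha ha' 3 t
      rw [b3 (a + 2) (by omega) (by omega) t] at this
      rw [add_comm 1 t]
      linear_combination -this
    have d2 : ∀ t, U b 4 (1 + t) = U b 4 t - k b * (U (b + 4) 1 0 - t * k a) := fun t => by
      have := hl b hb hb' 1 t
      rw [a1 (b + 4) (by omega) (by omega) t, kc (b + 4) (by omega) (by omega),
        ← kc a (by omega) ha'] at this
      rw [add_comm 1 t]
      linear_combination -this
    have d3 := d1 0
    have d4 := d2 0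
    simp only [sixC, sum_range_succ, range_zero, sum_empty, h0 a ha (Or.inr ha'),
      h0 b hb (Or.inl hb'), h0 (a + b + 1) (by omega) (by omega), Nat.reduceAdd, Nat.reduceSub,
      zero_add, add_zero] at e0 e1 e2 d3 d4
    rw [a1 a ha ha' b, b1 b hb hb' 1 (by omega) a] at e0
    rw [a2 a ha ha' 2 (by omega) (b + 1), b3 b hb hb' (a + 1), a2 a ha ha' 1 (by omega) (b + 2),
      b1 b hb hb' 2 (by omega) (a + 2), a1 a ha ha' (b + 3),
      b1 b hb hb' 1 (by omega) (a + 3)] at e1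
    rw [d1 b, d2 a, d3, d4, a2 a ha ha' 2 (by omega) (1 + b + 1), b3 b hb hb' (1 + a + 1),
      a2 a ha ha' 1 (by omega) (1 + b + 2), b1 b hb hb' 2 (by omega) (1 + a + 2),
      a1 a ha ha' (1 + b + 3), b1 b hb hb' 1 (by omega) (1 + a + 3),
      b1 b hb hb' 1 (by omega) 1, b1 b hb hb' 2 (by omega) 1, a1 a ha ha' 1, b3 b hb hb' 1,
      a2 a ha ha' 1 (by omega) 1, a2 a ha ha' 2 (by omega) 1,
      b3 (a + b + 1) (by omega) (by omega) 1] at e2
    push_cast at e1 e2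
    refine mul_left_cancel₀ (hk0 a ha (Or.inr ha')) ?_
    linear_combination e1 - e2 - k (a + b + 1) * e0
  obtain ⟨n, hn, hn'⟩ : ∃ n, R + 6 * M ≤ n ∧ n % 6 = 5 := ⟨6 * (R + M) + 5, by omega, by omega⟩
  have e1 := K2 n (n + 2) hn (by omega) hn' (by omega)
  have e2 := K2 n (2 * n + 3) hn (by omega) hn' (by omega)
  have e3 := K2 (2 * n + 1) (n + 2) (by omega) (by omega) (by omega) (by omega)
  rw [show n + (n + 2) + 1 = 2 * n + 3 by ring] at e1
  rw [show n + (2 * n + 3) + 1 = 3 * n + 4 by ring] at e2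
  rw [show 2 * n + 1 + (n + 2) + 1 = 3 * n + 4 by ring, show 2 * n + 1 + 2 = 2 * n + 3 by ring] at e3
  have n1 := hk0 (n + 2) (by omega) (by omega)
  have n3 : ((4 * n ^ 2 + 6 : ℕ) : K) ≠ 0 := Nat.cast_ne_zero.2 (by omega)
  refine mul_ne_zero n1 n3 ?_
  push_cast at e1 e2 e3 ⊢
  linear_combination ((n : K) - 1) * e1 - ((n : K) + 2) / 2 * e2 + (2 * (n : K) + 3) / 2 * e3

end

section

open PowerSeries

variable {K L : Type} [Field K] [LieRing L] [LieAlgebra K L] [Module K⟦X⟧ L]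
  [IsScalarTower K K⟦X⟧ L] [CharZero K]

namespace Dat

variable {D : Dat K L}

omit [CharZero K] in
lemma six_next {w v : ℕ} (hw : D.InS w) (hv : D.InS v) (h1 : w < v)
    (h2 : ∀ x, w < x → x < v → ¬ D.InS x) :
    D.sg (D.cnt w + 1) = v ∧ D.cnt v = D.cnt w + 1 := by
  have a1 : D.cnt w < D.cnt v := lt_cnt.2 (by rw [hw]; exact h1)
  have a2 : D.sg (D.cnt w + 1) ≤ v := by
    have := (sg_strict (D := D)).monotone (Nat.succ_le_of_lt a1)
    rwa [hv] at this
  have a3 : w < D.sg (D.cnt w + 1) := by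
    have := sg_strict (D := D) (D.cnt w).lt_succ_self
    rwa [hw] at this
  have a4 : D.sg (D.cnt w + 1) = v := by
    by_contra h
    exact h2 _ a3 (lt_of_le_of_ne a2 h) (by rw [InS, cnt_sg])
  exact ⟨a4, by rw [← a4, cnt_sg]⟩

lemma not_six (D : Dat K L) : ¬ D.Six := by
  rintro ⟨R, hR⟩
  have n5 : ∀ a, R ≤ a → a % 6 = 5 →
      D.sg (D.cnt a + 1) = a + 2 ∧ D.cnt (a + 2) = D.cnt a + 1 := fun a ha ha' =>
    six_next ((hR a ha).2 (Or.inr ha')) ((hR _ (by omega)).2 (by omega)) (by omega)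
      fun x h1 h2 h => by have := (hR x (by omega)).1 h; omega
  have n1 : ∀ b, R ≤ b → b % 6 = 1 →
      D.sg (D.cnt b + 1) = b + 4 ∧ D.cnt (b + 4) = D.cnt b + 1 := fun b hb hb' =>
    six_next ((hR b hb).2 (Or.inl hb')) ((hR _ (by omega)).2 (by omega)) (by omega)
      fun x h1 h2 h => by have := (hR x (by omega)).1 h; omega
  have hs : ∀ w, R ≤ w → (w % 6 = 1 ∨ w % 6 = 5) → D.sg (D.cnt w) = w := fun w hw hw' =>
    (hR w hw).2 hw'
  have hn : ∀ w, R ≤ w → (w % 6 = 1 ∨ w % 6 = 5) → w + 2 ≤ D.sg (D.cnt w + 1) := fun w hw hw' => by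
    rcases hw' with h | h
    · rw [(n1 w hw h).1]; omega
    · rw [(n5 w hw h).1]
  have hu : ∀ w, R ≤ w → (w % 6 = 1 ∨ w % 6 = 5) → ∀ t, D.u (D.cnt w) t = D.u (D.cnt w) 0 :=
    fun w hw hw' t => u_const (by rw [hs w hw hw']; exact hn w hw hw') t
  have hκ : ∀ w, R ≤ w → (w % 6 = 1 ∨ w % 6 = 5) → D.u (D.cnt w) 0 ≠ 0 := fun w hw hw' => by
    obtain ⟨t, ht⟩ := u_ne (D := D) (D.cnt w)
    rwa [hu w hw hw'] at ht
  set z : ℕ → L := fun w => (D.u (D.cnt w) 0)⁻¹ • D.H (D.cnt w) with hz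
  have zN : ∀ w, z w ∈ D.N := fun w => Submodule.smul_mem _ _ (H_N _)
  have zlt : ∀ w, ∀ d < w, ∀ t, D.dg (z w) d t = 0 := fun w d hd t => by
    rw [hz, dg_smul, dg_lt (hd.trans_le (le_sg_cnt w)), mul_zero]
  have zX : ∀ w d t, D.dg (z w) d t - D.dg (z w) d (t + 1) =
      (D.u (D.cnt w) 0)⁻¹ * D.dg (D.H (D.cnt w + 1)) (d + 1) t := fun w d t => by
    rw [hz, dg_smul, dg_smul, ← X_H, dg_X, mul_sub]
  have zH : ∀ w, R ≤ w → (w % 6 = 1 ∨ w % 6 = 5) → ∀ d t,
      D.dg (D.H (D.cnt w)) d t = D.u (D.cnt w) 0 * D.dg (z w) d t := fun w hw hw' d t => by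
    rw [hz, dg_smul, mul_inv_cancel_left₀ (hκ w hw hw')]
  have h0 : ∀ w, R ≤ w → (w % 6 = 1 ∨ w % 6 = 5) → ∀ t, D.dg (z w) (w + 0) t = 1 :=
    fun w hw hw' t => by
      have := hu w hw hw' t
      rw [u, hs w hw hw'] at this
      rw [hz, dg_smul, add_zero, this, inv_mul_cancel₀ (hκ w hw hw')]
  have br : ∀ a b J, R ≤ a → R ≤ b → (a % 6 = 1 ∨ a % 6 = 5) → (b % 6 = 1 ∨ b % 6 = 5) →
      ((a + b + 1) % 6 = 1 ∨ (a + b + 1) % 6 = 5) → a + b + 1 + J < D.sg (D.cnt (a + b + 1) + 1) →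
      ∃ c, ∀ j, j ≤ J → ∀ t, sixC (fun w j t => D.dg (z w) (w + j) t) a b (j + 1) t =
        c * D.dg (z (a + b + 1)) (a + b + 1 + j) t := fun a b J ha hb ha' hb' hab hJ => by
    have hv := lie_N (zN a) (zN b)
    have hc := comp (zN a) (zN b) (zlt a) (zlt b)
    have h1 : X ^ D.cnt (a + b + 1) ∣ D.pZ ⁅z a, z b⁆ := by
      refine wt_of_dg hv fun d hd t => ?_
      rcases Nat.lt_succ_iff_lt_or_eq.1 hd with h | rfl
      · exact dg_N_lt hv (lie_N_wt (zN a) (zN b) (wt_of_dg (zN a) (zlt a))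
          (wt_of_dg (zN b) (zlt b))) (h.trans_le (le_sg_cnt _)) t
      · have := hc 0 t
        simp only [zero_add, range_one, sum_singleton, Nat.sub_zero, h0 a ha ha', h0 b hb hb',
          sub_self] at this
        simpa using this
    refine ⟨coeff (D.cnt (a + b + 1)) (D.pZ ⁅z a, z b⁆) * D.u (D.cnt (a + b + 1)) 0,
      fun j hj t => ?_⟩
    rw [mul_assoc, ← zH _ (by omega) hab, ← dg_N hv h1 (by omega), sixC, ← hc (j + 1) t]
    congr 1
    ring
  refine six_num (fun w j t => D.dg (z w) (w + j) t)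
    (fun w => (D.u (D.cnt w) 0)⁻¹ * D.u (D.cnt w + 1) 0) R h0 (fun w hw hw' => ?_)
    (fun a ha ha' j t => ?_) (fun b hb hb' j hj t => ?_) (fun b hb hb' j t => ?_)
    (fun a b ha hb ha' hb' => ?_) (fun a b ha hb ha' hb' => ?_)
  · refine mul_ne_zero (inv_ne_zero (hκ w hw hw')) ?_
    rcases hw' with h | h
    · rw [← (n1 w hw h).2]; exact hκ _ (by omega) (by omega)
    · rw [← (n5 w hw h).2]; exact hκ _ (by omega) (by omega)
  · rw [zX, ← (n5 a ha ha').2, zH _ (by omega) (by omega), mul_assoc]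
    congr 3
    ring
  · rw [zX, dg_lt (by rw [(n1 b hb hb').1]; omega), mul_zero]
  · rw [zX, ← (n1 b hb hb').2, zH _ (by omega) (by omega), mul_assoc]
    congr 3
    ring
  · exact br a b 1 ha hb (Or.inr ha') (Or.inr hb') (by omega)
      (by rw [(n5 _ (by omega) (by omega)).1]; omega)
  · exact br a b 3 ha hb (Or.inr ha') (Or.inl hb') (by omega)
      (by rw [(n1 _ (by omega) (by omega)).1]; omega)

end Dat

end

theorem sixStmt : SixStmt := fun _ _ _ _ _ _ _ _ D => D.not_six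

end Pool.Agent.P78.U1
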