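import Pool.Agent.Lib.MP_78c6b1_al.U1.Ex
import Pool.Agent.Lib.MP_78c6b1_al.U1.Six
import Pool.Agent.Lib.MP_78c6b1_al.U1.NF
import Pool.Agent.Lib.MP_78c6b1_al.U1.Fin

/-! Rank two with an exact chain and infinitely many one dimensional levels is impossible. -/

namespace Pool.Agent.P78

theorem u1Stmt : U1Stmt := U1.u1Stmt_of U1.exStmt U1.leadStmt U1.sixStmt U1.nfStmt U1.finStmt

end Pool.Agent.P78
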