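import Pool.Agent.Lib.MP_78c6b1_al.Lim.TMod

/-! Rank two, one exact chain and infinitely many levels of dimension one: the statement. -/

namespace Pool.Agent.P78

open PowerSeries

/-- Rank two with an exact chain and infinitely many one dimensional levels is impossible. -/
def U1Stmt : Prop :=
  ∀ (K L : Type) [Field K] [CharZero K] [Uncountable K] [LieRing L] [LieAlgebra K L]
    [Module K⟦X⟧ L] [IsScalarTower K K⟦X⟧ L] (x a b : L),
    Lim K L → TGen K x a b →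
    (∀ (c : K) (f g : K⟦X⟧), c • x + f • a + g • b = 0 → c = 0 ∧ f = 0 ∧ g = 0) →
    (∀ N : Submodule K⟦X⟧ L, (∀ u : L, ∀ v ∈ N, ⁅u, v⁆ ∈ N) → N ≠ ⊥ →
      ∃ n, ∀ v ∈ gam K L n, v ∈ N) →
    (∃ n, ∃ v ∈ gam K L n, ∀ m, (LieAlgebra.ad K L x ^ m) v ∉ gam K L (n + m + 1)) →
    (∀ N, ∃ n, N ≤ n ∧ ∃ v ∈ gam K L (n + 1), ∀ w ∈ gam K L n, v ≠ ⁅x, w⁆) → False

end Pool.Agent.P78
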