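import Pool.Agent.Lib.MP_78c6b1_al.U1.Deg

/-! The blocks of the proof of `U1Stmt`. -/

namespace Pool.Agent.P78.U1

open PowerSeries

section

variable {K L : Type} [Field K] [LieRing L] [LieAlgebra K L] [Module K⟦X⟧ L]
  [IsScalarTower K K⟦X⟧ L]

namespace Dat

/-- `w` is the shift of an element of the fast lane. -/
def InS (D : Dat K L) (w : ℕ) : Prop := D.sg (D.cnt w) = w

/-- The normalised element of the fast lane of odd weight `w`. -/
noncomputable def Z (D : Dat K L) (w : ℕ) : L :=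
  if w % 2 = 1 then (D.u (D.cnt w) 0)⁻¹ • D.H (D.cnt w) else 0

/-- The shifts are eventually the numbers prime to six. -/
def Six (D : Dat K L) : Prop := ∃ R, ∀ w, R ≤ w → (D.InS w ↔ w % 6 = 1 ∨ w % 6 = 5)

/-- The leading terms are those of the principal gradation of the loop algebra of `sl 2`;
`E t` has weight `t + a`. -/
structure Odd (D : Dat K L) (a R : ℕ) (b : K) : Prop where
  sig : ∀ w, R ≤ w → (D.InS w ↔ w % 2 = 1)
  ne : b ≠ 0
  br : ∀ s t, R ≤ s → R ≤ t → ⁅D.E s, D.E t⁆ - ((-1) ^ s * b) • D.Z (s + t + 2 * a) ∈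
    D.Box (s + t + a + 1) (D.cnt (s + t + 2 * a + 1))

/-- The fast lane is abelian to every order. -/
def Ab (D : Dat K L) : Prop := ∀ i, ∃ R, ∀ n m, R ≤ n → R ≤ m →
  X ^ D.cnt (D.sg n + D.sg m + i) ∣ D.pZ ⁅D.H n, D.H m⁆

variable {D : Dat K L}

lemma inS_sg (n : ℕ) : D.InS (D.sg n) := by rw [InS, cnt_sg]

lemma InS.succ {w : ℕ} (h : D.InS w) : D.cnt (w + 1) = D.cnt w + 1 := by
  conv_lhs => rw [← h]
  exact cnt_sg_succ _

lemma cnt_succ {w : ℕ} (h : ¬ D.InS w) : D.cnt (w + 1) = D.cnt w :=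
  le_antisymm (cnt_le.2 (lt_of_le_of_ne (le_sg_cnt w) (Ne.symm h))) (cnt_mono w.le_succ)

variable [CharZero K]

lemma NE' {v : L} (hv : v ∈ D.N) {p : ℕ} (h : X ^ D.cnt p ∣ D.pZ v) (t : ℕ) :
    ⁅v, D.E t⁆ ∈ D.Box (t + p) (D.cnt (p + t + 1 + (t + 1) / 2)) :=
  mem_box_mono (NE hv h t) (by have := le_sg_cnt (D := D) p; omega) (cnt_le.2 (by
    have := le_sg_cnt (D := D) p
    have := sg_add (D := D) (D.cnt p) (t + 1)
    rw [add_assoc (D.cnt p)]; omega))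

/-- Brackets of boxes, given a bound for the brackets on the exact lane. -/
lemma lie_wt {R c A : ℕ} (hP : ∀ s t, R ≤ s → R ≤ t →
    ⁅D.E s, D.E t⁆ ∈ D.Box (s + t + c) (D.cnt (s + t + A))) {i p j q k w : ℕ} {u v : L}
    (hu : u ∈ D.Box i (D.cnt p)) (hv : v ∈ D.Box j (D.cnt q)) (hi : R ≤ i) (hj : R ≤ j)
    (h1 : k ≤ i + j + c) (h2 : k ≤ i + q) (h3 : k ≤ j + p) (h4 : w ≤ i + j + A) (h5 : w ≤ p + q)
    (h6 : w ≤ q + i + i / 2) (h7 : w ≤ p + j + j / 2) : ⁅u, v⁆ ∈ D.Box k (D.cnt w) := by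
  have hH : ∀ {p n}, D.cnt p ≤ n → X ^ D.cnt p ∣ D.pZ (D.H n) := fun h => by
    simpa using pow_dvd_pow _ h
  refine box_lie_box (opn_box _ _) (fun s t hs ht => ?_) (fun s n hs hn => ?_)
    (fun n t hn ht => ?_) (fun n m hn hm => ?_) hu hv
  · exact mem_box_mono (hP s t (by omega) (by omega)) (by omega) (cnt_mono (by omega))
  · rw [← lie_skew, neg_mem_iff]
    exact mem_box_mono (NE' (H_N n) (hH hn) s) (by omega) (cnt_mono (by omega))
  · exact mem_box_mono (NE' (H_N n) (hH hn) t) (by omega) (cnt_mono (by omega))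
  · exact N_box (HH' n m) ((pow_dvd_pow _ (cnt_mono h5)).trans
      (lie_N_wt (H_N n) (H_N m) (hH hn) (hH hm))) _

lemma Odd.box {a R : ℕ} {b : K} (h : D.Odd a R b) (s t : ℕ) (hs : R ≤ s) (ht : R ≤ t) :
    ⁅D.E s, D.E t⁆ ∈ D.Box (s + t + a + 1) (D.cnt (s + t + 2 * a)) := by
  rw [← sub_add_cancel ⁅D.E s, D.E t⁆ (((-1) ^ s * b) • D.Z (s + t + 2 * a))]
  refine add_mem (mem_box_mono (h.br s t hs ht) le_rfl (cnt_mono (by omega)))
    (Submodule.smul_mem _ _ ?_)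
  rw [Z]
  split_ifs
  · exact Submodule.smul_mem _ _ (H_mem _ _)
  · exact zero_mem _

end Dat

end

/-- Block 1: the coordinates exist. -/
def ExStmt : Prop :=
  ∀ (K L : Type) [Field K] [LieRing L] [LieAlgebra K L]
    [Module K⟦X⟧ L] [IsScalarTower K K⟦X⟧ L] (x a b : L),
    Lim K L → TGen K x a b →
    (∀ (c : K) (f g : K⟦X⟧), c • x + f • a + g • b = 0 → c = 0 ∧ f = 0 ∧ g = 0) →
    (∀ N : Submodule K⟦X⟧ L, (∀ u : L, ∀ v ∈ N, ⁅u, v⁆ ∈ N) → N ≠ ⊥ →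
      ∃ n, ∀ v ∈ gam K L n, v ∈ N) →
    (∃ n, ∃ v ∈ gam K L n, ∀ m, (LieAlgebra.ad K L x ^ m) v ∉ gam K L (n + m + 1)) →
    (∀ N, ∃ n, N ≤ n ∧ ∃ v ∈ gam K L (n + 1), ∀ w ∈ gam K L n, v ≠ ⁅x, w⁆) → Nonempty (Dat K L)

/-- Block 2: the two possible leading structures. -/
def LeadStmt : Prop :=
  ∀ (K L : Type) [Field K] [CharZero K] [Uncountable K] [LieRing L] [LieAlgebra K L]
    [Module K⟦X⟧ L] [IsScalarTower K K⟦X⟧ L] (D : Dat K L), D.Six ∨ ∃ a R b, D.Odd a R b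

/-- Block 3: the first structure is impossible. -/
def SixStmt : Prop :=
  ∀ (K L : Type) [Field K] [CharZero K] [LieRing L] [LieAlgebra K L]
    [Module K⟦X⟧ L] [IsScalarTower K K⟦X⟧ L] (D : Dat K L), ¬ D.Six

/-- Block 4: rigidity of the second structure. -/
def NFStmt : Prop :=
  ∀ (K L : Type) [Field K] [CharZero K] [LieRing L] [LieAlgebra K L]
    [Module K⟦X⟧ L] [IsScalarTower K K⟦X⟧ L] (D : Dat K L) (a R : ℕ) (b : K), D.Odd a R b → D.Ab

/-- Block 5: the second structure violates the budget. -/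
def FinStmt : Prop :=
  ∀ (K L : Type) [Field K] [CharZero K] [Uncountable K] [LieRing L] [LieAlgebra K L]
    [Module K⟦X⟧ L] [IsScalarTower K K⟦X⟧ L] (D : Dat K L) (a R : ℕ) (b : K),
    D.Odd a R b → ¬ D.Ab

theorem u1Stmt_of (h1 : ExStmt) (h2 : LeadStmt) (h3 : SixStmt) (h4 : NFStmt) (h5 : FinStmt) :
    U1Stmt := by
  intro K L _ _ _ _ _ _ _ x a b g1 g2 g3 g4 g5 g6
  obtain ⟨D⟩ := h1 K L x a b g1 g2 g3 g4 g5 g6
  rcases h2 K L D with h | ⟨a, R, b, h⟩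
  · exact h3 K L D h
  · exact h5 K L D a R b h (h4 K L D a R b h)

end Pool.Agent.P78.U1
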