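import Pool.Agent.Lib.MP_78c6b1_al.U1.Sym

/-! The leading symbols have degree at most one, and the gaps are bounded. -/

namespace Pool.Agent.P78.U1

open Finset

section

open Polynomial

variable {K : Type} [Field K]

/-- Degree at most `k` with top coefficient `c`. -/
def Lead (p : K[X]) (k : ℕ) (c : K) : Prop := p.natDegree ≤ k ∧ p.coeff k = c

lemma Lead.taylor_sub {p : K[X]} {k : ℕ} {c : K} (h : Lead p (k + 1) c) (b : K) :
    Lead (taylor b p - p) k ((k + 1) * b * c) := by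
  refine ⟨natDegree_le_iff_coeff_eq_zero.2 fun n hn => ?_, ?_⟩
  · have h1 : (hasseDeriv n p).natDegree ≤ 0 :=
      (natDegree_hasseDeriv_le p n).trans (by have := h.1; omega)
    rw [coeff_sub, taylor_coeff, eq_C_of_natDegree_le_zero h1, hasseDeriv_coeff]
    simp
  · have h1 : (hasseDeriv k p).natDegree ≤ 1 :=
      (natDegree_hasseDeriv_le p k).trans (by have := h.1; omega)
    rw [coeff_sub, taylor_coeff, eq_X_add_C_of_natDegree_le_one h1, hasseDeriv_coeff,
      hasseDeriv_coeff, add_comm 1 k, h.2]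
    simp
    ring

lemma Lead.mul {p q : K[X]} {k l : ℕ} {c d : K} (h : Lead p k c) (h' : Lead q l d) :
    Lead (p * q) (k + l) (c * d) :=
  ⟨natDegree_mul_le.trans (add_le_add h.1 h'.1), by
    rw [coeff_mul_add_eq_of_natDegree_le h.1 h'.1, h.2, h'.2]⟩

lemma Lead.sub {p q : K[X]} {k : ℕ} {c d : K} (h : Lead p k c) (h' : Lead q k d) :
    Lead (p - q) k (c - d) :=
  ⟨(natDegree_sub_le _ _).trans (max_le h.1 h'.1), by rw [coeff_sub, h.2, h'.2]⟩

lemma Lead.neg {p : K[X]} {k : ℕ} {c : K} (h : Lead p k c) : Lead (-p) k (-c) :=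
  ⟨by rw [natDegree_neg]; exact h.1, by rw [coeff_neg, h.2]⟩

lemma Lead.eq {p : K[X]} {k : ℕ} {c : K} (h : Lead p k c) (hc : c ≠ 0) : p.natDegree = k :=
  natDegree_eq_of_le_of_coeff_ne_zero h.1 (h.2 ▸ hc)

lemma Lead.br {p q : K[X]} {k l : ℕ} {c d : K} (h : Lead p (k + 1) c) (h' : Lead q (l + 1) d)
    (a b : K) : Lead (taylor b p * q - taylor a q * p) (k + l + 1)
      (c * d * ((k + 1) * b - (l + 1) * a)) := by
  have h1 := (h.taylor_sub b).mul h'
  have h2 := (h'.taylor_sub a).mul h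
  rw [show l + (k + 1) = k + (l + 1) by ring] at h2
  convert h1.sub h2 using 1 <;> ring

variable [CharZero K]

lemma exists_anti (k : ℕ) (p : K[X]) (hp : ∀ n, k ≤ n → p.coeff n = 0) :
    ∃ q : K[X], q - taylor 1 q = p := by
  induction k generalizing p with
  | zero => exact ⟨0, by ext n; simp [hp n (Nat.zero_le _)]⟩
  | succ k ih =>
    have h0 : Lead (C (p.coeff k / (k + 1)) * X ^ (k + 1)) (k + 1) (p.coeff k / (k + 1)) :=
      ⟨natDegree_C_mul_X_pow_le _ _, by simp⟩
    have h1 := (Lead.sub ⟨natDegree_le_iff_coeff_eq_zero.2 fun n hn => hp n hn, rfl⟩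
      (h0.taylor_sub 1))
    obtain ⟨q, hq⟩ := ih _ fun n hn => (hn.eq_or_lt.elim (fun e => e ▸ h1.2.trans (by
      have : (k : K) + 1 ≠ 0 := by exact_mod_cast k.succ_ne_zero
      field_simp; ring)) fun e => coeff_eq_zero_of_natDegree_lt (h1.1.trans_lt e))
    exact ⟨q - C (p.coeff k / (k + 1)) * X ^ (k + 1), by rw [map_sub]; linear_combination hq⟩

lemma poly_anti {f : ℕ → K} {p : K[X]} (h : ∀ t, f t - f (t + 1) = p.eval (t : K)) :
    ∃ q : K[X], ∀ t, f t = q.eval (t : K) := by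
  obtain ⟨q, rfl⟩ := exists_anti (p.natDegree + 1) p fun n hn => coeff_eq_zero_of_natDegree_lt hn
  refine ⟨q + C (f 0 - q.eval 0), fun t => ?_⟩
  induction t with
  | zero => simp
  | succ t ih =>
    have := h t
    simp only [eval_sub, taylor_eval, eval_add, eval_C] at this ih ⊢
    push_cast
    linear_combination ih - this

lemma poly_ext {p q : K[X]} (h : ∀ t : ℕ, p.eval (t : K) = q.eval (t : K)) : p = q :=
  eq_of_infinite_eval_eq p q
    ((Set.infinite_range_of_injective Nat.cast_injective).mono (by rintro _ ⟨t, rfl⟩; exact h t))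

end

open PowerSeries

variable {K L : Type} [Field K] [LieRing L] [LieAlgebra K L] [Module K⟦X⟧ L]
  [IsScalarTower K K⟦X⟧ L] [CharZero K]

namespace Dat

variable {D : Dat K L}

lemma dg_poly (n d : ℕ) : ∃ q : Polynomial K, ∀ t, D.dg (D.H n) d t = q.eval (t : K) := by
  obtain ⟨m0, h0⟩ := fast (D := D) (d + 1)
  suffices h : ∀ j i, m0 ≤ i + j → ∃ q : Polynomial K, ∀ t,
      D.dg (D.H (n + i)) (d + i) t = q.eval (t : K) from h m0 0 (by omega)
  intro j
  induction j with
  | zero =>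
    exact fun i hi => ⟨0, fun t => by
      rw [dg_lt ((le_sg_al (h0 (n + i) (by omega))).trans' (by omega))]; simp⟩
  | succ j ih =>
    intro i hi
    obtain ⟨q, hq⟩ := ih (i + 1) (by omega)
    exact poly_anti fun t => by rw [← dg_X, X_H, ← hq]; rfl

variable (D) in
/-- `v` lies in the fast lane and has leading symbol `q` at position `P`. -/
def Sym (v : L) (P : ℕ) (q : Polynomial K) : Prop :=
  v ∈ D.N ∧ (∀ d < P, ∀ t, D.dg v d t = 0) ∧ ∀ t, D.dg v P t = q.eval (t : K)

omit [IsScalarTower K K⟦X⟧ L] [CharZero K] in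
lemma Sym.X {v : L} {P : ℕ} {q : Polynomial K} (h : D.Sym v P q) :
    D.Sym ((X : K⟦X⟧) • v) (P + 1) (-(Polynomial.taylor 1 q - q)) := by
  refine ⟨X_N h.1, fun d hd t => ?_, fun t => ?_⟩
  · rcases d with _ | d
    · exact dg_zero _ _
    · rw [dg_X, h.2.1 d (by omega), h.2.1 d (by omega), sub_zero]
  · simp [dg_X, h.2.2, Polynomial.taylor_eval]

omit [CharZero K] in
lemma Sym.lie {v w : L} {P Q : ℕ} {p q : Polynomial K} (h : D.Sym v P p) (h' : D.Sym w Q q) :
    D.Sym ⁅v, w⁆ (P + Q) (Polynomial.taylor (Q : K) p * q - Polynomial.taylor (P : K) q * p) := by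
  have h1 := wt_of_dg h.1 h.2.1
  have h2 := wt_of_dg h'.1 h'.2.1
  refine ⟨lie_N h.1 h'.1, fun d hd t => dg_N_lt (lie_N h.1 h'.1) (lie_N_wt h.1 h'.1 h1 h2)
    (hd.trans_le (le_sg_cnt _)) t, fun t => ?_⟩
  have := comp h.1 h'.1 h.2.1 h'.2.1 0 t
  simp only [add_zero, zero_add, range_one, sum_singleton, Nat.sub_zero, h.2.2, h'.2.2] at this
  simp [this, Polynomial.taylor_eval, mul_comm]

lemma Sym.deg {v w : L} {P : ℕ} {p q : Polynomial K} (h : D.Sym v P p) (h' : D.Sym w P q)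
    (hp : p ≠ 0) (hq : q ≠ 0) : p.natDegree = q.natDegree := by
  obtain ⟨r, hr⟩ := dg_poly (D := D) (D.cnt P) P
  have key : ∀ {v p}, D.Sym v P p → p ≠ 0 → p.natDegree = r.natDegree := fun {v p} h hp => by
    have h1 : p = Polynomial.C (coeff (D.cnt P) (D.pZ v)) * r := poly_ext fun t => by
      rw [← h.2.2, dg_N h.1 (wt_of_dg h.1 h.2.1)
        ((le_sg_cnt P).trans_lt (sg_strict (Nat.lt_succ_self _))), hr]
      simp
    rw [h1] at hp ⊢
    exact Polynomial.natDegree_C_mul fun e => hp (by simp [e])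
  rw [key h hp, key h' hq]

lemma run_le (n : ℕ) : D.sg n + 3 ≤ D.sg (n + 2) := by
  by_contra! hn
  have a1 : D.sg n < D.sg (n + 1) := sg_strict n.lt_succ_self
  have a2 : D.sg (n + 1) < D.sg (n + 2) := sg_strict (n + 1).lt_succ_self
  obtain ⟨p, hp⟩ := dg_poly (D := D) n (D.sg n)
  have hs : D.Sym (D.H n) (D.sg n) p := ⟨H_N n, fun _ hd => dg_lt hd, hp⟩
  obtain ⟨k, hk⟩ : ∃ k, p.natDegree = k + 2 := by
    by_contra hk
    have h1 : Lead p 1 (p.coeff 1) := ⟨by
      by_contra h; exact hk ⟨p.natDegree - 2, by omega⟩, rfl⟩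
    obtain ⟨t, ht⟩ := u_ne (D := D) (n + 2)
    have h2 := hs.X.X.2.2 t
    rw [X_H, X_H, Polynomial.eq_C_of_natDegree_le_zero (h1.taylor_sub 1).1,
      show D.sg n + 1 + 1 = D.sg (n + 2) by omega] at h2
    exact ht (by simpa [u] using h2)
  have hl : Lead p (k + 1 + 1) p.leadingCoeff := ⟨hk.le, by rw [Polynomial.leadingCoeff, hk]⟩
  have hc : p.leadingCoeff ≠ 0 := Polynomial.leadingCoeff_ne_zero.2 fun e => by simp [e] at hk
  have h1 : ∀ m, ∃ v q c, D.Sym v (D.sg n + 1 + m * D.sg n) q ∧ Lead q (k + m * (k + 1) + 1) c ∧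
      c ≠ 0 := fun m => by
    induction m with
    | zero =>
      refine ⟨_, _, _, by simpa using hs.X, by simpa using (hl.taylor_sub 1).neg, ?_⟩
      have : (k : K) + 1 + 1 ≠ 0 := by exact_mod_cast (k + 1).succ_ne_zero
      simp [this, hc]
    | succ m ih =>
      obtain ⟨v, q, c, h1, h2, h3⟩ := ih
      refine ⟨_, _, _, by convert hs.lie h1 using 1; ring,
        by convert hl.br h2 _ _ using 1; ring, mul_ne_zero (mul_ne_zero hc h3) ?_⟩
      have : ((k + 2 + (m + 1) * D.sg n : ℕ) : K) ≠ 0 := Nat.cast_ne_zero.2 (by omega)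
      convert this using 1
      push_cast; ring
  have h2 : ∀ j {v P q l c}, D.Sym v P q → Lead q (l + j) c → c ≠ 0 →
      ∃ w r d, D.Sym w (P + j) r ∧ Lead r l d ∧ d ≠ 0 := fun j => by
    induction j with
    | zero => exact fun h1 h2 h3 => ⟨_, _, _, h1, h2, h3⟩
    | succ j ih =>
      intro v P q l c h1 h2 h3
      rw [show P + (j + 1) = P + 1 + j by ring]
      refine ih h1.X (Lead.taylor_sub h2 1).neg ?_
      have : (l : K) + j + 1 ≠ 0 := by exact_mod_cast (l + j).succ_ne_zero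
      simp [this, h3]
  obtain ⟨v, q, c, b1, b2, b3⟩ := h1 (D.sg n)
  obtain ⟨v', q', c', b1', b2', b3'⟩ := h1 (D.sg n + 1)
  rw [show k + D.sg n * (k + 1) + 1 = k + D.sg n * k + 1 + D.sg n by ring] at b2
  obtain ⟨w, r, d, c1, c2, c3⟩ := h2 _ b1 b2 b3
  rw [show D.sg n + 1 + (D.sg n + 1) * D.sg n = D.sg n + 1 + D.sg n * D.sg n + D.sg n by ring]
    at b1'
  have := c1.deg b1' (fun e => c3 (by rw [← c2.2, e]; simp)) fun e => b3' (by rw [← b2'.2, e]; simp)
  rw [c2.eq c3, b2'.eq b3'] at this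
  nlinarith

lemma sg_add (n t : ℕ) : D.sg n + t + t / 2 ≤ D.sg (n + t) := by
  induction t using Nat.twoStepInduction with
  | zero => simp
  | one => exact sg_strict n.lt_succ_self
  | more t ih _ => have := run_le (D := D) (n + t); rw [← add_assoc n t 2]; omega

lemma u_const {n : ℕ} (h : D.sg n + 2 ≤ D.sg (n + 1)) (t : ℕ) : D.u n t = D.u n 0 := by
  induction t with
  | zero => rfl
  | succ t ih =>
    have := dg_X (D := D) (D.H n) (D.sg n) t
    rw [X_H, dg_lt (by omega)] at this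
    rw [← ih, u, u]
    linear_combination this

lemma u_aff (n t : ℕ) : D.u n t = D.u n 0 + t * (D.u n 1 - D.u n 0) := by
  have h : ∀ t, D.u n t - D.u n (t + 1) = D.u n 0 - D.u n 1 := fun t => by
    induction t with
    | zero => rfl
    | succ t ih =>
      have h1 := dg_X (D := D) (D.H (n + 1)) (D.sg n + 1) t
      rw [X_H, dg_lt (n := n + 2) (by have := run_le (D := D) n; omega), ← X_H,
        dg_X, dg_X] at h1
      rw [← ih, u, u, u]
      linear_combination h1
  induction t with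
  | zero => simp
  | succ t ih => push_cast; linear_combination ih - h t

lemma dg_const {n j : ℕ} (h : D.sg n + j + 2 ≤ D.sg (n + 1)) (t : ℕ) :
    D.dg (D.H n) (D.sg n + j) t = D.dg (D.H n) (D.sg n + j) 0 := by
  induction t with
  | zero => rfl
  | succ t ih =>
    have := dg_X (D := D) (D.H n) (D.sg n + j) t
    rw [X_H, dg_lt (by omega)] at this
    rw [← ih]
    linear_combination this

lemma gap_bdd : ∃ G, ∀ n, D.sg (n + 1) ≤ D.sg n + G := by
  obtain ⟨a, ha⟩ : ∃ a, D.sg a + 2 ≤ D.sg (a + 1) := by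
    by_contra! h
    have : D.sg 0 + 3 ≤ D.sg 2 := run_le 0
    have : D.sg 1 < D.sg 0 + 2 := h 0
    have : D.sg 2 < D.sg 1 + 2 := h 1
    have : D.sg 0 < D.sg 1 := sg_strict (by omega)
    omega
  obtain ⟨J, hJ⟩ : ∃ J, D.sg (a + 1) = D.sg a + J + 1 := ⟨D.sg (a + 1) - D.sg a - 1, by omega⟩
  refine ⟨D.sg a + J + 2, fun b => ?_⟩
  by_contra! hb
  have h1 : ∀ j ≤ J, ∀ t, D.dg ⁅D.H a, D.H b⁆ (D.sg a + D.sg b + j) t =
      D.u b 0 * (D.dg (D.H a) (D.sg a + j) (t + D.sg b) - D.dg (D.H a) (D.sg a + j) t) := by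
    intro j hj t
    rw [comp (H_N a) (H_N b) (fun _ => dg_lt) (fun _ => dg_lt), sum_sub_distrib, sum_range_succ',
      sum_range_succ, ← sum_range_reflect]
    have : ∀ i ∈ range j, D.dg (D.H b) (D.sg b + (j - 1 - i + 1)) t *
        D.dg (D.H a) (D.sg a + (j - (j - 1 - i + 1))) (t + D.sg b + (j - 1 - i + 1)) =
        D.dg (D.H a) (D.sg a + i) t * D.dg (D.H b) (D.sg b + (j - i)) (t + D.sg a + i) := by
      intro i hi
      rw [mem_range] at hi
      rw [show j - 1 - i + 1 = j - i by omega, show j - (j - i) = i by omega,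
        dg_const (n := a) (by omega), dg_const (n := a) (by omega) t,
        dg_const (n := b) (by omega), dg_const (n := b) (by omega) (t + _ + _), mul_comm]
    rw [sum_congr rfl this, Nat.sub_self, dg_const (n := b) (by omega) t,
      dg_const (n := b) (by omega) (t + _ + _)]
    simp only [add_zero, Nat.sub_zero, u]
    ring
  have h2 : X ^ D.cnt (D.sg a + D.sg b + J) ∣ D.pZ ⁅D.H a, D.H b⁆ := by
    refine wt_of_dg (HH' a b) fun d hd t => ?_
    rcases lt_or_ge d (D.sg a + D.sg b) with h | h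
    · exact dg_N_lt (HH' a b) (lie_N_wt (H_N a) (H_N b) (by simp [cnt_sg]) (by simp [cnt_sg]))
        (h.trans_le (le_sg_cnt _)) t
    · obtain ⟨j, rfl⟩ := Nat.exists_eq_add_of_le h
      rw [h1 j (by omega), dg_const (by omega), dg_const (by omega) t, sub_self, mul_zero]
  have h3 : b + 1 ≤ D.cnt (D.sg a + D.sg b + J) :=
    lt_cnt.2 (by have := sg_pos (D := D) a; omega)
  have hb0 : D.u b 0 ≠ 0 := by
    obtain ⟨t, ht⟩ := u_ne (D := D) b
    rwa [u_const (by omega)] at ht
  have h4 : ∀ t, D.dg (D.H a) (D.sg a + J) (t + D.sg b) = D.dg (D.H a) (D.sg a + J) t := fun t => by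
    have := h1 J le_rfl t
    rw [dg_N_lt (HH' a b) ((pow_dvd_pow _ h3).trans h2) (by omega)] at this
    exact sub_eq_zero.1 ((mul_eq_zero.1 this.symm).resolve_left hb0)
  have h5 : ∀ t, D.u (a + 1) t = D.dg (D.H a) (D.sg a + J) t - D.dg (D.H a) (D.sg a + J) (t + 1) :=
    fun t => by rw [← dg_X, X_H, u, hJ]
  have hσ : (D.sg b : K) ≠ 0 := Nat.cast_ne_zero.2 (by have := sg_pos (D := D) b; omega)
  have h6 : D.u (a + 1) 1 - D.u (a + 1) 0 = 0 := by
    have e1 := u_aff (D := D) (a + 1) (D.sg b)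
    have e2 := h4 0
    have e3 := h4 1
    rw [h5 (D.sg b), h5 0, add_comm (D.sg b) 1, e3, ← zero_add (D.sg b), e2] at e1
    rw [h5 0]
    exact (mul_eq_zero.1 (by simpa using e1.symm)).resolve_left hσ
  have h7 : ∀ t, D.dg (D.H a) (D.sg a + J) t =
      D.dg (D.H a) (D.sg a + J) 0 - t * D.u (a + 1) 0 := fun t => by
    induction t with
    | zero => simp
    | succ t ih =>
      have := h5 t
      rw [u_aff, h6] at this
      push_cast
      linear_combination ih + this
  obtain ⟨t, ht⟩ := u_ne (D := D) (a + 1)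
  have := h4 0
  rw [h7, zero_add, sub_eq_self, mul_eq_zero] at this
  rw [u_aff, h6, this.resolve_left hσ] at ht
  simp at ht

end Dat

end Pool.Agent.P78.U1
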