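import Pool.Agent.Lib.MP_78c6b1_al.U1.Blocks

/-! Block 1: the coordinates exist. -/

namespace Pool.Agent.P78.U1

open PowerSeries

section

variable {K : Type} [Field K]

lemma Ex_pow_dvd {i j : ℕ} : (X : K⟦X⟧) ^ i ∣ X ^ j ↔ i ≤ j :=
  pow_dvd_pow_iff X_ne_zero X_prime.not_isUnit

lemma Ex_core {M : Type} [AddCommGroup M] [Module K⟦X⟧ M] (G : ℕ → Submodule K⟦X⟧ M)
    (δ : M →ₗ[K⟦X⟧] K⟦X⟧) (e : M) (h1 : Antitone G)
    (h2 : ∀ s, ∀ v ∈ G s, (X : K⟦X⟧) • v ∈ G (s + 1)) (h3 : e ∈ G 0)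
    (h4 : ∀ s, (X : K⟦X⟧) ^ s • e ∉ G (s + 1)) (h5 : δ e = 0)
    (h6 : ∀ v ∈ G 0, δ v = 0 → ∃ c : K⟦X⟧, v = c • e) (h7 : ∃ v ∈ G 0, δ v ≠ 0)
    (h8 : ∀ N, ∃ s, N ≤ s ∧ ∃ v ∈ G (s + 1), ∀ w ∈ G s, v ≠ (X : K⟦X⟧) • w) :
    ∃ (h : M) (al : ℕ → ℕ), δ h ≠ 0 ∧ al 0 = 0 ∧
      (∀ s, al (s + 1) = al s ∨ al (s + 1) = al s + 1) ∧ (∀ k, ∃ s, al s + k ≤ s) ∧
      ∀ s v, v ∈ G s ↔ ∃ f g : K⟦X⟧, X ^ s ∣ f ∧ X ^ al s ∣ g ∧ v = f • e + g • h := by
  have hp : ∀ s, ∀ v ∈ G 0, (X : K⟦X⟧) ^ s • v ∈ G s := fun s v hv => by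
    induction s with
    | zero => simpa using hv
    | succ s ih => rw [pow_succ', mul_smul]; exact h2 s _ ih
  have he : ∀ (s : ℕ) (c : K⟦X⟧), c • e ∈ G s ↔ X ^ s ∣ c := fun s c => by
    refine ⟨fun hc => ?_, ?_⟩
    · induction s with
      | zero => simp
      | succ s ih =>
        obtain ⟨d, rfl⟩ := ih (h1 s.le_succ hc)
        rw [pow_succ]
        refine mul_dvd_mul_left _ (X_dvd_iff.2 ?_)
        by_contra hd
        obtain ⟨u, rfl⟩ := isUnit_iff_constantCoeff.2 (IsUnit.mk0 _ hd)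
        have := (G (s + 1)).smul_mem (↑u⁻¹ : K⟦X⟧) hc
        rw [← mul_smul, mul_comm (X ^ s), Units.inv_mul_cancel_left] at this
        exact h4 s this
    · rintro ⟨d, rfl⟩
      rw [mul_comm, mul_smul]
      exact (G s).smul_mem d (hp s e h3)
  have hk : ∀ s, ∀ v ∈ G s, δ v = 0 → ∃ c : K⟦X⟧, X ^ s ∣ c ∧ v = c • e := fun s v hv h0 => by
    obtain ⟨c, rfl⟩ := h6 v (h1 (Nat.zero_le s) hv) h0
    exact ⟨c, (he s c).1 hv, rfl⟩
  have hI : ∀ s, ∃ m : ℕ, (G s).map δ = Ideal.span {(X : K⟦X⟧) ^ m} := fun s => by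
    refine IsDiscreteValuationRing.ideal_eq_span_pow_irreducible ?_ X_irreducible
    obtain ⟨v, hv, hv'⟩ := h7
    refine (Submodule.ne_bot_iff _).2 ⟨_, Submodule.mem_map_of_mem (hp s v hv), ?_⟩
    rw [map_smul, smul_eq_mul]
    exact mul_ne_zero (pow_ne_zero _ X_ne_zero) hv'
  choose m hm using hI
  have hd : ∀ s, ∀ v ∈ G s, X ^ m s ∣ δ v := fun s v hv =>
    Ideal.mem_span_singleton.1 ((hm s).le (Submodule.mem_map_of_mem hv))
  have hz : ∀ s, ∃ z ∈ G s, δ z = X ^ m s := fun s =>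
    (hm s).ge (Ideal.mem_span_singleton_self _)
  have hm1 : ∀ s, m s ≤ m (s + 1) := fun s => by
    obtain ⟨z, hz, hz'⟩ := hz (s + 1)
    exact Ex_pow_dvd.1 (hz' ▸ hd s z (h1 s.le_succ hz))
  have hm2 : ∀ s, m (s + 1) ≤ m s + 1 := fun s => by
    obtain ⟨z, hz, hz'⟩ := hz s
    have := hd _ _ (h2 s z hz)
    rw [map_smul, smul_eq_mul, hz', ← pow_succ'] at this
    exact Ex_pow_dvd.1 this
  have hm0 : ∀ s, m 0 ≤ m s := fun s => monotone_nat_of_le_succ hm1 (Nat.zero_le s)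
  obtain ⟨al, hal⟩ : ∃ al : ℕ → ℕ, ∀ s, m s = al s + m 0 :=
    ⟨fun s => m s - m 0, fun s => (Nat.sub_add_cancel (hm0 s)).symm⟩
  have al0 : al 0 = 0 := by have := hal 0; omega
  have step : ∀ s, al (s + 1) = al s ∨ al (s + 1) = al s + 1 := fun s => by
    have := hal s; have := hal (s + 1); have := hm1 s; have := hm2 s; omega
  have hadd : ∀ s k, al (s + k) ≤ al s + k := fun s k => by
    induction k with
    | zero => simp
    | succ k ih => rcases step (s + k) with h | h <;> rw [← add_assoc] <;> omega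
  have hle : ∀ s, al s ≤ s := fun s => by simpa [al0] using hadd 0 s
  obtain ⟨z, hz0, hz0'⟩ := hz 0
  have hδ : ∀ (s : ℕ) (φ : K⟦X⟧), δ ((X : K⟦X⟧) ^ al s • (z + φ • e)) = X ^ m s := fun s φ => by
    rw [map_smul, map_add, map_smul, h5, smul_zero, add_zero, hz0', smul_eq_mul, ← pow_add, hal s]
  have hrep : ∀ (s : ℕ) (φ : K⟦X⟧), (X : K⟦X⟧) ^ al s • (z + φ • e) ∈ G s → ∀ v ∈ G s,
      ∃ f g : K⟦X⟧, X ^ s ∣ f ∧ v = f • e + g • (X : K⟦X⟧) ^ al s • (z + φ • e) :=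
    fun s φ hφ v hv => by
      obtain ⟨g, hg⟩ := hd s v hv
      obtain ⟨c, hc, hc'⟩ := hk s _ (sub_mem hv ((G s).smul_mem g hφ))
        (by rw [map_sub, map_smul, hδ, hg, smul_eq_mul, mul_comm, sub_self])
      exact ⟨c, g, hc, eq_add_of_sub_eq hc'⟩
  have hco : ∀ (s : ℕ) (φ ψ : K⟦X⟧), (X : K⟦X⟧) ^ al s • (z + φ • e) ∈ G s →
      ((X : K⟦X⟧) ^ al s • (z + ψ • e) ∈ G s ↔ X ^ (s - al s) ∣ ψ - φ) := fun s φ ψ hφ => by
    have e1 : (X : K⟦X⟧) ^ al s • (z + ψ • e) =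
        (X : K⟦X⟧) ^ al s • (z + φ • e) + (X ^ al s * (ψ - φ)) • e := by
      rw [mul_smul, ← smul_add, add_assoc, ← add_smul, add_sub_cancel]
    rw [e1, (G s).add_mem_iff_right hφ, he]
    conv_lhs => rw [← Nat.add_sub_cancel' (hle s), pow_add]
    rw [Nat.add_sub_cancel' (hle s)]
    exact mul_dvd_mul_iff_left (pow_ne_zero _ X_ne_zero)
  have hA : ∀ s, ∃ φ : K⟦X⟧, (X : K⟦X⟧) ^ al s • (z + φ • e) ∈ G s := fun s => by
    induction s with
    | zero => exact ⟨0, by simpa [al0] using hz0⟩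
    | succ s ih =>
      obtain ⟨φ, hφ⟩ := ih
      rcases step s with h | h
      · obtain ⟨y, hy, hy'⟩ := hz (s + 1)
        obtain ⟨_, ⟨c, rfl⟩, hc⟩ := hk s _ (sub_mem (h1 s.le_succ hy) hφ)
          (by rw [map_sub, hδ, hy', hal s, hal (s + 1), h, sub_self])
        refine ⟨φ + X ^ (s - al s) * c, ?_⟩
        have e1 : (X : K⟦X⟧) ^ s = X ^ al s * X ^ (s - al s) := by
          rw [← pow_add, Nat.add_sub_cancel' (hle s)]
        have e2 : (X : K⟦X⟧) ^ al s • (z + (φ + X ^ (s - al s) * c) • e) = y := by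
          rw [eq_add_of_sub_eq hc, e1, mul_assoc, mul_smul, ← smul_add, add_smul, ← add_assoc,
            add_comm]
        rwa [h, e2]
      · exact ⟨φ, by rw [h, pow_succ', mul_smul]; exact h2 s _ hφ⟩
  have hnest : ∀ (ψ : K⟦X⟧) (s k : ℕ), (X : K⟦X⟧) ^ al (s + k) • (z + ψ • e) ∈ G (s + k) →
      (X : K⟦X⟧) ^ al s • (z + ψ • e) ∈ G s := fun ψ s k hψ => by
    induction k with
    | zero => exact hψ
    | succ k ih =>
      refine ih ?_
      rw [← add_assoc] at hψ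
      rcases step (s + k) with h | h
      · exact h1 (s + k).le_succ (h ▸ hψ)
      · obtain ⟨φ, hφ⟩ := hA (s + k)
        have := (hco (s + k + 1) φ ψ (by rw [h, pow_succ', mul_smul]; exact h2 _ _ hφ)).1 hψ
        rw [h, Nat.add_sub_add_right] at this
        exact (hco _ φ ψ hφ).2 this
  have unb : ∀ k, ∃ s, al s + k ≤ s := fun k => by
    induction k with
    | zero => exact ⟨0, by simp [al0]⟩
    | succ k ih =>
      obtain ⟨s, hs⟩ := ih
      obtain ⟨t, ht, v, hv, hv'⟩ := h8 s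
      obtain ⟨j, rfl⟩ := Nat.exists_eq_add_of_le ht
      have := hadd s j
      rcases step (s + j) with h | h
      · exact ⟨s + j + 1, by omega⟩
      · obtain ⟨φ, hφ⟩ := hA (s + j)
        obtain ⟨_, g, ⟨f, rfl⟩, rfl⟩ := hrep (s + j + 1) φ
          (by rw [h, pow_succ', mul_smul]; exact h2 _ _ hφ) v hv
        refine absurd ?_ (hv' _ (add_mem ((he (s + j) _).2 (dvd_mul_right _ f))
          ((G (s + j)).smul_mem g hφ)))
        rw [h, pow_succ', pow_succ', mul_assoc, mul_smul, mul_smul X, smul_add X, smul_comm g X]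
  choose φ hφ using hA
  choose σ hσ using unb
  have hc : ∀ i s t, i < s - al s → i < t - al t → coeff i (φ s) = coeff i (φ t) := by
    intro i s t hs ht
    wlog hst : s ≤ t generalizing s t
    · exact (this t s ht hs (by omega)).symm
    obtain ⟨k, rfl⟩ := Nat.exists_eq_add_of_le hst
    have := X_pow_dvd_iff.1 ((hco s _ _ (hφ s)).1 (hnest _ s k (hφ _))) i hs
    rw [map_sub, sub_eq_zero] at this
    exact this.symm
  have hfin : ∀ s, (X : K⟦X⟧) ^ al s •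
      (z + (PowerSeries.mk fun i => coeff i (φ (σ (i + 1)))) • e) ∈ G s := fun s =>
    (hco s _ _ (hφ s)).2 (X_pow_dvd_iff.2 fun i hi => by
      rw [map_sub, coeff_mk, hc i s (σ (i + 1)) hi (by have := hσ (i + 1); omega), sub_self])
  refine ⟨z + (PowerSeries.mk fun i => coeff i (φ (σ (i + 1)))) • e, al, ?_, al0, step,
    fun k => ⟨_, hσ k⟩, fun s v => ⟨fun hv => ?_, ?_⟩⟩
  · rw [map_add, map_smul, h5, smul_zero, add_zero, hz0']
    exact pow_ne_zero _ X_ne_zero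
  · obtain ⟨f, g, hf, rfl⟩ := hrep s _ (hfin s) v hv
    exact ⟨f, g * X ^ al s, hf, dvd_mul_left _ _, by rw [mul_smul]⟩
  · rintro ⟨f, _, hf, ⟨g, rfl⟩, rfl⟩
    refine add_mem ((he s f).2 hf) ?_
    rw [mul_comm, mul_smul]
    exact (G s).smul_mem g (hfin s)

lemma Ex_prop {p q f g : K⟦X⟧} (hp : p ≠ 0) (h : p * g = q * f) :
    (∃ c, f = c * p ∧ g = c * q) ∨ ∃ c, p = X * c * f ∧ q = X * c * g := by
  by_cases hpf : p ∣ f
  · obtain ⟨c, rfl⟩ := hpf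
    exact Or.inl ⟨c, mul_comm _ _, mul_left_cancel₀ hp (by rw [h]; ring)⟩
  · obtain ⟨c, rfl⟩ := (ValuationRing.dvd_total p f).resolve_left hpf
    have hc : X ∣ c := X_dvd_iff.2 (by
      by_contra hd
      exact hpf ((isUnit_iff_constantCoeff.2 (IsUnit.mk0 _ hd)).mul_right_dvd.2 dvd_rfl))
    obtain ⟨d, rfl⟩ := hc
    exact Or.inr ⟨d, mul_comm _ _, mul_left_cancel₀ (left_ne_zero_of_mul hp)
      (by rw [mul_comm f q, ← h]; ring)⟩

end

theorem exStmt : ExStmt := by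
  intro K L _ _ _ _ _ x a b hlim hT hind hji ⟨n, v, hv, hv'⟩ hinf
  let φ : (K⟦X⟧ × K⟦X⟧) →ₗ[K⟦X⟧] L :=
    (LinearMap.toSpanSingleton K⟦X⟧ L a).coprod (LinearMap.toSpanSingleton K⟦X⟧ L b)
  have hφ : ∀ f g : K⟦X⟧, φ (f, g) = f • a + g • b := fun _ _ => rfl
  have hinj : ∀ y, φ y = 0 → y = 0 := fun ⟨f, g⟩ hy => by
    obtain ⟨-, rfl, rfl⟩ := hind 0 f g (by rw [zero_smul, zero_add, ← hφ, hy])
    rfl
  have hsur : ∀ w ∈ gam K L (n + 2), ∃ y, φ y = w := fun w hw =>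
    (gam_succ_le (W := (LinearMap.range φ).restrictScalars K)).2 (fun u w _ => by
      obtain ⟨f, g, h⟩ := hT.der u w
      exact ⟨(f, g), h.symm⟩) hw
  let G : ℕ → Submodule K⟦X⟧ (K⟦X⟧ × K⟦X⟧) := fun s =>
    { carrier := {y | φ y ∈ gam K L (n + 2 + s)}
      add_mem' := fun h h' => by
        rw [Set.mem_ofPred_eq, map_add]; exact add_mem h h'
      zero_mem' := by
        rw [Set.mem_ofPred_eq, map_zero]; exact zero_mem _
      smul_mem' := fun c y h => by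
        rw [Set.mem_ofPred_eq, map_smul]; exact smul_mem_gam hT.act c h }
  have hG : ∀ s y, y ∈ G s ↔ φ y ∈ gam K L (n + 2 + s) := fun _ _ => Iff.rfl
  obtain ⟨⟨p, q⟩, he⟩ := hsur _ (X_pow_smul_mem hT.act 2 hv)
  have h2 : ∀ s, ∀ y ∈ G s, (X : K⟦X⟧) • y ∈ G (s + 1) := fun s y hy => by
    rw [hG, map_smul, hT.act]
    exact lie_mem_gam_succ x hy
  have h4 : ∀ s, (X : K⟦X⟧) ^ s • (p, q) ∉ G (s + 1) := fun s hs => by
    rw [hG, map_smul, he, ← mul_smul, ← pow_add, X_pow_smul hT.act] at hs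
    exact hv' (s + 2) (gam_anti (by omega) hs)
  have hne : (p, q) ≠ 0 := fun h => h4 0 (by rw [h, smul_zero]; exact zero_mem _)
  let δ : (K⟦X⟧ × K⟦X⟧) →ₗ[K⟦X⟧] K⟦X⟧ :=
    p • LinearMap.snd K⟦X⟧ K⟦X⟧ K⟦X⟧ - q • LinearMap.fst K⟦X⟧ K⟦X⟧ K⟦X⟧
  have hδ : ∀ f g : K⟦X⟧, δ (f, g) = p * g - q * f := fun _ _ => rfl
  have h5 : δ (p, q) = 0 := by rw [hδ]; ring
  obtain ⟨h, al, hh, al0, step, unb, hiff⟩ := Ex_core G δ (p, q)
    (fun s t hst y hy => gam_anti (Nat.add_le_add_left hst _) hy) h2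
    (by rw [hG, he]; exact X_pow_smul_mem hT.act 2 hv) h4 h5
    (fun ⟨f, g⟩ hy h0 => by
      rw [hδ, sub_eq_zero] at h0
      have h9 : (∃ c, f = c * p ∧ g = c * q) ∨ ∃ c, p = X * c * f ∧ q = X * c * g := by
        by_cases hp : p = 0
        · rcases Ex_prop (fun hq : q = 0 => hne (by rw [hp, hq]; rfl)) h0.symm with
            ⟨c, h, h'⟩ | ⟨c, h, h'⟩
          exacts [Or.inl ⟨c, h', h⟩, Or.inr ⟨c, h', h⟩]
        · exact Ex_prop hp h0
      rcases h9 with ⟨c, rfl, rfl⟩ | ⟨c, h, h'⟩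
      · exact ⟨c, rfl⟩
      · refine absurd ?_ (h4 0)
        have := h2 0 _ ((G 0).smul_mem c hy)
        rwa [← mul_smul, Prod.smul_mk, smul_eq_mul, smul_eq_mul, ← h, ← h', ← one_smul K⟦X⟧ (p, q),
          ← pow_zero (X : K⟦X⟧)] at this)
    (by
      have hX : ∀ y, (X : K⟦X⟧) ^ (n + 2) • y ∈ G 0 := fun y => by
        rw [hG, map_smul]
        simpa using X_pow_smul_mem hT.act (n + 2) (n := 0) (v := φ y) trivial
      by_contra! h0
      have e1 := h0 _ (hX (1, 0))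
      have e2 := h0 _ (hX (0, 1))
      rw [map_smul, hδ, smul_eq_mul, mul_eq_zero] at e1 e2
      have e3 := e1.resolve_left (pow_ne_zero _ X_ne_zero)
      have e4 := e2.resolve_left (pow_ne_zero _ X_ne_zero)
      exact hne (Prod.ext (by simpa using e4) (by simpa using e3)))
    (fun N => by
      obtain ⟨k, hk, w, hw, hw'⟩ := hinf (n + 2 + N)
      obtain ⟨s, rfl⟩ := Nat.exists_eq_add_of_le (le_trans (Nat.le_add_right _ _) hk)
      obtain ⟨y, rfl⟩ := hsur w (gam_anti (by omega) hw)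
      refine ⟨s, by omega, y, hw, fun y' hy' e => hw' _ hy' ?_⟩
      rw [e, map_smul, hT.act])
  let ψ : (K⟦X⟧ × K⟦X⟧) →ₗ[K⟦X⟧] L :=
    (LinearMap.toSpanSingleton K⟦X⟧ L (φ (p, q))).coprod (LinearMap.toSpanSingleton K⟦X⟧ L (φ h))
  have hψ : ∀ f g : K⟦X⟧, ψ (f, g) = f • φ (p, q) + g • φ h := fun _ _ => rfl
  obtain ⟨r, hr⟩ := (ψ.restrictScalars K).exists_leftInverse_of_injective (by
    rw [LinearMap.ker_eq_bot']
    rintro ⟨f, g⟩ h0
    have e1 : f • (p, q) + g • h = 0 := hinj _ (by rw [map_add, map_smul, map_smul]; exact h0)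
    have e2 := congrArg δ e1
    rw [map_add, map_smul, map_smul, h5, smul_zero, zero_add, map_zero, smul_eq_mul] at e2
    obtain rfl := (mul_eq_zero.1 e2).resolve_right hh
    rw [zero_smul, add_zero] at e1
    obtain rfl := (smul_eq_zero.1 e1).resolve_right hne
    rfl)
  have hr' : ∀ f g : K⟦X⟧, r (f • φ (p, q) + g • φ h) = (f, g) := fun f g =>
    LinearMap.congr_fun hr (f, g)
  refine ⟨{ x := x, e := φ (p, q), h := φ h, n0 := n + 2, al := al
            pE := (LinearMap.fst K _ _).comp r, pZ := (LinearMap.snd K _ _).comp r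
            lim := hlim, act := hT.act, al0 := al0, step := step, unb := unb, ji := hji
            pE_eq := fun f g => by rw [LinearMap.comp_apply, hr']; rfl
            pZ_eq := fun f g => by rw [LinearMap.comp_apply, hr']; rfl
            gam_iff := fun s w => ⟨fun hw => ?_, ?_⟩ }⟩
  · obtain ⟨y, rfl⟩ := hsur w (gam_anti (Nat.le_add_right _ _) hw)
    obtain ⟨f, g, hf, hg, rfl⟩ := (hiff s y).1 hw
    exact ⟨f, g, hf, hg, by rw [map_add, map_smul, map_smul]⟩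
  · rintro ⟨f, g, hf, hg, rfl⟩
    have := (hiff s _).2 ⟨f, g, hf, hg, rfl⟩
    rwa [hG, map_add, map_smul, map_smul] at this

end Pool.Agent.P78.U1
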