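import Pool.Agent.Lib.MP_78c6b1_al.U1.Blocks
import Pool.Agent.Lib.MP_78c6b1_al.Lim.Generic

/-! The maximal weight of the exact lane and the leading coefficients of its brackets. -/

namespace Pool.Agent.P78.U1

open PowerSeries Filter

variable {K L : Type} [Field K] [LieRing L] [LieAlgebra K L] [Module K⟦X⟧ L]
  [IsScalarTower K K⟦X⟧ L] [CharZero K]

namespace Dat

variable {D : Dat K L}

variable (D) in
/-- `E t` may be given the weight `t + A / 2`. -/
def P (A R : ℕ) : Prop := ∀ s t, R ≤ s → R ≤ t →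
  ⁅D.E s, D.E t⁆ ∈ D.Box (s + t + (A + 1) / 2) (D.cnt (s + t + A))

omit [CharZero K] in
lemma P_zero : D.P 0 0 := fun s t _ _ =>
  mem_box_mono (gam_gam (E_mem s _) (E_mem t _)) le_rfl (cnt_le.2 (le_sg_al le_rfl))

omit [CharZero K] in
lemma cnt_succ_le (w : ℕ) : D.cnt (w + 1) ≤ D.cnt w + 1 := by
  by_cases h : D.InS w
  · exact h.succ.le
  · rw [cnt_succ h]; omega

lemma negl {A R : ℕ} (h : D.P A R) (s : ℕ) : ∃ T, ∀ r t, s ≤ r → T ≤ t →
    X ^ D.cnt (r + t + A) ∣ D.pZ ⁅D.E r, D.E t⁆ := by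
  suffices ∀ j s, R ≤ s + j → ∃ T, ∀ r t, s ≤ r → T ≤ t →
      X ^ D.cnt (r + t + A) ∣ D.pZ ⁅D.E r, D.E t⁆ from this R s (by omega)
  intro j
  induction j with
  | zero => exact fun s hs => ⟨R, fun r t hr ht => (h r t (by omega) ht).2.2⟩
  | succ j ih =>
    intro s hs
    obtain ⟨T, hT⟩ := ih (s + 1) (by omega)
    have h1 : ∀ k, X ^ min k (D.cnt (s + (T + k) + A)) ∣ D.pZ ⁅D.E s, D.E (T + k)⁆ := fun k => by
      induction k with
      | zero => simp
      | succ k ih' =>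
        have e := leibZ (D := D) (D.E s) (e_mem (X ^ (T + k)))
        rw [← E, X_E, X_E, ← sub_eq_iff_eq_add'] at e
        rw [← add_assoc T, ← e]
        refine dvd_sub ((pow_dvd_pow _ ?_).trans (X_mul_dvd ih'))
          ((pow_dvd_pow _ ?_).trans (hT (s + 1) (T + k) le_rfl (by omega)))
        · have := cnt_succ_le (D := D) (s + (T + k) + A)
          rw [show s + (T + k + 1) + A = s + (T + k) + A + 1 by ring]; omega
        · rw [show s + (T + k + 1) + A = s + 1 + (T + k) + A by ring]; omega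
    refine ⟨T + 2 * (s + T + A) + 1, fun r t hr ht => ?_⟩
    rcases hr.eq_or_lt with rfl | hr
    · obtain ⟨k, rfl⟩ : ∃ k, t = T + k := ⟨t - T, by omega⟩
      have h2 := h1 k
      rwa [min_eq_right (cnt_le.2 (by
        have := sg_add (D := D) 0 k
        rw [zero_add] at this; omega))] at h2
    · exact hT r t hr (by omega)

lemma exists_not_P [Uncountable K] : ∃ A, ∀ R, ¬ D.P A R := by
  by_contra! h
  obtain ⟨G, hG⟩ := gap_bdd (D := D)
  have hG' : ∀ j k, D.sg (j + k) ≤ D.sg j + k * G := fun j k => by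
    induction k with
    | zero => simp
    | succ k ih => have := hG (j + k); rw [← add_assoc, add_mul]; omega
  obtain ⟨c, hc⟩ : ∃ c, c = cod (D.Box 0 0) + 3 := ⟨_, rfl⟩
  obtain ⟨R, hR⟩ := h (2 * c)
  obtain ⟨R', hR'⟩ := h (c + (R + 2 * c + 1) * G)
  obtain ⟨T, hT⟩ := negl hR' (R + 2 * c)
  have h1 := sg_add (D := D) 0 (2 * (R + T + c))
  have h2 := sg_add (D := D) 0 (R + 2 * c)
  rw [zero_add] at h1 h2
  generalize hj : 2 * (R + T + c) = j at h1
  obtain ⟨t, ht⟩ : ∃ t, D.sg j = t + c := ⟨D.sg j - c, by omega⟩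
  refine absurd (D.lim.kappa (opn_box (D := D) (R + 2 * c) (R + 2 * c)) (opn_box (D := D) t j)
    (opn_box (D := D) (R + 2 * c + t + c) (j + (R + 2 * c + 1))) fun u hu v hv =>
    box_lie_box (opn_box _ _) (fun p q hp hq => ?_) (fun p n hp hn => ?_) (fun n q hn hq => ?_)
      (fun n m hn hm => ?_) hu hv) ?_
  rotate_right
  · rw [cod_box, cod_box (R + 2 * c), cod_box t]; omega
  · refine ⟨lie_M _ (e_mem _), (pow_dvd_pow _ (by omega)).trans
      (hR p q (by omega) (by omega)).2.1, (pow_dvd_pow _ ?_).trans (hT p q hp (by omega))⟩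
    rw [← cnt_sg (D := D) (j + (R + 2 * c + 1))]
    exact cnt_mono ((hG' _ _).trans (by omega))
  · rw [← lie_skew, neg_mem_iff]
    have := sg_strict (D := D).monotone hn
    exact mem_box_mono (NE (j := n) (H_N n) (by simp) p) (by omega) (by omega)
  · have := sg_strict (D := D).monotone hn
    exact mem_box_mono (NE (j := n) (H_N n) (by simp) q) (by omega) (by omega)
  · exact N_box (HH' n m) ((pow_dvd_pow _ (by omega)).trans (idx D.h n m)) _

lemma exists_max [Uncountable K] : ∃ A R, D.P A R ∧ ∀ R, ¬ D.P (A + 1) R := by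
  by_contra! h
  obtain ⟨A, hA⟩ := exists_not_P (D := D)
  induction A with
  | zero => exact hA 0 P_zero
  | succ A ih => exact ih fun R hR => (h A R hR).elim hA

variable (D) in
/-- The leading coefficient along the exact lane. -/
noncomputable def cc (A s t : ℕ) : K := coeff (s + t + A / 2) (D.pE ⁅D.E s, D.E t⁆)

open Classical in
variable (D) in
/-- The leading coefficient along the fast lane. -/
noncomputable def bb (A s t : ℕ) : K :=
  if D.InS (s + t + A) then coeff (D.cnt (s + t + A)) (D.pZ ⁅D.E s, D.E t⁆) else 0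

variable {A R : ℕ}

omit [CharZero K] in
lemma P.lead (h : D.P A R) {s t : ℕ} (hs : R ≤ s) (ht : R ≤ t) :
    ⁅D.E s, D.E t⁆ - D.cc A s t • D.E (s + t + A / 2) - D.bb A s t • D.H (D.cnt (s + t + A)) ∈
      D.Box (s + t + A / 2 + 1) (D.cnt (s + t + A + 1)) := by
  have h1 := sub_E (mem_box_mono (h s t hs ht) (show s + t + A / 2 ≤ _ by omega) le_rfl)
  rw [bb, cc]
  split_ifs with e
  · rw [e.succ]
    simpa using sub_H h1
  · rw [cnt_succ e]
    simpa using h1

omit [CharZero K] in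
lemma P.freq (h : D.P A R) (h' : ∀ R, ¬ D.P (A + 1) R) (N : ℕ) :
    ∃ s t, N ≤ s ∧ N ≤ t ∧ (D.cc A s t ≠ 0 ∨ D.bb A s t ≠ 0) := by
  by_contra! e
  refine h' (N + R) fun s t hs ht => ?_
  have h1 := h.lead (s := s) (t := t) (by omega) (by omega)
  obtain ⟨e1, e2⟩ := e s t (by omega) (by omega)
  rw [e1, e2, zero_smul, zero_smul, sub_zero, sub_zero] at h1
  exact mem_box_mono h1 (by omega) le_rfl

omit [CharZero K] in
lemma P.cc_odd (h : D.P A R) (hA : A % 2 = 1) {s t : ℕ} (hs : R ≤ s) (ht : R ≤ t) :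
    D.cc A s t = 0 := coeff_eq_zero (h s t hs ht).2.1 (by omega)

omit [CharZero K] [IsScalarTower K K⟦X⟧ L] in
lemma cc_anti (s t : ℕ) : D.cc A t s = - D.cc A s t := by
  rw [cc, cc, ← lie_skew, map_neg, map_neg, add_comm t s]

omit [CharZero K] in
lemma bb_anti (s t : ℕ) : D.bb A t s = - D.bb A s t := by
  rw [bb, bb, ← lie_skew, map_neg, map_neg, add_comm t s]
  split_ifs <;> simp

omit [CharZero K] [IsScalarTower K K⟦X⟧ L] in
lemma cc_pas (s t : ℕ) : D.cc A s t = D.cc A (s + 1) t + D.cc A s (t + 1) := by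
  have e := congrArg (coeff (s + t + A / 2 + 1)) (leibE (D := D) (D.E s) (e_mem (X ^ t)))
  rw [← E, X_E, X_E, coeff_succ_X_mul, map_add] at e
  rw [cc, cc, cc, e]
  congr 3 <;> ring

omit [CharZero K] in
lemma bb_supp {s t : ℕ} (h : D.bb A s t ≠ 0) : D.InS (s + t + A) := by
  by_contra e; exact h (if_neg e)

omit [CharZero K] in
lemma P.rule (h : D.P A R) {s t : ℕ} (hs : R ≤ s) (ht : R ≤ t) (h1 : D.InS (s + t + 1 + A)) :
    D.bb A s t = D.bb A (s + 1) t + D.bb A s (t + 1) := by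
  have e := congrArg (coeff (D.cnt (s + t + A + 1))) (leibZ (D := D) (D.E s) (e_mem (X ^ t)))
  rw [← E, X_E, X_E, map_add] at e
  rw [add_right_comm] at h1
  rw [bb, bb, bb, show s + 1 + t + A = s + t + A + 1 by ring,
    show s + (t + 1) + A = s + t + A + 1 by ring, if_pos h1, if_pos h1, ← e]
  split_ifs with h2
  · rw [h2.succ, coeff_succ_X_mul]
  · rw [cnt_succ h2, coeff_eq_zero (X_mul_dvd (h s t hs ht).2.2) (Nat.lt_succ_self _)]

lemma P.trip (h : D.P A R) {r s t : ℕ} (hr : R ≤ r) (hs : R ≤ s) (ht : R ≤ t) :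
    coeff (r + s + t + A) (D.pE ⁅⁅D.E r, D.E s⁆, D.E t⁆) =
      D.cc A r s * coeff (r + s + t + A) (D.pE ⁅D.E (r + s + A / 2), D.E t⁆) +
        D.bb A r s * D.u (D.cnt (r + s + A)) t := by
  have h1 := coeff_eq_zero (lie_wt (k := r + s + t + A + 1) (w := 0) h (h.lead hr hs)
    (E_mem t (D.cnt (r + s + t + A + 1))) (by omega) ht (by omega) (by omega) (by omega) (by omega)
    (by omega) (by omega) (by omega)).2.1 (Nat.lt_succ_self _)
  simp only [sub_lie, smul_lie, map_sub, map_smul, smul_eq_mul] at h1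
  by_cases e : D.bb A r s = 0
  · rw [e] at h1 ⊢; linear_combination h1
  · rw [u, dg, bb_supp e, show t + (r + s + A) = r + s + t + A by ring]
    linear_combination h1

lemma P.jac (h : D.P A R) {r s t : ℕ} (hr : R ≤ r) (hs : R ≤ s) (ht : R ≤ t) :
    D.cc A r s * coeff (r + s + t + A) (D.pE ⁅D.E (r + s + A / 2), D.E t⁆) +
      D.cc A s t * coeff (s + t + r + A) (D.pE ⁅D.E (s + t + A / 2), D.E r⁆) +
      D.cc A t r * coeff (t + r + s + A) (D.pE ⁅D.E (t + r + A / 2), D.E s⁆) +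
      (D.bb A r s * D.u (D.cnt (r + s + A)) t + D.bb A s t * D.u (D.cnt (s + t + A)) r +
        D.bb A t r * D.u (D.cnt (t + r + A)) s) = 0 := by
  have e : ⁅⁅D.E r, D.E s⁆, D.E t⁆ + ⁅⁅D.E s, D.E t⁆, D.E r⁆ + ⁅⁅D.E t, D.E r⁆, D.E s⁆ = 0 := by
    rw [← lie_skew _ (D.E t), ← lie_skew ⁅D.E s, D.E t⁆, ← lie_skew ⁅D.E t, D.E r⁆, ← neg_add,
      ← neg_add, lie_jacobi, neg_zero]
  have e' := congrArg (fun v => coeff (r + s + t + A) (D.pE v)) e
  have e1 := h.trip hr hs ht
  have e2 := h.trip hs ht hr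
  have e3 := h.trip ht hr hs
  simp only [map_add, map_zero, show s + t + r = r + s + t by ring,
    show t + r + s = r + s + t by ring] at e' e2 e3 ⊢
  linear_combination e' - e1 - e2 - e3

lemma P.inv (h : D.P A R) (n : ℕ) {r s : ℕ} (hr : R + 2 * A ≤ r) (hs : R + 2 * A ≤ s) :
    ⁅D.H n, ⁅D.E r, D.E s⁆⁆ - D.u n r • ⁅D.E (r + D.sg n), D.E s⁆ -
      D.u n s • ⁅D.E r, D.E (s + D.sg n)⁆ ∈
      D.Box (r + s + A / 2 + D.sg n + 1) (D.cnt (r + s + A + D.sg n + 1)) := by
  have key : ∀ r s, R + 2 * A ≤ r → R + 2 * A ≤ s →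
      ⁅⁅D.H n, D.E r⁆ - D.u n r • D.E (r + D.sg n), D.E s⁆ ∈
        D.Box (r + s + A / 2 + D.sg n + 1) (D.cnt (r + s + A + D.sg n + 1)) := fun r s hr hs =>
    lie_wt h (sub_E (NE' (H_N n) (p := D.sg n) (by simp [cnt_sg]) r))
      (E_mem s (D.cnt (r + s + A + D.sg n + 1))) (by omega) (by omega) (by omega) (by omega)
      (by omega) (by omega) (by omega) (by omega) (by omega)
  have := sub_mem (key r s hr hs) (add_comm s r ▸ key s r hs hr)
  convert this using 1
  rw [leibniz_lie, sub_lie, sub_lie, smul_lie, smul_lie, ← lie_skew (D.E r) ⁅_, _⁆,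
    ← lie_skew (D.E r) (D.E (s + _)), smul_neg]
  abel

lemma P.invE (h : D.P A R) (n : ℕ) {r s : ℕ} (hr : R + 2 * A ≤ r) (hs : R + 2 * A ≤ s) :
    D.u n (r + s + A / 2) * D.cc A r s =
      D.u n r * D.cc A (r + D.sg n) s + D.u n s * D.cc A r (s + D.sg n) := by
  have h1 := coeff_eq_zero (h.inv n hr hs).2.1 (Nat.lt_succ_self _)
  have h2 := coeff_eq_zero (lie_wt (k := r + s + A / 2 + D.sg n + 1) (w := 0) h
    (mem_box_mono (H_mem n (R + D.sg n)) le_rfl (cnt_sg n).le)
    (h.lead (s := r) (t := s) (by omega) (by omega)) (by omega) (by omega) (by omega) (by omega)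
    (by omega) (by omega) (by omega) (by omega) (by omega)).2.1 (Nat.lt_succ_self _)
  simp only [lie_sub, lie_smul, map_sub, map_smul, smul_eq_mul, HH, map_zero] at h1 h2
  rw [cc.eq_1 D A (r + _), cc.eq_1 D A r (s + _), u, dg, show r + D.sg n + s + A / 2 = r + s + A / 2 + D.sg n by ring,
    show r + (s + D.sg n) + A / 2 = r + s + A / 2 + D.sg n by ring]
  linear_combination h1 - h2

end Dat

end Pool.Agent.P78.U1
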