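import Pool.Agent.Lib.MP_78c6b1_al.U1.NumS

/-! Rigidity of the principal gradation of the loop algebra of `sl 2`: the abstract step. -/

namespace Pool.Agent.P78.U1

/-- A filtration with two coordinate functionals in each degree. -/
structure Frame (K L : Type) [Field K] [LieRing L] [LieAlgebra K L] where
  F : ℕ → Submodule K L
  N : Submodule K L
  E : Submodule K L
  lam : ℕ → L →ₗ[K] K
  mu : ℕ → L →ₗ[K] K
  R : ℕ
  anti : Antitone F
  lie : ∀ {m n k : ℕ} {u v : L}, u ∈ F m → v ∈ F n → R ≤ m → R ≤ n → k ≤ m + n → ⁅u, v⁆ ∈ F k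
  lam0 : ∀ {n : ℕ}, R ≤ n → ∀ v ∈ F (n + 1), lam n v = 0
  mu0 : ∀ {n : ℕ}, R ≤ n → ∀ v ∈ F (n + 1), mu n v = 0
  lamN : ∀ (n : ℕ) {v : L}, v ∈ N → lam n v = 0
  muE : ∀ (n : ℕ) {v : L}, v ∈ E → mu n v = 0
  muev : ∀ {n : ℕ}, n % 2 = 0 → ∀ v, mu n v = 0
  step : ∀ {n : ℕ} {v : L}, R ≤ n → v ∈ F n → lam n v = 0 → mu n v = 0 → v ∈ F (n + 1)
  NN : ∀ {u v : L}, u ∈ N → v ∈ N → ⁅u, v⁆ ∈ N
  negl : ∀ i, ∃ R', ∀ (σ r : ℕ) (u v : L), R' ≤ r → u ∈ N → u ∈ F σ → v ∈ E → v ∈ F r →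
    mu (r + σ + i) ⁅u, v⁆ = 0

variable {K L : Type} [Field K] [LieRing L] [LieAlgebra K L]

/-- The normal form up to order `i`. -/
structure NF (Φ : Frame K L) (b : K) (i R : ℕ) (e z : ℕ → L) : Prop where
  le : Φ.R ≤ R
  eE : ∀ r, e r ∈ Φ.E
  eF : ∀ r, e r ∈ Φ.F r
  e1 : ∀ r, Φ.R ≤ r → Φ.lam r (e r) = 1
  zN : ∀ s, z s ∈ Φ.N
  zF : ∀ s, z s ∈ Φ.F s
  z1 : ∀ s, Φ.R ≤ s → s % 2 = 1 → Φ.mu s (z s) = 1
  z0 : ∀ s, s % 2 = 0 → z s = 0
  r1 : ∀ σ r, σ % 2 = 1 → R ≤ σ → R ≤ r → ⁅z σ, e r⁆ - e (r + σ) ∈ Φ.F (r + σ + i)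
  r2 : ∀ r s, R ≤ r → R ≤ s → ⁅e r, e s⁆ - ((-1) ^ r * b) • z (r + s) ∈ Φ.F (r + s + i)
  r3 : ∀ σ τ, R ≤ σ → R ≤ τ → ⁅z σ, z τ⁆ ∈ Φ.F (σ + τ + i)

variable {Φ : Frame K L} {b : K} {i R : ℕ} {e z : ℕ → L}

lemma NF.split (h : NF Φ b i R e z) {n : ℕ} (hn : Φ.R ≤ n) {v : L} (hv : v ∈ Φ.F n) :
    v - Φ.lam n v • e n - Φ.mu n v • z n ∈ Φ.F (n + 1) := by
  refine Φ.step hn (sub_mem (sub_mem hv (Submodule.smul_mem _ _ (h.eF n)))
    (Submodule.smul_mem _ _ (h.zF n))) (by simp [h.e1 n hn, Φ.lamN n (h.zN n)]) ?_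
  rcases Nat.mod_two_eq_zero_or_one n with p | p
  · exact Φ.muev p _
  · simp [h.z1 n hn p, Φ.muE n (h.eE n)]

lemma NF.ab (h : NF Φ b i R e z) (j : ℕ) : ∀ {T σ τ : ℕ} {u v : L}, u ∈ Φ.N → u ∈ Φ.F σ →
    v ∈ Φ.N → v ∈ Φ.F τ → R ≤ σ → R ≤ τ → T ≤ σ + τ + i → T ≤ σ + τ + j → ⁅u, v⁆ ∈ Φ.F T := by
  have := h.le
  induction j with
  | zero => exact fun _ a _ b c d _ e => Φ.lie a b (by omega) (by omega) e
  | succ j ih =>
    intro T σ τ u v a1 a2 b1 b2 c1 c2 d1 d2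
    have u1 := h.split (by omega) a2
    have v1 := h.split (by omega) b2
    rw [Φ.lamN _ a1, zero_smul, sub_zero] at u1
    rw [Φ.lamN _ b1, zero_smul, sub_zero] at v1
    have e1 := ih (T := T) (sub_mem a1 (Submodule.smul_mem _ _ (h.zN σ))) u1 b1 b2 (by omega) c2
      (by omega) (by omega)
    have e2 := ih (T := T) (h.zN σ) (h.zF σ) (sub_mem b1 (Submodule.smul_mem _ _ (h.zN τ))) v1 c1
      (by omega) (by omega) (by omega)
    convert add_mem (add_mem e1 (Submodule.smul_mem _ (Φ.mu σ u) e2))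
      (Submodule.smul_mem _ (Φ.mu σ u * Φ.mu τ v) (Φ.anti d1 (h.r3 σ τ c1 c2))) using 1
    simp [sub_lie, lie_sub, smul_sub, mul_smul]

/-- Functionals which vanish in degrees above `T`. -/
def Kil (Φ : Frame K L) (φ : L →ₗ[K] K) (T : ℕ) : Prop := ∀ v ∈ Φ.F (T + 1), φ v = 0

lemma Kil.lie {φ : L →ₗ[K] K} {T m n : ℕ} (h : Kil Φ φ T) {x y : L} (hx : x ∈ Φ.F m)
    (hy : y ∈ Φ.F n) (hm : Φ.R ≤ m) (hn : Φ.R ≤ n) (hT : T + 1 ≤ m + n) : φ ⁅x, y⁆ = 0 :=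
  h _ (Φ.lie hx hy hm hn hT)

lemma Kil.ad {φ : L →ₗ[K] K} {T m n : ℕ} (h : Kil Φ φ T) {x : L} (hx : x ∈ Φ.F m) (hm : Φ.R ≤ m)
    (hn : Φ.R ≤ n) (hT : T = m + n) : Kil Φ (φ ∘ₗ LieAlgebra.ad K L x) n := fun _ hv =>
  h.lie hx hv hm (by omega) (by omega)

lemma mem_of_kil {T : ℕ} {v : L} (h : ∀ φ, Kil Φ φ T → φ v = 0) : v ∈ Φ.F (T + 1) := by
  by_contra hv
  obtain ⟨φ, h1, h2⟩ := Submodule.exists_dual_map_eq_bot_of_notMem hv inferInstance
  exact h1 (h φ fun w hw => (Submodule.mem_bot K).1 (h2 ▸ Submodule.mem_map_of_mem hw))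

lemma NF.step [CharZero K] (h : NF Φ b i R e z) (hi : 1 ≤ i) (hb : b ≠ 0) :
    ∃ R' e' z', NF Φ b (i + 1) R' e' z' := by
  obtain ⟨R0, hR0⟩ := Φ.negl i
  have hle := h.le
  generalize hM : R + R0 = M
  obtain ⟨g, hg⟩ : ∃ g : ℕ → ℕ → K, ∀ σ r, g σ r = Φ.lam (r + σ + i) (⁅z σ, e r⁆ - e (r + σ)) :=
    ⟨_, fun _ _ => rfl⟩
  obtain ⟨c, hc⟩ : ∃ c : ℕ → ℕ → K, ∀ r s,
      c r s = Φ.lam (r + s + i) (⁅e r, e s⁆ - ((-1) ^ r * b) • z (r + s)) := ⟨_, fun _ _ => rfl⟩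
  obtain ⟨B, hB⟩ : ∃ B : ℕ → ℕ → K, ∀ r s, (-1) ^ r * b * B r s =
      Φ.mu (r + s + i) (⁅e r, e s⁆ - ((-1) ^ r * b) • z (r + s)) :=
    ⟨fun r s => _ / _, fun _ _ => mul_div_cancel₀ _ (by simp [hb])⟩
  obtain ⟨w, hw⟩ : ∃ w : ℕ → ℕ → K, ∀ σ τ, w σ τ = Φ.mu (σ + τ + i) ⁅z σ, z τ⁆ :=
    ⟨_, fun _ _ => rfl⟩
  have B0 : ∀ r s, (r + s + i) % 2 = 0 → B r s = 0 := fun r s p => by
    simpa [Φ.muev p, hb] using hB r s
  have A1 : ∀ {φ T}, Kil Φ φ T → ∀ σ r, σ % 2 = 1 → M ≤ σ → M ≤ r → T = r + σ + i →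
      φ ⁅z σ, e r⁆ = φ (e (r + σ)) + g σ r * φ (e T) := by
    rintro φ _ hφ σ r p a1 a2 rfl
    have := hφ _ (h.split (by omega) (h.r1 σ r p (by omega) (by omega)))
    rw [← hg, map_sub (Φ.mu _), hR0 σ r _ _ (by omega) (h.zN σ) (h.zF σ) (h.eE r) (h.eF r),
      Φ.muE _ (h.eE _)] at this
    simp only [map_sub, map_smul, smul_eq_mul] at this
    linear_combination this
  have A2 : ∀ {φ T}, Kil Φ φ T → ∀ r s, M ≤ r → M ≤ s → T = r + s + i → φ ⁅e r, e s⁆ =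
      (-1) ^ r * b * φ (z (r + s)) + c r s * φ (e T) + (-1) ^ r * b * B r s * φ (z T) := by
    rintro φ _ hφ r s a1 a2 rfl
    have := hφ _ (h.split (by omega) (h.r2 r s (by omega) (by omega)))
    rw [← hc, ← hB] at this
    simp only [map_sub, map_smul, smul_eq_mul] at this
    linear_combination this
  have A3 : ∀ {φ T}, Kil Φ φ T → ∀ σ τ, M ≤ σ → M ≤ τ → T = σ + τ + i →
      φ ⁅z σ, z τ⁆ = w σ τ * φ (z T) := by
    rintro φ _ hφ σ τ a1 a2 rfl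
    have := hφ _ (h.split (by omega) (h.r3 σ τ (by omega) (by omega)))
    rw [← hw, Φ.lamN _ (Φ.NN (h.zN σ) (h.zN τ))] at this
    simp only [map_sub, map_smul, smul_eq_mul] at this
    linear_combination this
  have C1 : ∀ {φ T}, Kil Φ φ T → ∀ σ r, σ % 2 = 1 → M ≤ σ → M ≤ r → T = r + σ →
      φ ⁅z σ, e r⁆ = φ (e T) := by
    rintro φ _ hφ σ r p a1 a2 rfl
    rw [← sub_eq_zero, ← map_sub]
    exact hφ _ (Φ.anti (by omega) (h.r1 σ r p (by omega) (by omega)))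
  have C2 : ∀ {φ T}, Kil Φ φ T → ∀ r s, M ≤ r → M ≤ s → T = r + s →
      φ ⁅e r, e s⁆ = (-1) ^ r * b * φ (z T) := by
    rintro φ _ hφ r s a1 a2 rfl
    rw [← sub_eq_zero, ← smul_eq_mul, ← map_smul, ← map_sub]
    exact hφ _ (Φ.anti (by omega) (h.r2 r s (by omega) (by omega)))
  have C3 : ∀ {φ T}, Kil Φ φ T → ∀ σ τ, M ≤ σ → M ≤ τ → T = σ + τ → φ ⁅z σ, z τ⁆ = 0 := by
    rintro φ _ hφ σ τ a1 a2 rfl
    exact hφ _ (Φ.anti (by omega) (h.r3 σ τ (by omega) (by omega)))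
  have sk : ∀ (φ : L →ₗ[K] K) (x y : L), φ ⁅x, y⁆ = - φ ⁅y, x⁆ := fun φ x y => by
    rw [← lie_skew, map_neg]
  have J1 : ∀ {φ T}, Kil Φ φ T → ∀ σ r s, σ % 2 = 1 → M ≤ σ → M ≤ r → M ≤ s → T = r + s + σ + i →
      (c r s - c (r + σ) s - c r (s + σ)) * φ (e T) + (-1) ^ r * b * ((w σ (r + s) -
        (B r (s + σ) - B (r + σ) s + g σ s - (-1) ^ i * g σ r)) * φ (z T)) = 0 := by
    intro φ T hφ σ r s p a1 a2 a3 hT
    have j := congrArg φ (leibniz_lie (z σ) (e r) (e s))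
    have j1 := A2 (hφ.ad (n := r + s + i) (h.zF σ) (by omega) (by omega) (by omega)) r s a2 a3 rfl
    have j2 := A1 (hφ.ad (n := s + σ + i) (h.eF r) (by omega) (by omega) (by omega)) σ s p a1 a3 rfl
    have j3 := A1 (hφ.ad (n := r + σ + i) (h.eF s) (by omega) (by omega) (by omega)) σ r p a1 a2 rfl
    simp only [LinearMap.comp_apply, LieAlgebra.ad_apply] at j1 j2 j3
    rw [A3 hφ σ _ a1 (by omega) (by omega), C1 hφ σ _ p a1 (by omega) (by omega),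
      C3 hφ σ _ a1 (by omega) (by omega)] at j1
    rw [A2 hφ r _ a2 (by omega) (by omega), C2 hφ r _ a2 (by omega) (by omega)] at j2
    rw [sk φ (e s) (e (r + σ)), sk φ (e s) (e (r + σ + i)), A2 hφ _ s (by omega) a3 (by omega),
      C2 hφ _ s (by omega) a3 (by omega), show r + σ + s = r + (s + σ) by ring,
      pow_add _ (r + σ), pow_add _ r σ, (Nat.odd_iff.2 p).neg_one_pow] at j3
    rw [map_add, sk φ ⁅z σ, e r⁆, j1, j2, j3] at j
    linear_combination j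
  have J2 : ∀ σ τ r, σ % 2 = 1 → τ % 2 = 1 → M ≤ σ → M ≤ τ → M ≤ r →
      w σ τ = g σ (r + τ) + g τ r - g τ (r + σ) - g σ r := by
    intro σ τ r p q a1 a2 a3
    obtain ⟨T, hT⟩ : ∃ T, T = r + σ + τ + i := ⟨_, rfl⟩
    have hφ : Kil Φ (Φ.lam T) T := Φ.lam0 (by omega)
    have j := congrArg (Φ.lam T) (lie_lie (z σ) (z τ) (e r))
    have j1 := A3 (hφ.ad (n := σ + τ + i) (h.eF r) (by omega) (by omega) (by omega)) σ τ a1 a2 rfl
    have j2 := A1 (hφ.ad (n := r + τ + i) (h.zF σ) (by omega) (by omega) (by omega)) τ r q a2 a3 rfl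
    have j3 := A1 (hφ.ad (n := r + σ + i) (h.zF τ) (by omega) (by omega) (by omega)) σ r p a1 a3 rfl
    simp only [LinearMap.comp_apply, LieAlgebra.ad_apply] at j1 j2 j3
    rw [A1 hφ σ _ p a1 (by omega) (by omega), C1 hφ σ _ p a1 (by omega) (by omega)] at j2
    rw [A1 hφ τ _ q a2 (by omega) (by omega), C1 hφ τ _ q a2 (by omega) (by omega),
      add_right_comm r σ τ] at j3
    rw [map_sub, sk _ ⁅z σ, z τ⁆, j1, j2, j3, h.e1 T (by omega)] at j
    rcases Nat.mod_two_eq_zero_or_one i with o | o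
    · rw [hw, Φ.muev (by omega)] at j ⊢
      linear_combination j
    · rw [sk _ (e r), C1 hφ _ r (by omega) (by omega) a3 (by omega), h.e1 T (by omega)] at j
      linear_combination j
  have J3 : ∀ r s t, (r + s) % 2 = 0 → (r + t) % 2 = 1 → M ≤ r → M ≤ s → M ≤ t →
      B r s + B s t + g (s + t) r - B t r - g (t + r) s = 0 := by
    intro r s t p q a1 a2 a3
    obtain ⟨T, hT⟩ : ∃ T, T = r + s + t + i := ⟨_, rfl⟩
    have hφ : Kil Φ (Φ.lam T) T := Φ.lam0 (by omega)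
    have k : ∀ r s t, M ≤ r → M ≤ s → M ≤ t → T = r + s + t + i → Φ.lam T ⁅e t, ⁅e r, e s⁆⁆ =
        -((-1) ^ r * b * (Φ.lam T ⁅z (r + s), e t⁆ + B r s)) := fun r s t a1 a2 a3 hT => by
      have j := A2 (hφ.ad (n := r + s + i) (h.eF t) (by omega) (by omega) (by omega)) r s a1 a2 rfl
      simp only [LinearMap.comp_apply, LieAlgebra.ad_apply] at j
      rw [j, C2 hφ t _ a3 (by omega) (by omega), Φ.lamN _ (h.zN _), sk _ (e t) (z (r + s))]
      rcases Nat.mod_two_eq_zero_or_one (r + s + i) with o | o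
      · rw [B0 r s o]; ring
      · rw [sk _ (e t), C1 hφ _ t o (by omega) a3 (by omega), h.e1 T (by omega)]; ring
    have j := congrArg (Φ.lam T) (lie_jacobi (e t) (e r) (e s))
    rw [map_add, map_add, k r s t a1 a2 a3 hT, k s t r a2 a3 a1 (by omega),
      k t r s a3 a1 a2 (by omega), h.z0 _ p, A1 hφ _ r (by omega) (by omega) a1 (by omega),
      A1 hφ _ s (by omega) (by omega) a2 (by omega), h.e1 T (by omega),
      show s + (t + r) = r + (s + t) by ring,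
      show (-1 : K) ^ s = (-1) ^ r from neg_one_pow_congr (by simp only [Nat.even_iff]; omega),
      show (-1 : K) ^ t = (-1) ^ (r + 1) from
        neg_one_pow_congr (by simp only [Nat.even_iff]; omega), pow_succ] at j
    refine mul_left_cancel₀ (show (-1) ^ r * b ≠ 0 by simp [hb]) ?_
    simp only [zero_lie, map_zero] at j
    linear_combination -j
  obtain ⟨R1, c0⟩ := numC0 c M fun σ r s p a1 a2 a3 => by
    have := J1 (Φ.lam0 (n := r + s + σ + i) (by omega)) σ r s p a1 a2 a3 rfl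
    rw [h.e1 _ (by omega), Φ.lamN _ (h.zN _)] at this
    linear_combination this
  obtain ⟨o, γ, R2, o0, o1, o2, o3⟩ : ∃ (o γ : ℕ → K) (R2 : ℕ), (i % 2 = 1 → ∀ σ, γ σ = 0) ∧
      (∀ σ r, σ % 2 = 1 → R2 ≤ σ → R2 ≤ r → g σ r + o r - o (r + σ) + γ σ = 0) ∧
      (∀ r s, (r + s + i) % 2 = 1 → R2 ≤ r → R2 ≤ s →
        B r s + (-1) ^ i * o r + o s - γ (r + s) = 0) ∧
      ∀ σ τ, σ % 2 = 1 → τ % 2 = 1 → R2 ≤ σ → R2 ≤ τ → w σ τ = 0 := by
    rcases Nat.mod_two_eq_zero_or_one i with p | p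
    · have w0 : ∀ σ τ, σ % 2 = 1 → τ % 2 = 1 → w σ τ = 0 := fun σ τ a b => by
        rw [hw, Φ.muev (by omega)]
      obtain ⟨o, γ, o1, o2⟩ := numEven g B M
        (fun σ τ r a b c d f => by rw [← J2 σ τ r a b c d f, w0 σ τ a b])
        fun r s t a b c d f => by
          linear_combination J3 r s t a b c d f - B0 r s (by omega)
      exact ⟨o, γ, M, by omega, o1, fun r s a b c => by
        rw [(Nat.even_iff.2 p).neg_one_pow, one_mul]; exact o2 r s (by omega) b c,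
        fun σ τ a b _ _ => w0 σ τ a b⟩
    · obtain ⟨o, R2, o1, o2, o3⟩ := numOdd g B w M J2
        (fun σ r s a a' a1 a2 a3 => by
          have := J1 (Φ.mu0 (n := r + s + σ + i) (by omega)) σ r s a a1 a2 a3 rfl
          rw [h.z1 _ (by omega) (by omega), Φ.muE _ (h.eE _), (Nat.odd_iff.2 p).neg_one_pow] at this
          refine mul_left_cancel₀ (show (-1) ^ r * b ≠ 0 by simp [hb]) ?_
          linear_combination this)
        fun r s t a b c d f => by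
          linear_combination J3 r s t a b c d f - B0 s t (by omega) + B0 t r (by omega)
      exact ⟨o, 0, R2, fun _ _ => rfl, fun σ r a b c => by simp [o1 σ r a b c],
        fun r s a b c => by
          rw [(Nat.odd_iff.2 p).neg_one_pow, Pi.zero_apply]
          linear_combination o2 r s (by omega) b c, o3⟩
  have eF' : ∀ r, e (r + i) ∈ Φ.F (r + 1) := fun r => Φ.anti (by omega) (h.eF _)
  have zF' : ∀ r, z (r + i) ∈ Φ.F (r + 1) := fun r => Φ.anti (by omega) (h.zF _)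
  refine ⟨M + R1 + R2, fun r => e r + o r • e (r + i), fun σ => z σ + γ σ • z (σ + i), by omega,
    fun r => add_mem (h.eE _) (Submodule.smul_mem _ _ (h.eE _)),
    fun r => add_mem (h.eF _) (Submodule.smul_mem _ _ (Φ.anti r.le_succ (eF' r))),
    fun r hr => by simp [h.e1 r hr, Φ.lam0 hr _ (eF' r)],
    fun r => add_mem (h.zN _) (Submodule.smul_mem _ _ (h.zN _)),
    fun r => add_mem (h.zF _) (Submodule.smul_mem _ _ (Φ.anti r.le_succ (zF' r))),
    fun r hr p => by simp [h.z1 r hr p, Φ.mu0 hr _ (zF' r)], fun s p => ?_,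
    fun σ r p a1 a2 => mem_of_kil (T := r + σ + i) fun φ hφ => ?_,
    fun r s a1 a2 => mem_of_kil (T := r + s + i) fun φ hφ => ?_,
    fun σ τ a1 a2 => mem_of_kil (T := σ + τ + i) fun φ hφ => ?_⟩
  · rcases Nat.mod_two_eq_zero_or_one i with q | q
    · simp [h.z0 s p, h.z0 (s + i) (by omega)]
    · simp [h.z0 s p, o0 q]
  · simp only [add_lie, lie_add, smul_lie, lie_smul, map_add, map_sub, map_smul, smul_eq_mul]
    rw [A1 hφ σ r p (by omega) (by omega) rfl, C1 hφ σ _ p (by omega) (by omega) (by omega),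
      hφ.lie (h.zF (σ + i)) (h.eF (r + i)) (by omega) (by omega) (by omega)]
    have := o1 σ r p (by omega) (by omega)
    rcases Nat.mod_two_eq_zero_or_one i with q | q
    · rw [C1 hφ _ r (by omega) (by omega) (by omega) (by omega)]
      linear_combination φ (e (r + σ + i)) * this
    · rw [o0 q] at this ⊢
      linear_combination φ (e (r + σ + i)) * this
  · simp only [add_lie, lie_add, smul_lie, lie_smul, map_add, map_sub, map_smul, smul_eq_mul]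
    rw [A2 hφ r s (by omega) (by omega) rfl, C2 hφ r _ (by omega) (by omega) (by omega),
      C2 hφ _ s (by omega) (by omega) (by omega), c0 r s (by omega) (by omega), pow_add,
      hφ.lie (h.eF (r + i)) (h.eF (s + i)) (by omega) (by omega) (by omega)]
    rcases Nat.mod_two_eq_zero_or_one (r + s + i) with q | q
    · simp [h.z0 _ q]
    · linear_combination (-1) ^ r * b * φ (z (r + s + i)) * o2 r s q (by omega) (by omega)
  · simp only [add_lie, lie_add, smul_lie, lie_smul, map_add, map_smul, smul_eq_mul]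
    rw [C3 hφ σ (τ + i) (by omega) (by omega) (by omega),
      C3 hφ (σ + i) τ (by omega) (by omega) (by omega),
      hφ.lie (h.zF (σ + i)) (h.zF (τ + i)) (by omega) (by omega) (by omega)]
    rcases Nat.mod_two_eq_zero_or_one σ with p | p
    · simp [h.z0 _ p]
    rcases Nat.mod_two_eq_zero_or_one τ with q | q
    · simp [h.z0 _ q]
    · simp [A3 hφ σ τ (by omega) (by omega) rfl, o3 σ τ p q (by omega) (by omega)]

lemma NF.all [CharZero K] (h : NF Φ b 1 R e z) (hb : b ≠ 0) (i : ℕ) :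
    ∃ R' e' z', NF Φ b (i + 1) R' e' z' := by
  induction i with
  | zero => exact ⟨_, _, _, h⟩
  | succ i ih =>
    obtain ⟨_, _, _, h'⟩ := ih
    exact h'.step (by omega) hb

end Pool.Agent.P78.U1
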