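import Mathlib

/-! The numerical part of the rigidity step. -/

namespace Pool.Agent.P78.U1

open Finset

variable {K : Type} [Field K] [CharZero K]

lemma ring_kill {Q : Type} [CommRing Q] [Algebra K Q] {α β A B : Q} {p : ℕ} (h0 : α + β = 1)
    (h1 : α * A + β * B = 1) (h2 : α * A ^ 2 + β * B ^ 2 = 1) (ha : α ^ 2 = A ^ p)
    (hb : β ^ 2 = B ^ p) : α * β = 0 := by
  have key : ∀ d : Q, A * d = d → B * d = d → d = 0 := fun d e1 e2 => by
    have a : ∀ (A : Q) n, A * d = d → A ^ n * d = d := fun A n e => by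
      induction n with
      | zero => simp
      | succ n ih => rw [pow_succ, mul_assoc, e, ih]
    have a1 := a A p e1
    have a2 := a B p e2
    rw [← ha] at a1
    rw [← hb, show β = 1 - α by linear_combination h0] at a2
    have a3 : (3 : K) • d = 0 := by
      rw [Algebra.smul_def, map_ofNat]
      linear_combination (-(2 * α + 1)) * a2 + (2 * α - 3) * a1
    rw [← inv_smul_smul₀ (three_ne_zero (α := K)) d, a3, smul_zero]
  have e1 : α * ((A - 1) * (A - B)) = 0 := by linear_combination h2 - (B + 1) * h1 + B * h0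
  have e2 : β * ((B - 1) * (B - A)) = 0 := by linear_combination h2 - (A + 1) * h1 + A * h0
  have e3 := key (α * β * (A - B)) (by linear_combination β * e1) (by linear_combination -α * e2)
  exact key _ (by linear_combination α * β * h1 - α * β * A * h0 + β * e3)
    (by linear_combination α * β * h1 - α * β * B * h0 - α * e3)

open MvPolynomial in
lemma numC0 (c : ℕ → ℕ → K) (R : ℕ) (h : ∀ σ r s, σ % 2 = 1 → R ≤ σ → R ≤ r → R ≤ s →
    c r s = c (r + σ) s + c r (s + σ)) : ∃ R', ∀ r s, R' ≤ r → R' ≤ s → c r s = 0 := by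
  let μ : MvPolynomial (Fin 2) K →ₗ[K] K :=
    (basisMonomials (Fin 2) K).constr K fun m => c (R + m 0) (R + m 1)
  have hm : ∀ (m : Fin 2 →₀ ℕ) (a : K), monomial m a = a • (X 0 ^ m 0 * X 1 ^ m 1) := fun m a => by
    rw [monomial_eq, Finsupp.prod_fintype _ _ (by simp), Fin.prod_univ_two, smul_eq_C_mul]
  have h1 : ∀ i j, μ (X 0 ^ i * X 1 ^ j) = c (R + i) (R + j) := fun i j => by
    have := (basisMonomials (Fin 2) K).constr_basis K (fun m => c (R + m 0) (R + m 1))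
      (Finsupp.single 0 i + Finsupp.single 1 j)
    simpa [hm] using this
  let I : Ideal (MvPolynomial (Fin 2) K) :=
    { carrier := {f | ∀ g, μ (f * g) = 0}
      add_mem' := fun a b g => by rw [add_mul, map_add, a g, b g, add_zero]
      zero_mem' := fun g => by simp
      smul_mem' := fun q f a g => by rw [smul_eq_mul, mul_comm q, mul_assoc]; exact a _ }
  have hP : ∀ k, Ideal.Quotient.mk I (X 0) ^ (2 * R + 1) * (Ideal.Quotient.mk I (X 0) ^ 2) ^ k +
      Ideal.Quotient.mk I (X 1) ^ (2 * R + 1) * (Ideal.Quotient.mk I (X 1) ^ 2) ^ k = 1 := by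
    intro k
    simp only [← pow_mul, ← map_pow, ← map_mul, ← pow_add]
    rw [← map_add, ← map_one (Ideal.Quotient.mk I), Ideal.Quotient.eq]
    intro g
    induction g using MvPolynomial.induction_on' with
    | add p q hp hq => rw [mul_add, map_add, hp, hq, add_zero]
    | monomial m a =>
      rw [hm, mul_smul_comm, map_smul, show ((X 0 ^ (2 * R + 1 + 2 * k) + X 1 ^ (2 * R + 1 + 2 * k)
        - 1) * (X 0 ^ m 0 * X 1 ^ m 1) : MvPolynomial (Fin 2) K) =
        X 0 ^ (m 0 + (2 * R + 1 + 2 * k)) * X 1 ^ m 1 + X 0 ^ m 0 * X 1 ^ (m 1 + (2 * R + 1 + 2 * k))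
          - X 0 ^ m 0 * X 1 ^ m 1 by ring, map_sub, map_add, h1, h1, h1,
        h (2 * R + 1 + 2 * k) (R + m 0) (R + m 1) (by omega) (by omega) (by omega) (by omega)]
      simp [add_assoc]
  have h2 := ring_kill (K := K) (p := 2 * R + 1) (by simpa using hP 0) (by simpa using hP 1) (hP 2)
    (by ring) (by ring)
  rw [← map_pow, ← map_pow, ← map_mul, Ideal.Quotient.eq_zero_iff_mem] at h2
  refine ⟨R + (2 * R + 1), fun r s hr hs => ?_⟩
  obtain ⟨i, rfl⟩ := Nat.exists_eq_add_of_le hr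
  obtain ⟨j, rfl⟩ := Nat.exists_eq_add_of_le hs
  rw [add_assoc R, add_assoc R, ← h1, ← h2 (X 0 ^ i * X 1 ^ j)]
  congr 1; ring

lemma numOdd (g B w : ℕ → ℕ → K) (R : ℕ)
    (h1 : ∀ σ τ r, σ % 2 = 1 → τ % 2 = 1 → R ≤ σ → R ≤ τ → R ≤ r →
      w σ τ = g σ (r + τ) + g τ r - g τ (r + σ) - g σ r)
    (h2 : ∀ σ r s, σ % 2 = 1 → (r + s) % 2 = 1 → R ≤ σ → R ≤ r → R ≤ s →
      w σ (r + s) = B r (s + σ) - B (r + σ) s + g σ r + g σ s)
    (h3 : ∀ r s t, (r + s) % 2 = 0 → (r + t) % 2 = 1 → R ≤ r → R ≤ s → R ≤ t →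
      B r s + g (s + t) r - g (t + r) s = 0) :
    ∃ (o : ℕ → K) (R' : ℕ), (∀ σ r, σ % 2 = 1 → R' ≤ σ → R' ≤ r → g σ r = o (r + σ) - o r) ∧
      (∀ r s, (r + s) % 2 = 0 → R' ≤ r → R' ≤ s → B r s + o s - o r = 0) ∧
      ∀ σ τ, σ % 2 = 1 → τ % 2 = 1 → R' ≤ σ → R' ≤ τ → w σ τ = 0 := by
  obtain ⟨a, a', H⟩ : ∃ a a' : ℕ → K, ∀ σ r, σ % 2 = 1 → 3 * R + 1 ≤ σ → R ≤ r →
      g σ r = a r + a' (r + σ) := by
    refine ⟨fun r => - B r (2 * R + r % 2),
      fun n => g (n - (2 * R + (n + 1) % 2)) (2 * R + (n + 1) % 2), fun σ r b1 b2 b3 => ?_⟩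
    have := h3 r (2 * R + r % 2) (σ - (2 * R + r % 2)) (by omega) (by omega) b3 (by omega) (by omega)
    rw [show 2 * R + r % 2 + (σ - (2 * R + r % 2)) = σ by omega] at this
    simp only [show (r + σ + 1) % 2 = r % 2 by omega,
      show r + σ - (2 * R + r % 2) = σ - (2 * R + r % 2) + r by omega]
    linear_combination this
  have hw : ∀ σ τ r, σ % 2 = 1 → τ % 2 = 1 → 3 * R + 1 ≤ σ → 3 * R + 1 ≤ τ → R ≤ r →
      w σ τ = (a + a') (r + τ) - (a + a') (r + σ) := fun σ τ r b1 b2 b3 b4 b5 => by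
    rw [h1 σ τ r b1 b2 (by omega) (by omega) b5, H σ _ b1 b3 (by omega), H τ _ b2 b4 b5,
      H τ _ b2 b4 (by omega), H σ _ b1 b3 b5, add_right_comm r τ σ]
    simp only [Pi.add_apply]; ring
  have hB : ∀ r s, (r + s) % 2 = 0 → R ≤ r → R ≤ s → B r s = a s - a r := fun r s b1 b2 b3 => by
    have := h3 r s (4 * R + r + 1) b1 (by omega) b2 b3 (by omega)
    rw [H _ r (by omega) (by omega) b2, H _ s (by omega) (by omega) b3,
      show r + (s + (4 * R + r + 1)) = s + (4 * R + r + 1 + r) by ring] at this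
    linear_combination this
  generalize hm : a + a' = m at hw
  have hm' : ∀ n, a' n = m n - a n := fun n => by simp [← hm]
  have h4 : ∀ σ r s, σ % 2 = 1 → (r + s) % 2 = 1 → 3 * R + 1 ≤ σ → 2 * R + 1 ≤ r → 2 * R + 1 ≤ s →
      m (R + (r + s)) - m (R + σ) = m (r + σ) + m (s + σ) := fun σ r s b1 b2 b3 b4 b5 => by
    rw [← hw σ (r + s) R b1 b2 b3 (by omega) le_rfl, h2 σ r s b1 b2 (by omega) (by omega) (by omega),
      hB _ _ (by omega) (by omega) (by omega), hB _ _ (by omega) (by omega) (by omega),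
      H σ r b1 b3 (by omega), H σ s b1 b3 (by omega), hm', hm']
    ring
  have h5 : ∀ n, 5 * R + 1 ≤ n → m (n + 2) = m n + w (4 * R + 1) (4 * R + 3) := fun n hn => by
    rw [hw _ _ (n - (4 * R + 1)) (by omega) (by omega) (by omega) (by omega) (by omega),
      show n - (4 * R + 1) + (4 * R + 3) = n + 2 by omega,
      show n - (4 * R + 1) + (4 * R + 1) = n by omega]
    ring
  have h6 : w (4 * R + 1) (4 * R + 3) = 0 := by
    have e1 := h4 (4 * R + 1) (2 * R + 1) (2 * R + 2) (by omega) (by omega) (by omega) (by omega)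
      (by omega)
    have e2 := h4 (4 * R + 1 + 2) (2 * R + 1) (2 * R + 2) (by omega) (by omega) (by omega)
      (by omega) (by omega)
    simp only [← add_assoc _ (4 * R + 1) 2] at e2
    rw [h5 _ (by omega), h5 _ (by omega), h5 (2 * R + 2 + _) (by omega)] at e2
    exact (mul_eq_zero.1 (by linear_combination e1 - e2)).resolve_left (three_ne_zero (α := K))
  have h7 : ∀ k n, 5 * R + 1 ≤ n → m (n + 2 * k) = m n := fun k n hn => by
    induction k with
    | zero => rfl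
    | succ k ih => rw [mul_add, ← add_assoc, mul_one, h5 _ (by omega), h6, add_zero, ih]
  have h8 : ∀ n k, 5 * R + 1 ≤ n → 5 * R + 1 ≤ k → (n + k) % 2 = 0 → m n = m k :=
    fun n k b1 b2 b3 => by
      rcases le_total n k with e | e
      · rw [← h7 ((k - n) / 2) n b1]; congr 1; omega
      · rw [← h7 ((n - k) / 2) k b2]; congr 1; omega
  have h9 : ∀ n k, 5 * R + 1 ≤ n → 5 * R + 1 ≤ k → (n + k) % 2 = 1 → m n = - m k :=
    fun n k b1 b2 b3 => by
      have e := h4 (4 * R + 1) (2 * R + 2 + n) (2 * R + 2 + k) (by omega) (by omega) (by omega)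
        (by omega) (by omega)
      rw [h8 _ (R + (4 * R + 1)) (by omega) (by omega) (by omega),
        h8 (2 * R + 2 + n + _) k (by omega) b2 (by omega),
        h8 (2 * R + 2 + k + _) n (by omega) b1 (by omega)] at e
      linear_combination -e
  refine ⟨fun n => a' n - m n / 2, 5 * R + 1, fun σ r b1 b2 b3 => ?_, fun r s b1 b2 b3 => ?_,
    fun σ τ b1 b2 b3 b4 => ?_⟩
  · simp only [H σ r b1 (by omega) (by omega), h9 (r + σ) r (by omega) b3 (by omega), hm' r]
    ring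
  · simp only [hB r s b1 (by omega) (by omega), hm', h8 r s b2 b3 b1]
    ring
  · rw [hw σ τ R b1 b2 (by omega) (by omega) le_rfl, h8 _ (R + σ) (by omega) (by omega) (by omega),
      sub_self]

lemma numEven (g B : ℕ → ℕ → K) (R : ℕ)
    (h1 : ∀ σ τ r, σ % 2 = 1 → τ % 2 = 1 → R ≤ σ → R ≤ τ → R ≤ r →
      g σ (r + τ) + g τ r - g τ (r + σ) - g σ r = 0)
    (h3 : ∀ r s t, (r + s) % 2 = 0 → (r + t) % 2 = 1 → R ≤ r → R ≤ s → R ≤ t →
      B s t + g (s + t) r - B t r - g (t + r) s = 0) :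
    ∃ (o γ : ℕ → K), (∀ σ r, σ % 2 = 1 → R ≤ σ → R ≤ r → g σ r + o r - o (r + σ) + γ σ = 0) ∧
      ∀ r s, (r + s) % 2 = 1 → R ≤ r → R ≤ s → B r s + o r + o s - γ (r + s) = 0 := by
  obtain ⟨oa, ha⟩ : ∃ oa : ℕ → K, ∀ r, oa (r + (2 * R + 1)) = oa r + g (2 * R + 1) r :=
    ⟨fun n => ∑ j ∈ range (n / (2 * R + 1)), g (2 * R + 1) (n % (2 * R + 1) + (2 * R + 1) * j),
      fun r => by
        simp only [Nat.add_div_right r (Nat.succ_pos _), Nat.add_mod_right, sum_range_succ,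
          Nat.mod_add_div]⟩
  have b1 : ∀ σ r, σ % 2 = 1 → R ≤ σ → R ≤ r → g σ (r + (2 * R + 1)) -
      oa (r + (2 * R + 1) + σ) + oa (r + (2 * R + 1)) = g σ r - oa (r + σ) + oa r := by
    intro σ r c1 c2 c3
    rw [add_right_comm r _ σ, ha, ha]
    linear_combination h1 σ (2 * R + 1) r c1 (by omega) c2 (by omega) c3
  obtain ⟨f, hf⟩ : ∃ f : ℕ → K, ∀ r, f r = g (2 * R + 3) r - oa (r + (2 * R + 3)) + oa r :=
    ⟨_, fun _ => rfl⟩
  have b2 : ∀ k r, R ≤ r → f (r + (2 * R + 1) * k) = f r := fun k r hr => by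
    induction k with
    | zero => rfl
    | succ k ih =>
      rw [mul_add, ← add_assoc, mul_one, hf, b1 _ _ (by omega) (by omega) (by omega), ← hf, ih]
  obtain ⟨γ, hγ⟩ : ∃ γ : K, ∑ j ∈ range (2 * R + 1), (f (R + 2 * j) - γ) = 0 :=
    ⟨(∑ j ∈ range (2 * R + 1), f (R + 2 * j)) / (2 * R + 1 : ℕ), by
      rw [sum_sub_distrib, sum_const, card_range, nsmul_eq_mul,
        mul_div_cancel₀ _ (Nat.cast_ne_zero.2 (by omega)), sub_self]⟩
  obtain ⟨W, hW⟩ : ∃ W : ℕ → K, ∀ k, W k = ∑ j ∈ range k, (f (R + 2 * j) - γ) := ⟨_, fun _ => rfl⟩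
  have b3 : ∀ k, W (k + 1) = W k + (f (R + 2 * k) - γ) := fun k => by rw [hW, hW, sum_range_succ]
  have b4 : ∀ k, W (k + (2 * R + 1)) = W k := fun k => by
    induction k with
    | zero => rw [zero_add, hW, hγ, hW, sum_range_zero]
    | succ k ih =>
      rw [add_right_comm, b3, b3, ih, ← b2 2 (R + 2 * k) (by omega)]
      congr 3; ring
  have b5 : ∀ j k, W (k + (2 * R + 1) * j) = W k := fun j k => by
    induction j with
    | zero => rfl
    | succ j ih => rw [mul_add, ← add_assoc, mul_one, b4, ih]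
  obtain ⟨o, ho⟩ : ∃ o : ℕ → K, ∀ r, o r = oa r + W ((r - R) * (R + 1)) := ⟨_, fun _ => rfl⟩
  have c1 : ∀ r, R ≤ r → o (r + (2 * R + 1)) = o r + g (2 * R + 1) r := fun r hr => by
    obtain ⟨n, rfl⟩ := Nat.exists_eq_add_of_le hr
    rw [ho, ho, ha, add_assoc R n, Nat.add_sub_cancel_left, Nat.add_sub_cancel_left, add_mul n, b5]
    ring
  have c2 : ∀ r, R ≤ r → o (r + (2 * R + 3)) = o r + g (2 * R + 3) r - γ := fun r hr => by
    obtain ⟨n, rfl⟩ := Nat.exists_eq_add_of_le hr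
    rw [ho, ho, add_assoc R n, Nat.add_sub_cancel_left, Nat.add_sub_cancel_left,
      show (n + (2 * R + 3)) * (R + 1) = n * (R + 1) + 1 + (2 * R + 1) * (R + 2) by ring, b5, b3,
      show R + 2 * (n * (R + 1)) = R + n + (2 * R + 1) * n by ring, b2 _ _ hr, hf, add_assoc R n]
    ring
  obtain ⟨e, he⟩ : ∃ e : ℕ → ℕ → K, ∀ σ r, e σ r = g σ r + o r - o (r + σ) := ⟨_, fun _ _ => rfl⟩
  have c3 : ∀ σ r, σ % 2 = 1 → R ≤ σ → R ≤ r → e σ (r + (2 * R + 1)) = e σ r := by
    intro σ r d1 d2 d3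
    rw [he, he, add_right_comm r _ σ, c1 _ d3, c1 _ (by omega)]
    linear_combination h1 σ (2 * R + 1) r d1 (by omega) d2 (by omega) d3
  have c4 : ∀ σ r, σ % 2 = 1 → R ≤ σ → R ≤ r → e σ (r + 2) = e σ r := by
    intro σ r d1 d2 d3
    rw [← c3 σ _ d1 d2 (by omega), show r + 2 + (2 * R + 1) = r + (2 * R + 3) by ring, he, he,
      add_right_comm r _ σ, c2 _ d3, c2 _ (by omega)]
    linear_combination h1 σ (2 * R + 3) r d1 (by omega) d2 (by omega) d3
  have c5 : ∀ σ r, σ % 2 = 1 → R ≤ σ → R ≤ r → e σ r = e σ R := by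
    intro σ r d1 d2 d3
    have c6 : ∀ k r, R ≤ r → e σ (r + 2 * k) = e σ r := fun k r hr => by
      induction k with
      | zero => rfl
      | succ k ih => rw [mul_add, ← add_assoc, mul_one, c4 σ _ d1 d2 (by omega), ih]
    induction r, d3 using Nat.le_induction with
    | base => rfl
    | succ r hr ih =>
      rw [← ih, ← c6 R (r + 1) (by omega), ← c3 σ r d1 d2 hr]
      congr 1; ring
  obtain ⟨C, hC⟩ : ∃ C : ℕ → ℕ → K, ∀ r s, C r s = B r s + o r + o s + e (r + s) R :=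
    ⟨_, fun _ _ => rfl⟩
  have d1 : ∀ r s t, (r + s) % 2 = 0 → (r + t) % 2 = 1 → R ≤ r → R ≤ s → R ≤ t →
      C s t = C t r := fun r s t a1 a2 a3 a4 a5 => by
    rw [hC, hC, ← c5 _ r (by omega) (by omega) a3, ← c5 _ s (by omega) (by omega) a4, he, he,
      show r + (s + t) = s + (t + r) by ring]
    linear_combination h3 r s t a1 a2 a3 a4 a5
  have d2 : ∀ r s, (r + s) % 2 = 1 → R ≤ r → R ≤ s → C r s = C (2 * R) (2 * R + 1) := by
    intro r s a1 a2 a3
    rcases Nat.mod_two_eq_zero_or_one r with a | a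
    · rw [d1 (2 * R) r s (by omega) (by omega) (by omega) a2 a3,
        d1 (2 * R + 1) s (2 * R) (by omega) (by omega) (by omega) a3 (by omega)]
    · rw [d1 (2 * R + 1) r s (by omega) (by omega) (by omega) a2 a3,
        d1 (2 * R) s (2 * R + 1) (by omega) (by omega) (by omega) a3 (by omega),
        d1 (2 * R) (2 * R) (2 * R + 1) (by omega) (by omega) (by omega) (by omega) (by omega)]
  refine ⟨fun r => o r - C (2 * R) (2 * R + 1) / 2, fun σ => - e σ R, fun σ r a1 a2 a3 => ?_,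
    fun r s a1 a2 a3 => ?_⟩
  · simp only [← c5 σ r a1 a2 a3, he]; ring
  · simp only [← d2 r s a1 a2 a3, hC r s]; ring

end Pool.Agent.P78.U1
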