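import Pool.Agent.Lib.MP_78c6b1_al.U1.Stmt

/-! Coordinates on the tail: an exact lane `e` and a fast lane `h`. -/

namespace Pool.Agent.P78.U1

open PowerSeries Submodule

/-- The data of the case with one exact lane and one fast lane. -/
structure Dat (K L : Type) [Field K] [LieRing L] [LieAlgebra K L] [Module K⟦X⟧ L] where
  x : L
  e : L
  h : L
  n0 : ℕ
  al : ℕ → ℕ
  pE : L →ₗ[K] K⟦X⟧
  pZ : L →ₗ[K] K⟦X⟧
  lim : Lim K L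
  act : ∀ v : L, (X : K⟦X⟧) • v = ⁅x, v⁆
  pE_eq : ∀ f g : K⟦X⟧, pE (f • e + g • h) = f
  pZ_eq : ∀ f g : K⟦X⟧, pZ (f • e + g • h) = g
  gam_iff : ∀ s v, v ∈ gam K L (n0 + s) ↔
    ∃ f g : K⟦X⟧, X ^ s ∣ f ∧ X ^ al s ∣ g ∧ v = f • e + g • h
  al0 : al 0 = 0
  step : ∀ s, al (s + 1) = al s ∨ al (s + 1) = al s + 1
  unb : ∀ k, ∃ s, al s + k ≤ s
  ji : ∀ N : Submodule K⟦X⟧ L, (∀ u : L, ∀ v ∈ N, ⁅u, v⁆ ∈ N) → N ≠ ⊥ →
    ∃ n, ∀ v ∈ gam K L n, v ∈ N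

variable {K L : Type} [Field K] [LieRing L] [LieAlgebra K L] [Module K⟦X⟧ L]

namespace Dat

variable (D : Dat K L)

/-- The exact lane. -/
noncomputable def E (t : ℕ) : L := (X : K⟦X⟧) ^ t • D.e

/-- The fast lane. -/
noncomputable def H (n : ℕ) : L := (X : K⟦X⟧) ^ n • D.h

/-- The tail. -/
def M : Submodule K L := gam K L D.n0

/-- Boxes. -/
def Box (i j : ℕ) : Submodule K L where
  carrier := {v | v ∈ D.M ∧ X ^ i ∣ D.pE v ∧ X ^ j ∣ D.pZ v}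
  add_mem' := fun ⟨a, b, c⟩ ⟨a', b', c'⟩ => ⟨add_mem a a', by
    rw [map_add]; exact dvd_add b b', by rw [map_add]; exact dvd_add c c'⟩
  zero_mem' := ⟨zero_mem _, by simp, by simp⟩
  smul_mem' := fun r v ⟨a, b, c⟩ => ⟨smul_mem _ _ a, by
    rw [map_smul, smul_eq_C_mul]; exact b.mul_left _, by
    rw [map_smul, smul_eq_C_mul]; exact c.mul_left _⟩

variable {D}

lemma mem_M (f g : K⟦X⟧) : f • D.e + g • D.h ∈ D.M :=
  (D.gam_iff 0 _).2 ⟨f, g, by simp, by simp [D.al0], rfl⟩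

lemma rec_eq {v : L} (hv : v ∈ D.M) : v = D.pE v • D.e + D.pZ v • D.h := by
  obtain ⟨f, g, -, -, rfl⟩ := (D.gam_iff 0 v).1 hv
  rw [D.pE_eq, D.pZ_eq]

lemma mem_box {i j : ℕ} {v : L} :
    v ∈ D.Box i j ↔ v ∈ D.M ∧ X ^ i ∣ D.pE v ∧ X ^ j ∣ D.pZ v := Iff.rfl

lemma gam_eq (s : ℕ) : gam K L (D.n0 + s) = D.Box s (D.al s) := by
  ext v
  rw [D.gam_iff, mem_box]
  constructor
  · rintro ⟨f, g, hf, hg, rfl⟩
    exact ⟨mem_M f g, by rwa [D.pE_eq], by rwa [D.pZ_eq]⟩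
  · rintro ⟨a, b, c⟩
    exact ⟨_, _, b, c, rec_eq a⟩

lemma box_mono {i j i' j' : ℕ} (hi : i ≤ i') (hj : j ≤ j') : D.Box i' j' ≤ D.Box i j :=
  fun _ ⟨a, b, c⟩ => ⟨a, (pow_dvd_pow _ hi).trans b, (pow_dvd_pow _ hj).trans c⟩

lemma mem_box_mono {i j i' j' : ℕ} {v : L} (hv : v ∈ D.Box i' j') (hi : i ≤ i') (hj : j ≤ j') :
    v ∈ D.Box i j := box_mono hi hj hv

lemma al_mono : Monotone D.al :=
  monotone_nat_of_le_succ fun s => by rcases D.step s with h | h <;> omega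

lemma al_add (s k : ℕ) : D.al (s + k) ≤ D.al s + k := by
  induction k with
  | zero => simp
  | succ k ih => rcases D.step (s + k) with h | h <;> rw [← add_assoc] <;> omega

lemma al_le (s : ℕ) : D.al s ≤ s := by simpa [D.al0] using al_add (D := D) 0 s

lemma pE_e (f : K⟦X⟧) : D.pE (f • D.e) = f := by simpa using D.pE_eq f 0
lemma pZ_e (f : K⟦X⟧) : D.pZ (f • D.e) = 0 := by simpa using D.pZ_eq f 0
lemma pE_h (f : K⟦X⟧) : D.pE (f • D.h) = 0 := by simpa using D.pE_eq 0 f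
lemma pZ_h (f : K⟦X⟧) : D.pZ (f • D.h) = f := by simpa using D.pZ_eq 0 f
lemma e_mem (f : K⟦X⟧) : f • D.e ∈ D.M := by simpa using mem_M (D := D) f 0
lemma h_mem (f : K⟦X⟧) : f • D.h ∈ D.M := by simpa using mem_M (D := D) 0 f

@[simp] lemma pE_E (t : ℕ) : D.pE (D.E t) = X ^ t := pE_e _
@[simp] lemma pZ_E (t : ℕ) : D.pZ (D.E t) = 0 := pZ_e _
@[simp] lemma pE_H (t : ℕ) : D.pE (D.H t) = 0 := pE_h _
@[simp] lemma pZ_H (t : ℕ) : D.pZ (D.H t) = X ^ t := pZ_h _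

lemma E_mem (t j : ℕ) : D.E t ∈ D.Box t j := ⟨e_mem _, by simp, by simp⟩
lemma H_mem (n i : ℕ) : D.H n ∈ D.Box i n := ⟨h_mem _, by simp, by simp⟩

lemma X_E (t : ℕ) : (X : K⟦X⟧) • D.E t = D.E (t + 1) := by rw [E, E, pow_succ', mul_smul]
lemma X_H (t : ℕ) : (X : K⟦X⟧) • D.H t = D.H (t + 1) := by rw [H, H, pow_succ', mul_smul]

lemma smul_coord (f : K⟦X⟧) {v : L} (hv : v ∈ D.M) :
    f • v ∈ D.M ∧ D.pE (f • v) = f * D.pE v ∧ D.pZ (f • v) = f * D.pZ v := by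
  have : f • v = (f * D.pE v) • D.e + (f * D.pZ v) • D.h := by
    conv_lhs => rw [rec_eq hv]
    rw [smul_add, mul_smul, mul_smul]
  rw [this]
  exact ⟨mem_M _ _, D.pE_eq _ _, D.pZ_eq _ _⟩

lemma leib (D : Dat K L) (u v : L) : (X : K⟦X⟧) • ⁅u, v⁆ = ⁅(X : K⟦X⟧) • u, v⁆ + ⁅u, (X : K⟦X⟧) • v⁆ := by
  rw [D.act, D.act, D.act, leibniz_lie]

lemma lie_M (u : L) {v : L} (hv : v ∈ D.M) : ⁅u, v⁆ ∈ D.M := lie_mem_gam_right u hv
lemma M_lie {u : L} (hu : u ∈ D.M) (v : L) : ⁅u, v⁆ ∈ D.M := lie_mem_gam_left hu v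

lemma leibE (u : L) {v : L} (hv : v ∈ D.M) : X * D.pE ⁅u, v⁆ =
    D.pE ⁅(X : K⟦X⟧) • u, v⁆ + D.pE ⁅u, (X : K⟦X⟧) • v⁆ := by
  rw [← (smul_coord X (lie_M u hv)).2.1, D.leib, map_add]

lemma leibZ (u : L) {v : L} (hv : v ∈ D.M) : X * D.pZ ⁅u, v⁆ =
    D.pZ ⁅(X : K⟦X⟧) • u, v⁆ + D.pZ ⁅u, (X : K⟦X⟧) • v⁆ := by
  rw [← (smul_coord X (lie_M u hv)).2.2, D.leib, map_add]

lemma al_unb (m : ℕ) : ∃ s, m < D.al s := by
  by_contra! hm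
  have h1 : D.H m = 0 := D.lim.sep _ fun n => gam_anti (Nat.le_add_left n D.n0) (by
    rw [gam_eq]; exact mem_box_mono (H_mem m n) le_rfl (hm n))
  have h2 := congrArg D.pZ h1
  rw [pZ_H, map_zero] at h2
  exact pow_ne_zero m X_ne_zero h2

lemma opn_box (i j : ℕ) : Opn (D.Box i j) := by
  obtain ⟨s, hs⟩ := al_unb (D := D) j
  exact ⟨D.n0 + (s + i), by
    rw [gam_eq]; exact box_mono (by omega) (hs.le.trans (al_mono (by omega)))⟩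

section

variable [IsScalarTower K K⟦X⟧ L]

lemma lie_smul_mem (D : Dat K L) {W : Submodule K L} (hW : Opn W) (y g : L) {i : ℕ}
    (H : ∀ k, i ≤ k → ⁅y, (X : K⟦X⟧) ^ k • g⁆ ∈ W) {f : K⟦X⟧} (hf : X ^ i ∣ f) :
    ⁅y, f • g⁆ ∈ W := by
  obtain ⟨f, rfl⟩ := hf
  obtain ⟨m, hm⟩ := hW
  obtain ⟨q, hq⟩ := smul_eq_sum (L := L) f m
  rw [mul_comm, mul_smul, hq, lie_add, lie_sum]
  refine add_mem (sum_mem fun j _ => ?_) (hm (lie_mem_gam_right y ?_))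
  · rw [lie_smul, ← mul_smul, ← pow_add]
    exact smul_mem _ _ (H _ (by omega))
  · simpa using X_pow_smul_mem D.act m (n := 0) (v := q • (X : K⟦X⟧) ^ i • g) trivial

lemma lie_box {W : Submodule K L} (hW : Opn W) (y : L) {i j : ℕ}
    (hE : ∀ t, i ≤ t → ⁅y, D.E t⁆ ∈ W) (hH : ∀ n, j ≤ n → ⁅y, D.H n⁆ ∈ W) {v : L}
    (hv : v ∈ D.Box i j) : ⁅y, v⁆ ∈ W := by
  rw [rec_eq hv.1, lie_add]
  exact add_mem (D.lie_smul_mem hW y _ hE hv.2.1) (D.lie_smul_mem hW y _ hH hv.2.2)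

lemma box_lie {W : Submodule K L} (hW : Opn W) (y : L) {i j : ℕ}
    (hE : ∀ t, i ≤ t → ⁅D.E t, y⁆ ∈ W) (hH : ∀ n, j ≤ n → ⁅D.H n, y⁆ ∈ W) {v : L}
    (hv : v ∈ D.Box i j) : ⁅v, y⁆ ∈ W := by
  rw [← lie_skew, neg_mem_iff]
  refine lie_box hW y (fun t ht => ?_) (fun t ht => ?_) hv
  · rw [← lie_skew, neg_mem_iff]; exact hE t ht
  · rw [← lie_skew, neg_mem_iff]; exact hH t ht

lemma box_lie_box {W : Submodule K L} (hW : Opn W) {i j i' j' : ℕ}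
    (h1 : ∀ s t, i ≤ s → i' ≤ t → ⁅D.E s, D.E t⁆ ∈ W)
    (h2 : ∀ s t, i ≤ s → j' ≤ t → ⁅D.E s, D.H t⁆ ∈ W)
    (h3 : ∀ s t, j ≤ s → i' ≤ t → ⁅D.H s, D.E t⁆ ∈ W)
    (h4 : ∀ s t, j ≤ s → j' ≤ t → ⁅D.H s, D.H t⁆ ∈ W) {u v : L}
    (hu : u ∈ D.Box i j) (hv : v ∈ D.Box i' j') : ⁅u, v⁆ ∈ W :=
  box_lie hW v (fun s hs => lie_box hW _ (fun t => h1 s t hs) (fun t => h2 s t hs) hv)
    (fun s hs => lie_box hW _ (fun t => h3 s t hs) (fun t => h4 s t hs) hv) hu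

end

lemma dvd_succ {f : K⟦X⟧} {i : ℕ} (hf : X ^ i ∣ f) :
    X ^ (i + 1) ∣ f - coeff i f • X ^ i := by
  rw [X_pow_dvd_iff] at hf ⊢
  intro m hm
  rcases Nat.lt_succ_iff_lt_or_eq.1 hm with h | rfl
  · simp [coeff_X_pow, hf m h, h.ne]
  · simp [coeff_X_pow]

lemma dvd_succ' {f : K⟦X⟧} {i : ℕ} (hf : X ^ i ∣ f) (h : coeff i f = 0) : X ^ (i + 1) ∣ f := by
  simpa [h] using dvd_succ hf

lemma coeff_eq_zero {f : K⟦X⟧} {i m : ℕ} (hf : X ^ i ∣ f) (h : m < i) : coeff m f = 0 :=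
  X_pow_dvd_iff.1 hf m h

lemma sub_E {i j : ℕ} {v : L} (hv : v ∈ D.Box i j) :
    v - coeff i (D.pE v) • D.E i ∈ D.Box (i + 1) j :=
  ⟨sub_mem hv.1 (smul_mem _ _ (e_mem _)), by simpa using dvd_succ hv.2.1, by simpa using hv.2.2⟩

lemma sub_H {i j : ℕ} {v : L} (hv : v ∈ D.Box i j) :
    v - coeff j (D.pZ v) • D.H j ∈ D.Box i (j + 1) :=
  ⟨sub_mem hv.1 (smul_mem _ _ (h_mem _)), by simpa using hv.2.1, by simpa using dvd_succ hv.2.2⟩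

lemma cod_box (i j : ℕ) : cod (D.Box i j) = cod (D.Box 0 0) + i + j := by
  have hf := fun i j => D.lim.fin_opn (opn_box (D := D) i j)
  have key : ∀ (U V : Submodule K L) (v : L), Opn U → U ≤ V → v ∈ V → v ∉ U →
      (∀ w ∈ V, ∃ c : K, w - c • v ∈ U) → cod U = cod V + 1 := fun U V v hU h1 h2 h3 h4 => by
    have := D.lim.fin_opn hU
    refine le_antisymm ?_ (cod_lt (lt_of_le_of_ne h1 fun e => h3 (e ▸ h2)))
    simpa using cod_le_add_of_le_sup h1 (fun _ : Unit => v) fun w hw => by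
      obtain ⟨c, hc⟩ := h4 w hw
      rw [← sub_add_cancel w (c • v)]
      exact add_mem_sup hc (smul_mem _ _ (subset_span ⟨(), rfl⟩))
  induction i with
  | zero =>
    induction j with
    | zero => rfl
    | succ j ih =>
      rw [key _ _ (D.H j) (opn_box 0 (j + 1)) (box_mono le_rfl j.le_succ) (H_mem j 0)
        (fun h => by simpa using coeff_eq_zero h.2.2 j.lt_succ_self) fun w hw => ⟨_, sub_H hw⟩, ih]
      ring
  | succ i ih =>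
    rw [key _ _ (D.E i) (opn_box (i + 1) j) (box_mono i.le_succ le_rfl) (E_mem i j)
      (fun h => by simpa using coeff_eq_zero h.2.1 i.lt_succ_self) fun w hw => ⟨_, sub_E hw⟩, ih]
    ring

end Dat

end Pool.Agent.P78.U1
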