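import Pool.Agent.Lib.MP_78c6b1_al.U1.Setup

/-! The action of the fast lane on the exact lane. -/

namespace Pool.Agent.P78.U1

open PowerSeries Submodule Finset

variable {K L : Type} [Field K] [LieRing L] [LieAlgebra K L] [Module K⟦X⟧ L]

lemma eq_zero_of_dvd {f : K⟦X⟧} (h : ∀ i, X ^ i ∣ f) : f = 0 := by
  ext n
  exact X_pow_dvd_iff.1 (h (n + 1)) n n.lt_succ_self

lemma dvd_of_X_mul {f : K⟦X⟧} {i : ℕ} (h : X ^ (i + 1) ∣ X * f) : X ^ i ∣ f := by
  rw [pow_succ'] at h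
  exact (mul_dvd_mul_iff_left X_ne_zero).1 h

lemma X_mul_dvd {f : K⟦X⟧} {i : ℕ} (h : X ^ i ∣ f) : X ^ (i + 1) ∣ X * f := by
  rw [pow_succ']
  exact mul_dvd_mul_left _ h

namespace Dat

variable {D : Dat K L}

lemma lie_gam (y : L) {s : ℕ} {v : L} (hv : v ∈ D.Box s (D.al s)) :
    ⁅y, v⁆ ∈ D.Box (s + 1) (D.al (s + 1)) := by
  rw [← gam_eq] at hv ⊢
  exact lie_mem_gam_succ y hv

lemma gam_gam {s t : ℕ} {u v : L} (hu : u ∈ D.Box s (D.al s)) (hv : v ∈ D.Box t (D.al t)) :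
    ⁅u, v⁆ ∈ D.Box (s + t) (D.al (s + t)) := by
  rw [← gam_eq] at hu hv ⊢
  exact gam_anti (by omega) (lie_mem_gam hu hv)

lemma lie_E (y : L) (t : ℕ) : X ^ (t + 1) ∣ D.pE ⁅y, D.E t⁆ := (lie_gam y (E_mem t _)).2.1

lemma fast (k : ℕ) : ∃ m0, ∀ m, m0 ≤ m → D.al (m + k) ≤ m := by
  obtain ⟨s, hs⟩ := D.unb k
  refine ⟨D.al s, fun m hm => ?_⟩
  rcases le_total (m + k) s with h | h
  · exact (al_mono h).trans hm
  · obtain ⟨j, hj⟩ := Nat.exists_eq_add_of_le h
    have := al_add (D := D) s j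
    rw [hj]; omega

lemma lie_H (y : L) (m : ℕ) : X ^ (m + 1) ∣ D.pZ ⁅y, D.H m⁆ := by
  classical
  have hs := Nat.find_spec (al_unb (D := D) m)
  rcases hn : Nat.find (al_unb (D := D) m) with _ | s
  · rw [hn, D.al0] at hs; omega
  · have h1 : ¬ m < D.al s := Nat.find_min (al_unb (D := D) m) (by omega)
    rw [hn] at hs
    exact (pow_dvd_pow _ hs).trans (lie_gam y (mem_box_mono (H_mem m s) le_rfl (by omega))).2.2

lemma idx (g : L) (t n : ℕ) : X ^ (n + t + 1) ∣ D.pZ ⁅(X : K⟦X⟧) ^ t • g, D.H n⁆ := by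
  induction t generalizing n with
  | zero => exact lie_H _ n
  | succ t ih =>
    have h := leibZ (D := D) ((X : K⟦X⟧) ^ t • g) (h_mem (X ^ n))
    rw [← mul_smul, ← pow_succ', ← H, X_H, ← sub_eq_iff_eq_add] at h
    rw [← h]
    exact dvd_sub (X_mul_dvd (ih n)) (by have := ih (n + 1); rwa [add_right_comm n 1 t] at this)

lemma idxE (n t : ℕ) : X ^ (n + t + 1) ∣ D.pZ ⁅D.H n, D.E t⁆ := by
  rw [← lie_skew, map_neg, dvd_neg]
  exact idx _ t n

lemma HH (n m : ℕ) : D.pE ⁅D.H n, D.H m⁆ = 0 := by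
  refine eq_zero_of_dvd fun k => ?_
  obtain ⟨m0, h0⟩ := fast (D := D) k
  suffices h : ∀ j n m, 2 * m0 ≤ n + m + j → X ^ (n + m + k) ∣ D.pE ⁅D.H n, D.H m⁆ from
    (pow_dvd_pow _ (by omega)).trans (h (2 * m0) n m (by omega))
  intro j
  induction j with
  | zero =>
    intro n m hj
    rcases le_total m0 n with h | h
    · have := (gam_gam (mem_box_mono (H_mem n _) le_rfl (h0 n h))
        (mem_box_mono (H_mem m _) le_rfl (al_le m))).2.1
      rwa [add_right_comm] at this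
    · have := (gam_gam (mem_box_mono (H_mem n _) le_rfl (al_le n))
        (mem_box_mono (H_mem m _) le_rfl (h0 m (by omega)))).2.1
      rwa [← add_assoc] at this
  | succ j ih =>
    intro n m hj
    have h := leibE (D := D) (D.H n) (h_mem (X ^ m))
    rw [← H, X_H, X_H] at h
    refine dvd_of_X_mul (h ▸ dvd_add ?_ ?_)
    · convert ih (n + 1) m (by omega) using 2; ring
    · convert ih n (m + 1) (by omega) using 2; ring

variable (D) in
/-- The fast lane. -/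
def N : Submodule K L := D.M ⊓ LinearMap.ker D.pE

lemma mem_N {v : L} : v ∈ D.N ↔ v ∈ D.M ∧ D.pE v = 0 := Iff.rfl

lemma H_N (n : ℕ) : D.H n ∈ D.N := ⟨h_mem _, pE_H n⟩

lemma HH' (n m : ℕ) : ⁅D.H n, D.H m⁆ ∈ D.N := ⟨lie_M _ (h_mem _), HH n m⟩

lemma N_box {v : L} (hv : v ∈ D.N) {j : ℕ} (h : X ^ j ∣ D.pZ v) (i : ℕ) : v ∈ D.Box i j :=
  ⟨hv.1, by rw [(mem_N.1 hv).2]; exact dvd_zero _, h⟩

lemma X_N {v : L} (hv : v ∈ D.N) : (X : K⟦X⟧) • v ∈ D.N :=
  ⟨(smul_coord X hv.1).1, by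
    rw [SetLike.mem_coe, LinearMap.mem_ker, (smul_coord X hv.1).2.1, (mem_N.1 hv).2, mul_zero]⟩

variable (D) in
/-- The diagonals of the action on the exact lane. -/
noncomputable def dg (v : L) (d t : ℕ) : K := coeff (t + d) (D.pE ⁅v, D.E t⁆)

lemma dg_X (v : L) (d t : ℕ) :
    D.dg ((X : K⟦X⟧) • v) (d + 1) t = D.dg v d t - D.dg v d (t + 1) := by
  have h := congrArg (coeff (t + d + 1)) (leibE (D := D) v (e_mem (X ^ t)))
  rw [← E, X_E, coeff_succ_X_mul, map_add] at h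
  rw [dg, dg, dg, h, add_right_comm t 1 d, add_sub_cancel_right, add_assoc]

lemma dg_zero (v : L) (t : ℕ) : D.dg v 0 t = 0 := coeff_eq_zero (lie_E v t) (by omega)

lemma dg_dvd {v : L} {P t : ℕ} (h : ∀ d < P, D.dg v d t = 0) : X ^ (t + P) ∣ D.pE ⁅v, D.E t⁆ := by
  refine X_pow_dvd_iff.2 fun m hm => ?_
  rcases lt_or_ge m t with h1 | h1
  · exact coeff_eq_zero (lie_E v t) (by omega)
  · obtain ⟨d, rfl⟩ := Nat.exists_eq_add_of_le h1
    exact h d (by omega)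

lemma dg_sub_smul (v w : L) (c : K) (d t : ℕ) :
    D.dg (v - c • w) d t = D.dg v d t - c * D.dg w d t := by
  simp [dg, sub_lie]

lemma dg_smul (w : L) (c : K) (d t : ℕ) : D.dg (c • w) d t = c * D.dg w d t := by
  simp [dg]

variable [IsScalarTower K K⟦X⟧ L]

lemma lie_N {u v : L} (hu : u ∈ D.N) (hv : v ∈ D.N) : ⁅u, v⁆ ∈ D.N := by
  refine ⟨lie_M u hv.1, eq_zero_of_dvd fun i => ?_⟩
  rw [rec_eq hu.1, rec_eq hv.1, (mem_N.1 hu).2, (mem_N.1 hv).2, zero_smul, zero_add, zero_add]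
  refine (D.lie_smul_mem (opn_box i 0) _ _ (i := 0) (fun k _ => ?_) (by simp)).2.1
  rw [← lie_skew, neg_mem_iff]
  exact D.lie_smul_mem (opn_box i 0) _ _ (i := 0)
    (fun l _ => N_box (j := 0) (HH' (D := D) k l) (by simp) i) (by simp)

lemma exists_dg (n : ℕ) : ∃ d, ∃ t, D.dg (D.H n) d t ≠ 0 := by
  by_contra! hn
  have h1 : ∀ m, n ≤ m → ∀ d t, D.dg (D.H m) d t = 0 := fun m hm => by
    induction m, hm using Nat.le_induction with
    | base => exact hn
    | succ m _ ih =>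
      intro d t
      rcases d with _ | d
      · exact dg_zero _ _
      · rw [← X_H, dg_X, ih, ih, sub_zero]
  have h2 : ∀ k y, (X : K⟦X⟧) ^ k • y ∈ D.M → ∀ m, n ≤ m → D.pE ⁅y, D.H m⁆ = 0 := by
    intro k
    induction k with
    | zero =>
      intro y hy m hm
      rw [pow_zero, one_smul] at hy
      refine eq_zero_of_dvd fun i => (box_lie (i := 0) (j := 0) (opn_box i 0) (D.H m)
        (fun t _ => ⟨lie_M _ (h_mem _), ?_, by simp⟩)
        (fun t _ => N_box (HH' t m) (by simp) i)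
        ⟨hy, by simp, by simp⟩).2.1
      rw [← lie_skew, map_neg, dvd_neg]
      exact (pow_dvd_pow _ (by omega)).trans (dg_dvd (P := i) fun d _ => h1 m hm d t)
    | succ k ih =>
      intro y hy m hm
      have h3 := ih ((X : K⟦X⟧) • y) (by rwa [← mul_smul, ← pow_succ])
      have h4 : ∀ j, D.pE ⁅y, D.H (m + j)⁆ = X ^ j * D.pE ⁅y, D.H m⁆ := fun j => by
        induction j with
        | zero => simp
        | succ j ih' =>
          have h := leibE (D := D) y (h_mem (X ^ (m + j)))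
          rw [← H, X_H, h3 _ (by omega), zero_add, ih'] at h
          rw [← add_assoc, ← h, pow_succ', mul_assoc]
      refine eq_zero_of_dvd fun i => ?_
      obtain ⟨m0, h0⟩ := fast (D := D) i
      have h5 := (lie_gam y (mem_box_mono (H_mem (m + m0) _) le_rfl (h0 _ (by omega)))).2.1
      rw [h4] at h5
      have h6 : (X : K⟦X⟧) ^ m0 * X ^ i ∣ X ^ m0 * D.pE ⁅y, D.H m⁆ := by
        rw [← pow_add]; exact (pow_dvd_pow _ (by omega)).trans h5
      exact (mul_dvd_mul_iff_left (pow_ne_zero _ X_ne_zero)).1 h6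
  let I : Submodule K⟦X⟧ L :=
    { carrier := {v | ∀ i, v ∈ D.Box i n}
      add_mem' := fun a b i => add_mem (a i) (b i)
      zero_mem' := fun i => zero_mem _
      smul_mem' := fun f v a i => by
        obtain ⟨p, q, r⟩ := smul_coord f (a i).1
        exact ⟨p, q ▸ (a i).2.1.mul_left _, r ▸ (a i).2.2.mul_left _⟩ }
  obtain ⟨k, hk⟩ := D.ji I (fun u v hv i => by
    have hE : D.pE v = 0 := eq_zero_of_dvd fun j => (hv j).2.1
    rw [rec_eq (hv 0).1, hE, zero_smul, zero_add]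
    refine D.lie_smul_mem (opn_box i n) _ _ (fun m hm => ⟨lie_M _ (h_mem _), ?_,
      (pow_dvd_pow _ (by omega)).trans (lie_H u m)⟩) (hv 0).2.2
    rw [← H, h2 D.n0 u (by simpa [M] using X_pow_smul_mem D.act D.n0 (n := 0) (v := u) trivial) m hm]
    exact dvd_zero _) (fun e => by
    have h3 : D.H n ∈ I := fun i => H_mem n i
    rw [e, mem_bot] at h3
    have h4 := congrArg D.pZ h3
    rw [pZ_H, map_zero] at h4
    exact pow_ne_zero n X_ne_zero h4)
  have h3 := (hk (D.E k) (gam_anti (Nat.le_add_left k D.n0) (by rw [gam_eq]; exact E_mem k _))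
    (k + 1)).2.1
  simpa using coeff_eq_zero h3 k.lt_succ_self

open Classical in
variable (D) in
/-- The shift of `H n` on the exact lane. -/
noncomputable def sg (n : ℕ) : ℕ := Nat.find (exists_dg (D := D) n)

variable (D) in
/-- The leading symbol of `H n`. -/
noncomputable def u (n t : ℕ) : K := D.dg (D.H n) (D.sg n) t

lemma u_ne (n : ℕ) : ∃ t, D.u n t ≠ 0 := by
  classical exact Nat.find_spec (exists_dg (D := D) n)

lemma dg_lt {n d : ℕ} (h : d < D.sg n) (t : ℕ) : D.dg (D.H n) d t = 0 := by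
  classical
  have := Nat.find_min (exists_dg (D := D) n) h
  push Not at this
  exact this t

lemma le_sg {n P : ℕ} (h : ∀ d < P, ∀ t, D.dg (D.H n) d t = 0) : P ≤ D.sg n := by
  by_contra! hP
  obtain ⟨t, ht⟩ := u_ne (D := D) n
  exact ht (h _ hP t)

lemma sg_strict : StrictMono D.sg := strictMono_nat_of_lt_succ fun n => le_sg fun d hd t => by
  rcases d with _ | d
  · exact dg_zero _ _
  · rw [← X_H, dg_X, dg_lt (by omega), dg_lt (by omega), sub_zero]

lemma sg_pos (n : ℕ) : 1 ≤ D.sg n := le_sg fun d hd t => by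
  obtain rfl : d = 0 := by omega
  exact dg_zero _ _

lemma le_sg_al {n s : ℕ} (h : D.al s ≤ n) : s ≤ D.sg n := le_sg fun d hd t =>
  coeff_eq_zero (gam_gam (mem_box_mono (H_mem n s) le_rfl h) (E_mem t _)).2.1 (by omega)

lemma HE (n t : ℕ) : X ^ (t + D.sg n) ∣ D.pE ⁅D.H n, D.E t⁆ := dg_dvd fun _ hd => dg_lt hd t

lemma exists_cnt (s : ℕ) : ∃ n, s ≤ D.sg n := ⟨s, sg_strict.le_apply⟩

open Classical in
variable (D) in
/-- The number of shifts below `s`. -/
noncomputable def cnt (s : ℕ) : ℕ := Nat.find (exists_cnt (D := D) s)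

lemma cnt_le {s n : ℕ} : D.cnt s ≤ n ↔ s ≤ D.sg n := by
  classical
  exact ⟨fun h => (Nat.find_spec (exists_cnt (D := D) s)).trans (sg_strict.monotone h),
    fun h => Nat.find_min' _ h⟩

lemma lt_cnt {s n : ℕ} : n < D.cnt s ↔ D.sg n < s := by rw [← not_le, cnt_le, not_le]

lemma le_sg_cnt (s : ℕ) : s ≤ D.sg (D.cnt s) := cnt_le.1 le_rfl

lemma cnt_mono : Monotone D.cnt := fun _ t h => cnt_le.2 (h.trans (le_sg_cnt t))

lemma cnt_sg (n : ℕ) : D.cnt (D.sg n) = n :=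
  le_antisymm (cnt_le.2 le_rfl) (sg_strict.le_iff_le.1 (le_sg_cnt _))

lemma cnt_sg_succ (n : ℕ) : D.cnt (D.sg n + 1) = n + 1 :=
  le_antisymm (cnt_le.2 (sg_strict n.lt_succ_self)) (lt_cnt.2 (Nat.lt_succ_self _))

lemma NE {v : L} (hv : v ∈ D.N) {j : ℕ} (h : X ^ j ∣ D.pZ v) (t : ℕ) :
    ⁅v, D.E t⁆ ∈ D.Box (t + D.sg j) (j + t + 1) := by
  rw [rec_eq hv.1, (mem_N.1 hv).2, zero_smul, zero_add, ← lie_skew, neg_mem_iff]
  refine D.lie_smul_mem (opn_box _ _) _ _ (fun k hk => ?_) h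
  rw [← lie_skew, neg_mem_iff]
  exact ⟨lie_M _ (e_mem _), (pow_dvd_pow _ (by have := sg_strict (D := D).monotone hk; omega)).trans
    (HE k t), (pow_dvd_pow _ (by omega)).trans (idxE k t)⟩

lemma dg_N_lt {v : L} (hv : v ∈ D.N) {j : ℕ} (h : X ^ j ∣ D.pZ v) {d : ℕ} (hd : d < D.sg j)
    (t : ℕ) : D.dg v d t = 0 := coeff_eq_zero (NE hv h t).2.1 (by omega)

lemma dg_N {v : L} (hv : v ∈ D.N) {j : ℕ} (h : X ^ j ∣ D.pZ v) {d : ℕ} (hd : d < D.sg (j + 1))
    (t : ℕ) : D.dg v d t = coeff j (D.pZ v) * D.dg (D.H j) d t := by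
  have := dg_N_lt (sub_mem hv (smul_mem _ (coeff j (D.pZ v)) (H_N j))) (sub_H (N_box hv h 0)).2.2
    hd t
  rwa [dg_sub_smul, sub_eq_zero] at this

lemma wt_of_dg {v : L} (hv : v ∈ D.N) {s : ℕ} (h : ∀ d < s, ∀ t, D.dg v d t = 0) :
    X ^ D.cnt s ∣ D.pZ v := by
  suffices ∀ j ≤ D.cnt s, X ^ j ∣ D.pZ v from this _ le_rfl
  intro j hj
  induction j with
  | zero => simp
  | succ j ih =>
    obtain ⟨t, ht⟩ := u_ne (D := D) j
    refine dvd_succ' (ih (by omega)) ((mul_eq_zero.1 ?_).resolve_right ht)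
    rw [u, ← dg_N hv (ih (by omega)) (sg_strict j.lt_succ_self)]
    exact h _ (lt_cnt.1 hj) t

lemma expand {v : L} {P : ℕ} (hv : ∀ d < P, ∀ t, D.dg v d t = 0) (j a : ℕ) {f : K⟦X⟧}
    (hf : X ^ a ∣ f) : coeff (a + P + j) (D.pE ⁅v, f • D.e⁆) =
      ∑ i ∈ range (j + 1), coeff (a + i) f * D.dg v (P + (j - i)) (a + i) := by
  have h1 : ∀ (a : ℕ) (f : K⟦X⟧), D.pE ⁅v, f • D.e⁆ = coeff a f • D.pE ⁅v, D.E a⁆ +
      D.pE ⁅v, (f - coeff a f • X ^ a) • D.e⁆ := fun a f => by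
    rw [sub_smul, smul_assoc, ← E, lie_sub, lie_smul (coeff a f), map_sub, map_smul,
      add_sub_cancel]
  induction j generalizing a f with
  | zero =>
    have h2 : ⁅v, (f - coeff a f • X ^ a) • D.e⁆ ∈ D.Box (a + 1 + P) 0 :=
      D.lie_smul_mem (opn_box _ _) _ _ (fun k hk => ⟨lie_M _ (e_mem _),
        (pow_dvd_pow _ (by omega)).trans (dg_dvd fun d hd => hv d hd k), by simp⟩) (dvd_succ hf)
    rw [h1 a f, map_add, coeff_eq_zero h2.2.1 (by omega)]
    simp [dg]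
  | succ j ih =>
    rw [h1 a f, map_add, sum_range_succ', show a + P + (j + 1) = a + 1 + P + j by ring,
      ih (a + 1) (dvd_succ hf), add_comm]
    congr 1
    · refine sum_congr rfl fun i _ => ?_
      rw [show a + (i + 1) = a + 1 + i by ring, Nat.add_sub_add_right]
      simp [coeff_X_pow, show a + 1 + i ≠ a by omega]
    · simp only [map_smul, smul_eq_mul, dg, add_zero, Nat.sub_zero]
      rw [show a + 1 + P + j = a + (P + (j + 1)) by ring]

lemma comp {v w : L} (hv : v ∈ D.N) (hw : w ∈ D.N) {P Q : ℕ} (h1 : ∀ d < P, ∀ t, D.dg v d t = 0)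
    (h2 : ∀ d < Q, ∀ t, D.dg w d t = 0) (j t : ℕ) : D.dg ⁅v, w⁆ (P + Q + j) t =
      ∑ i ∈ range (j + 1), (D.dg w (Q + i) t * D.dg v (P + (j - i)) (t + Q + i) -
        D.dg v (P + i) t * D.dg w (Q + (j - i)) (t + P + i)) := by
  have key : ∀ {v w : L}, v ∈ D.N → D.pE ⁅v, ⁅w, D.E t⁆⁆ = D.pE ⁅v, D.pE ⁅w, D.E t⁆ • D.e⁆ :=
    fun {v w} hv => by
      conv_lhs => rw [rec_eq (lie_M w (E_mem (D := D) t 0).1)]
      rw [lie_add, map_add, (mem_N.1 (lie_N hv ⟨h_mem _, pE_h _⟩)).2, add_zero]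
  rw [dg, lie_lie, map_sub, map_sub, key hv, key hw, sum_sub_distrib]
  congr 1
  · rw [show t + (P + Q + j) = t + Q + P + j by ring, expand h1 j _ (dg_dvd fun d hd => h2 d hd t)]
    simp only [dg, add_assoc]
  · rw [show t + (P + Q + j) = t + P + Q + j by ring, expand h2 j _ (dg_dvd fun d hd => h1 d hd t)]
    simp only [dg, add_assoc]

lemma lie_N_wt {v w : L} (hv : v ∈ D.N) (hw : w ∈ D.N) {s t : ℕ} (h1 : X ^ D.cnt s ∣ D.pZ v)
    (h2 : X ^ D.cnt t ∣ D.pZ w) : X ^ D.cnt (s + t) ∣ D.pZ ⁅v, w⁆ := by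
  refine wt_of_dg (lie_N hv hw) fun d hd r => ?_
  have := comp hv hw (P := 0) (Q := 0) (by simp) (by simp) d r
  simp only [zero_add, add_zero] at this
  rw [this]
  refine sum_eq_zero fun i hi => ?_
  have a1 := fun d (hd : d < s) => dg_N_lt hv h1 (hd.trans_le (le_sg_cnt s))
  have a2 := fun d (hd : d < t) => dg_N_lt hw h2 (hd.trans_le (le_sg_cnt t))
  rw [mem_range] at hi
  rw [sub_eq_zero]
  trans 0
  · rcases lt_or_ge i t with h | h
    · rw [a2 i h, zero_mul]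
    · rw [a1 _ (by omega), mul_zero]
  · rcases lt_or_ge i s with h | h
    · rw [a1 i h, zero_mul]
    · rw [a2 _ (by omega), mul_zero]

end Dat

end Pool.Agent.P78.U1
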